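import Pool.Agent.Helper60.CQ.Core

/-!
Project CQ (MP_b66f9f_gt), file Chain: regular chains and sharpness in a cocompact group.
-/

set_option autoImplicit false
set_option linter.unusedSectionVars false

open Set Filter Topology Module

namespace Pool.Agent.Helper60.CQ

variable {P N : Type*} [NormedAddCommGroup P] [InnerProductSpace ℝ P] [FiniteDimensional ℝ P]
  [NormedAddCommGroup N] [InnerProductSpace ℝ N] [FiniteDimensional ℝ N]

/-- the map `y ↦ -y + 2 bf y z / bf z z z` -/
noncomputable def rflFun (z : P × N) : (P × N) →ₗ[ℝ] (P × N) where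
  toFun := fun y => -y + (2 * bf y z / bf z z) • z
  map_add' := fun y y' => by
    rw [bf_add_left, mul_add, add_div, add_smul]
    abel
  map_smul' := fun t y => by
    rw [bf_smul_left, RingHom.id_apply, smul_add, smul_neg, smul_smul]
    congr 2
    ring

lemma rflFun_apply (z y : P × N) : rflFun z y = -y + (2 * bf y z / bf z z) • z := rfl

lemma bf_rflFun {z : P × N} (hz : bf z z ≠ 0) (y : P × N) : bf (rflFun z y) z = bf y z := by
  rw [rflFun_apply, bf_add_left, bf_smul_left, bf_symm (-y), bf_neg_right, bf_symm z y]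
  field_simp
  ring

lemma rflFun_rflFun {z : P × N} (hz : bf z z ≠ 0) (y : P × N) : rflFun z (rflFun z y) = y := by
  rw [rflFun_apply z (rflFun z y), bf_rflFun hz, rflFun_apply]
  abel

/-- a reflection as an element of the orthogonal group -/
noncomputable def rfl' (z : P × N) (hz : bf z z ≠ 0) : IsoG P N :=
  ⟨LinearEquiv.ofInvolutive (rflFun z) (rflFun_rflFun hz), by
    intro x y
    show bf (rflFun z x) (rflFun z y) = bf x y
    rw [rflFun_apply z y, bf_add_right, bf_neg_right, bf_smul_right, bf_rflFun hz, rflFun_apply,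
      bf_add_left, bf_smul_left, bf_symm (-x), bf_neg_right, bf_symm z y, bf_symm y x]
    field_simp
    ring⟩

lemma rfl'_smul (z : P × N) (hz : bf z z ≠ 0) (y : P × N) : rfl' z hz • y = rflFun z y := rfl

lemma rfl'_inv (z : P × N) (hz : bf z z ≠ 0) : (rfl' z hz)⁻¹ = rfl' z hz := by
  rw [inv_eq_iff_mul_eq_one]
  apply Subtype.ext
  apply LinearEquiv.ext
  intro y
  exact rflFun_rflFun hz y

section
variable [Nontrivial P]

/-- bounded points of the quadric are images of unit vectors of `P` under bounded elements -/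
lemma boost {x : P × N} (hx : bf x x = 1) : ∃ (k : IsoG P N) (w : P), ‖w‖ = 1 ∧
    k • ((w, 0) : P × N) = x ∧ nu k ≤ Real.log (1 + (‖x‖ + 1) ^ 2) := by
  have h1 : ‖x.1‖ ^ 2 = 1 + ‖x.2‖ ^ 2 := by
    rw [bf_self] at hx
    linarith
  have h2 : 1 ≤ ‖x.1‖ := by nlinarith [sq_nonneg ‖x.2‖, norm_nonneg x.1]
  set w : P := ‖x.1‖⁻¹ • x.1 with hw
  have hw1 : ‖w‖ = 1 := by
    rw [hw, norm_smul, norm_inv, norm_norm, inv_mul_cancel₀ (by linarith)]
  set e : P × N := (w, 0) with he
  have hee : bf e e = 1 := by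
    rw [bf_self, he]
    simp [hw1]
  have hex : bf e x = ‖x.1‖ := by
    unfold bf
    rw [he]
    simp only [inner_zero_left, sub_zero]
    rw [hw, real_inner_smul_left, real_inner_self_eq_norm_sq]
    field_simp
  set z : P × N := x + e with hz
  have hez : bf e z = ‖x.1‖ + 1 := by
    rw [hz, bf_add_right, hex, hee]
  have hzz : bf z z = 2 + 2 * ‖x.1‖ := by
    rw [hz, bf_add_left, bf_add_right, bf_add_right, hx, hee, bf_symm x e, hex]
    ring
  have hz0 : bf z z ≠ 0 := by
    rw [hzz]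
    linarith
  have hk : ∀ y : P × N, ‖rfl' z hz0 • y‖ ≤ (1 + (‖x‖ + 1) ^ 2) * ‖y‖ := by
    intro y
    rw [rfl'_smul, rflFun_apply]
    refine (norm_add_le _ _).trans ?_
    rw [norm_neg, norm_smul, Real.norm_eq_abs, abs_div, abs_mul, abs_two]
    have h3 := abs_bf_le y z
    have h4 : 4 ≤ |bf z z| := by
      rw [hzz, abs_of_nonneg (by linarith)]
      linarith
    have h5 : 2 * |bf y z| / |bf z z| ≤ ‖y‖ * ‖z‖ := by
      rw [div_le_iff₀ (by linarith)]
      nlinarith [norm_nonneg y, norm_nonneg z, mul_nonneg (norm_nonneg y) (norm_nonneg z)]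
    have h6 : ‖z‖ ≤ ‖x‖ + 1 := by
      rw [hz]
      refine (norm_add_le _ _).trans ?_
      have : ‖e‖ = 1 := by
        rw [he, Prod.norm_def]
        simp [hw1]
      linarith
    have h7 : ‖z‖ * ‖z‖ ≤ (‖x‖ + 1) ^ 2 := by nlinarith [norm_nonneg z]
    calc ‖y‖ + 2 * |bf y z| / |bf z z| * ‖z‖ ≤ ‖y‖ + ‖y‖ * ‖z‖ * ‖z‖ := by gcongr
      _ = ‖y‖ + ‖y‖ * (‖z‖ * ‖z‖) := by ring
      _ ≤ ‖y‖ + ‖y‖ * (‖x‖ + 1) ^ 2 := by gcongr
      _ = _ := by ring
  refine ⟨rfl' z hz0, w, hw1, ?_, ?_⟩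
  · rw [rfl'_smul, ← he, rflFun_apply, hez, hzz, hz]
    rw [show 2 * (‖x.1‖ + 1) / (2 + 2 * ‖x.1‖) = 1 by field_simp; ring, one_smul]
    abel
  · refine nu_le (by positivity) hk ?_
    rw [rfl'_inv]
    exact hk

/-- one step towards the target -/
lemma descend (g : IsoG P N) {s : ℝ} (hs : 1 < s) (hg : Real.log s ≤ mu g) :
    ∃ x : P × N, bf x x = 1 ∧ ‖x‖ ≤ s ∧ ‖(g⁻¹ • x).1‖ ≤ 2 * Real.exp (mu g) / s := by
  obtain ⟨u, v, hu, hv, h1, h2⟩ := exists_opt g
  set E := Real.exp (mu g) with hE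
  have hs0 : 0 < s := by linarith
  have hEs : s ≤ E := by
    rw [hE, ← Real.log_le_iff_le_exp hs0]
    exact hg
  have hE1 : 1 < E := by linarith
  set S := ‖cc g u‖ with hS
  have hS2 : E ^ 2 = 1 + S ^ 2 := by
    have := aa_sq g u
    rw [h1, norm_smul, hv, mul_one, hu, Real.norm_of_nonneg (by linarith)] at this
    linarith
  have hSnn : 0 ≤ S := norm_nonneg _
  have hSpos : 0 < S := by
    rcases hSnn.lt_or_eq with h | h
    · exact h
    · rw [← h] at hS2
      nlinarith
  have hSE : S ≤ E := by nlinarith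
  set p := (s + s⁻¹) / 2 with hp
  set q := (s - s⁻¹) / 2 with hq
  have hsi : s⁻¹ < 1 := inv_lt_one_of_one_lt₀ hs
  have hsi0 : 0 < s⁻¹ := inv_pos.mpr hs0
  have hpq : p ^ 2 - q ^ 2 = 1 := by
    rw [hp, hq]
    field_simp
    ring
  have hq0 : 0 ≤ q := by
    rw [hq]
    linarith
  have hp0 : 0 ≤ p := by
    rw [hp]
    linarith
  have hps : p ≤ s := by
    rw [hp]
    linarith
  have hqs : q ≤ s := by
    rw [hq]
    linarith
  have hpmq : p - q = s⁻¹ := by
    rw [hp, hq]
    ring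
  set n : N := S⁻¹ • cc g u with hn
  have hn1 : ‖n‖ = 1 := by
    rw [hn, norm_smul, norm_inv, norm_norm, inv_mul_cancel₀ hSpos.ne']
  have hkey : at' g (At g n) = S • u := by
    refine ext_inner_right ℝ fun w => ?_
    rw [inner_at', inner_At, AA_aa, hn, real_inner_smul_left, real_inner_smul_left]
    have h3 := bf_pres g ((u, 0) : P × N) ((w, 0) : P × N)
    rw [smul_inl, smul_inl] at h3
    unfold bf at h3
    simp only [inner_zero_left, sub_zero] at h3
    rw [h1, real_inner_smul_left, ← inner_at', h2, real_inner_smul_left] at h3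
    have h4 : inner ℝ (cc g u) (cc g w) = S ^ 2 * inner ℝ u w := by
      have : inner ℝ (cc g u) (cc g w) = (E ^ 2 - 1) * inner ℝ u w := by
        linear_combination (-1 : ℝ) * h3
      rw [this, hS2]
      ring
    rw [h4]
    field_simp
  refine ⟨(p • v, q • n), ?_, ?_, ?_⟩
  · rw [bf_self]
    show ‖p • v‖ ^ 2 - ‖q • n‖ ^ 2 = 1
    rw [norm_smul, norm_smul, hv, hn1, mul_one, mul_one, Real.norm_eq_abs, Real.norm_eq_abs,
      sq_abs, sq_abs, hpq]
  · rw [Prod.norm_def]
    refine max_le ?_ ?_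
    · show ‖p • v‖ ≤ s
      rw [norm_smul, hv, mul_one, Real.norm_of_nonneg hp0]
      exact hps
    · show ‖q • n‖ ≤ s
      rw [norm_smul, hn1, mul_one, Real.norm_of_nonneg hq0]
      exact hqs
  · rw [inv_fst]
    show ‖at' g (p • v - At g (q • n))‖ ≤ _
    rw [map_smul, map_sub, map_smul, map_smul, h2, hkey, smul_smul, smul_smul, ← sub_smul,
      norm_smul, hu, mul_one]
    have h5 : p * E - q * S = s⁻¹ * E + q * (E - S) := by
      rw [← hpmq]
      ring
    have h6 : E - S ≤ E⁻¹ := by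
      rw [le_inv_comm₀ (by nlinarith) (by linarith)]
      rw [inv_eq_one_div, le_div_iff₀ (by nlinarith)]
      nlinarith
    have h7 : 0 ≤ E - S := by linarith
    have h8 : 0 ≤ p * E - q * S := by
      rw [h5]
      positivity
    rw [Real.norm_of_nonneg h8, h5]
    have h9 : q * (E - S) ≤ s * E⁻¹ := mul_le_mul hqs h6 h7 hs0.le
    have h10 : s * E⁻¹ ≤ E / s := by
      rw [mul_inv_le_iff₀ (by linarith), div_mul_eq_mul_div, le_div_iff₀ hs0]
      nlinarith
    have h11 : s⁻¹ * E = E / s := by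
      field_simp
    have h12 : 2 * E / s = E / s + E / s := by ring
    rw [h11, h12]
    linarith

end

end Pool.Agent.Helper60.CQ
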