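import Pool.Agent.Helper60.CQ.Chain

/-!
Project CQ (MP_b66f9f_gt), file Chain2: regular chains and sharpness in a cocompact group.
-/

set_option autoImplicit false
set_option linter.unusedSectionVars false

open Set Filter Topology Module

namespace Pool.Agent.Helper60.CQ

variable {P N : Type*} [NormedAddCommGroup P] [InnerProductSpace ℝ P] [FiniteDimensional ℝ P]
  [NormedAddCommGroup N] [InnerProductSpace ℝ N] [FiniteDimensional ℝ N] [Nontrivial P]
  {Γ : Subgroup (IsoG P N)}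

/-- elements with bounded `mu` have bounded `nu` -/
lemma CC.nubd (h : CC Γ) (s : ℝ) : ∃ B : ℝ, 0 ≤ B ∧ ∀ g ∈ Γ, mu g ≤ s → nu g ≤ B := by
  obtain ⟨B, hB⟩ := ((h.fin s).image nu).bddAbove
  refine ⟨max B 0, le_max_right _ _, fun g hg hs => ?_⟩
  exact (hB ⟨g, ⟨hg, hs⟩, rfl⟩).trans (le_max_left _ _)

/-- one step towards the target, in the group -/
lemma CC.step (h : CC Γ) : ∃ S0 C1 : ℝ, 0 < S0 ∧ 0 ≤ C1 ∧ ∀ g ∈ Γ, S0 ≤ mu g →
    ∃ k ∈ Γ, nu k ≤ C1 ∧ mu (k⁻¹ * g) ≤ mu g - 1 := by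
  obtain ⟨C, hC, hcov⟩ := h.cov
  set κ := Real.log (1 + (C + 1) ^ 2) with hκ
  have hκ0 : 0 ≤ κ := Real.log_nonneg (by nlinarith)
  set t := Real.log 2 + κ + 1 with ht
  have hlog2 : 0 < Real.log 2 := Real.log_pos one_lt_two
  have ht0 : 0 < t := by linarith
  obtain ⟨C1, hC1, hnu⟩ := h.nubd (t + κ)
  refine ⟨t, C1, ht0, hC1, fun g hg hgt => ?_⟩
  have hs : 1 < Real.exp t := Real.one_lt_exp_iff.mpr ht0
  obtain ⟨x, hx, hxs, hgx⟩ := descend g hs (by rwa [Real.log_exp])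
  obtain ⟨γ, hγ, hγx⟩ := hcov x hx
  have hx' : bf (γ⁻¹ • x) (γ⁻¹ • x) = 1 := by rw [bf_pres, hx]
  obtain ⟨k, w, hw, hkw, hk⟩ := boost hx'
  have hkκ : nu k ≤ κ := by
    refine hk.trans ?_
    rw [hκ]
    refine Real.log_le_log (by positivity) ?_
    gcongr
  have hxx : x = (γ * k) • ((w, 0) : P × N) := by
    rw [mul_smul, hkw, smul_inv_smul]
  refine ⟨γ, hγ, ?_, ?_⟩
  · apply hnu γ hγ
    have h1 : mu (γ * k) ≤ t := by
      refine mu_le_of hw ?_
      rw [aa_apply, ← hxx]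
      exact (norm_fst_le x).trans hxs
    have h2 := mu_mul_ge' γ k
    linarith
  · have h1 : mu (g⁻¹ * (γ * k)) ≤ mu g + Real.log 2 - t := by
      refine mu_le_of hw ?_
      rw [aa_apply, mul_smul, ← hxx]
      refine hgx.trans (le_of_eq ?_)
      have e1 : Real.exp (mu g + Real.log 2 - t) = Real.exp (mu g + Real.log 2) / Real.exp t :=
        Real.exp_sub _ _
      have e2 : Real.exp (mu g + Real.log 2) = 2 * Real.exp (mu g) := by
        rw [Real.exp_add, Real.exp_log zero_lt_two, mul_comm]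
      rw [e1, e2]
    have h2 := mu_mul_ge' (g⁻¹ * γ) k
    rw [mul_assoc] at h2
    rw [← mu_inv, mul_inv_rev, inv_inv]
    linarith

/-- the descending map -/
lemma CC.descent (h : CC Γ) : ∃ (S0 C1 : ℝ) (f : IsoG P N → IsoG P N), 0 < S0 ∧ 0 ≤ C1 ∧
    ∀ g ∈ Γ, f g ∈ Γ ∧ nu (g * (f g)⁻¹) ≤ C1 ∧ (S0 ≤ mu g → mu (f g) ≤ mu g - 1) ∧
      (mu g < S0 → f g = 1) := by
  classical
  obtain ⟨S0, C1, hS0, hC1, hst⟩ := h.step
  obtain ⟨B, hB, hnu⟩ := h.nubd S0
  have hex : ∀ g : IsoG P N, ∃ g' : IsoG P N, g ∈ Γ → g' ∈ Γ ∧ nu (g * g'⁻¹) ≤ max C1 B ∧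
      (S0 ≤ mu g → mu g' ≤ mu g - 1) ∧ (mu g < S0 → g' = 1) := by
    intro g
    by_cases hg : g ∈ Γ
    · by_cases hm : S0 ≤ mu g
      · obtain ⟨k, hk, hk1, hk2⟩ := hst g hg hm
        refine ⟨k⁻¹ * g, fun _ => ⟨Γ.mul_mem (Γ.inv_mem hk) hg, ?_, fun _ => hk2, fun h' => ?_⟩⟩
        · rw [mul_inv_rev, inv_inv, mul_inv_cancel_left]
          exact hk1.trans (le_max_left _ _)
        · linarith
      · push Not at hm
        refine ⟨1, fun _ => ⟨Γ.one_mem, ?_, fun h' => ?_, fun _ => rfl⟩⟩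
        · rw [inv_one, mul_one]
          exact (hnu g hg hm.le).trans (le_max_right _ _)
        · linarith
    · exact ⟨1, fun h' => absurd h' hg⟩
  choose f hf using hex
  exact ⟨S0, max C1 B, f, hS0, hC1.trans (le_max_left _ _), fun g hg => hf g hg⟩

/-- the descending sequence -/
lemma CC.seq (h : CC Γ) : ∃ C : ℝ, 0 ≤ C ∧ ∀ g ∈ Γ, ∃ (n : ℕ) (a : ℕ → IsoG P N),
    a 0 = g ∧ a n = 1 ∧ (∀ k, a k ∈ Γ) ∧ (∀ k, nu (a k * (a (k + 1))⁻¹) ≤ C) ∧
    ∀ j k, j ≤ k → k ≤ n → mu (a k) ≤ mu (a j) - ((k : ℝ) - j) + 1 := by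
  classical
  obtain ⟨S0, C1, f, hS0, hC1, hf⟩ := h.descent
  refine ⟨C1, hC1, fun g hg => ?_⟩
  set a : ℕ → IsoG P N := fun k => f^[k] g with ha
  have ha0 : a 0 = g := rfl
  have hasucc : ∀ k, a (k + 1) = f (a k) := fun k => Function.iterate_succ_apply' f k g
  have hmem : ∀ k, a k ∈ Γ := by
    intro k
    induction k with
    | zero => exact hg
    | succ k ih =>
      rw [hasucc]
      exact (hf _ ih).1
  -- the sequence reaches 1
  have hex : ∃ n, a n = 1 := by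
    by_contra hcon
    push Not at hcon
    have hlarge : ∀ k, S0 ≤ mu (a k) := by
      intro k
      by_contra hlt
      push Not at hlt
      apply hcon (k + 1)
      rw [hasucc]
      exact (hf _ (hmem k)).2.2.2 hlt
    have hdec : ∀ k : ℕ, mu (a k) ≤ mu g - k := by
      intro k
      induction k with
      | zero => simp [ha0]
      | succ k ih =>
        have := (hf _ (hmem k)).2.2.1 (hlarge k)
        rw [hasucc]
        push_cast
        linarith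
    obtain ⟨k, hk⟩ := exists_nat_gt (mu g)
    have h1 := hdec k
    have h2 := hlarge k
    linarith
  set n := Nat.find hex with hn
  have hn1 : a n = 1 := Nat.find_spec hex
  have hlarge : ∀ k, k + 1 < n → S0 ≤ mu (a k) := by
    intro k hk
    by_contra hlt
    push Not at hlt
    apply Nat.find_min hex hk
    rw [hasucc]
    exact (hf _ (hmem k)).2.2.2 hlt
  have hdec : ∀ j k, j ≤ k → k < n → mu (a k) ≤ mu (a j) - ((k : ℝ) - j) := by
    intro j k hjk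
    induction k, hjk using Nat.le_induction with
    | base => intro _; simp
    | succ k hjk ih =>
      intro hk
      have h1 := ih (by omega)
      have h2 := (hf _ (hmem k)).2.2.1 (hlarge k hk)
      rw [hasucc]
      push_cast
      linarith
  refine ⟨n, a, ha0, hn1, hmem, fun k => ?_, fun j k hjk hk => ?_⟩
  · rw [hasucc]
    exact (hf _ (hmem k)).2.1
  · rcases hk.lt_or_eq with hlt | heq
    · have := hdec j k hjk hlt
      linarith
    · rcases hjk.lt_or_eq with hjlt | hjeq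
      · obtain ⟨l, hl⟩ : ∃ l, k = l + 1 := ⟨k - 1, by omega⟩
        have h1 := hdec j l (by omega) (by omega)
        have h2 := mu_nonneg (a l)
        rw [heq, hn1, mu_one]
        rw [← heq, hl]
        push_cast
        linarith
      · rw [hjeq]
        simp

/-- sharpness -/
theorem CC.sharp (h : CC Γ) : ∃ Cs : ℝ, 1 ≤ Cs ∧ ∀ g ∈ Γ, nu g ≤ Cs * (mu g + 1) := by
  obtain ⟨C, hC, hseq⟩ := h.seq
  refine ⟨C + 1, by linarith, fun g hg => ?_⟩
  obtain ⟨n, a, ha0, han, hmem, hst, hdec⟩ := hseq g hg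
  have h1 : ∀ k, nu (g * (a k)⁻¹) ≤ C * k := by
    intro k
    induction k with
    | zero => simp [ha0, nu_one]
    | succ k ih =>
      have h2 := nu_mul (g * (a k)⁻¹) (a k * (a (k + 1))⁻¹)
      rw [show g * (a k)⁻¹ * (a k * (a (k + 1))⁻¹) = g * (a (k + 1))⁻¹ by group] at h2
      have h3 := hst k
      push_cast
      linarith
  have h2 := h1 n
  rw [han, inv_one, mul_one] at h2
  have h3 := hdec 0 n (Nat.zero_le _) le_rfl
  rw [han, mu_one, ha0] at h3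
  push_cast at h3
  have h4 : (n : ℝ) ≤ mu g + 1 := by linarith
  have h5 : C * n ≤ C * (mu g + 1) := mul_le_mul_of_nonneg_left h4 hC
  have h6 := mu_nonneg g
  linarith

/-- regular chains -/
theorem CC.chain (h : CC Γ) : ∃ C c : ℝ, 0 ≤ C ∧ 0 < c ∧ ∀ g ∈ Γ, ∀ g' ∈ Γ,
    Joined Γ C c g g' := by
  obtain ⟨C, hC, hseq⟩ := h.seq
  obtain ⟨Cs, hCs, hsh⟩ := h.sharp
  have hCs0 : 0 < Cs := by linarith
  refine ⟨C + 2, Cs⁻¹, by linarith, inv_pos.mpr hCs0, fun g hg g' hg' => ?_⟩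
  have hgg : g⁻¹ * g' ∈ Γ := Γ.mul_mem (Γ.inv_mem hg) hg'
  obtain ⟨n, a, ha0, han, hmem, hst, hdec⟩ := hseq _ hgg
  refine ⟨n, fun k => g' * (a k)⁻¹, ?_, ?_, fun k _ => Γ.mul_mem hg' (Γ.inv_mem (hmem k)), ?_, ?_⟩
  · show g' * (a 0)⁻¹ = g
    rw [ha0]
    group
  · show g' * (a n)⁻¹ = g'
    rw [han]
    group
  · intro k _
    show nu ((g' * (a k)⁻¹)⁻¹ * (g' * (a (k + 1))⁻¹)) ≤ C + 2
    rw [show (g' * (a k)⁻¹)⁻¹ * (g' * (a (k + 1))⁻¹) = a k * (a (k + 1))⁻¹ by group]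
    linarith [hst k]
  · intro j k hjk hk
    show _ ≤ mu ((g' * (a j)⁻¹)⁻¹ * (g' * (a k)⁻¹))
    rw [show (g' * (a j)⁻¹)⁻¹ * (g' * (a k)⁻¹) = a j * (a k)⁻¹ by group]
    have h1 := hsh _ (Γ.mul_mem (hmem j) (Γ.inv_mem (hmem k)))
    have h2 := hdec j k hjk hk
    have h3 := mu_mul_le (a j * (a k)⁻¹) (a k)
    rw [inv_mul_cancel_right] at h3
    have h4 : (k : ℝ) - j - 1 ≤ Cs * (mu (a j * (a k)⁻¹) + 1) := by linarith
    have h5 : Cs⁻¹ * ((k : ℝ) - j - 1) ≤ mu (a j * (a k)⁻¹) + 1 := by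
      rw [inv_mul_le_iff₀ hCs0]
      exact h4
    have h6 : Cs⁻¹ ≤ 1 := inv_le_one_of_one_le₀ hCs
    linarith

end Pool.Agent.Helper60.CQ
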