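import Pool.Agent.Helper60.CQ.Iso

/-!
Project CQ (MP_b66f9f_gt), block CQ-MP: elements of the orthogonal group preserve the volume of `P × N`.

Proof. The linear map `g` preserves the nondegenerate symmetric bilinear form `bf`. In the matrix of
an orthonormal basis of `P` followed by one of `N` (a basis of `P × N`: `Basis.prod`) this reads
`Mᵀ G M = G` with `G = diag(1, -1)`, `det G ≠ 0`, so `(det M)^2 = 1` and `|det g| = 1`; then
`MeasureTheory.Measure.map_linearMap_addHaar_eq_smul_addHaar` (or
`Measure.addHaar_preimage_linearMap`). The `volume` of `P × N` is an additive Haar measure (instance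
for products). An alternative for the determinant: `g` is conjugate to the inverse of its adjoint by
the involution `(x,y) ↦ (x,-y)` (on `WithLp 2 (P × N)`), so `det g = (det g)⁻¹`.
-/

set_option autoImplicit false
set_option linter.unusedSectionVars false

open Set Filter Topology Module MeasureTheory

namespace Pool.Agent.Helper60.CQ

theorem abs_det_isoG {P N : Type*} [NormedAddCommGroup P] [InnerProductSpace ℝ P]
    [FiniteDimensional ℝ P] [NormedAddCommGroup N] [InnerProductSpace ℝ N] [FiniteDimensional ℝ N]
    (g : IsoG P N) : |LinearMap.det (g.1 : (P × N) →ₗ[ℝ] (P × N))| = 1 := by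
  classical
  set bP := stdOrthonormalBasis ℝ P with hbP
  set bN := stdOrthonormalBasis ℝ N with hbN
  set b := bP.toBasis.prod bN.toBasis with hb
  set M := LinearMap.toMatrix b b (g.1 : (P × N) →ₗ[ℝ] (P × N)) with hM
  set G : Matrix (Fin (finrank ℝ P) ⊕ Fin (finrank ℝ N)) (Fin (finrank ℝ P) ⊕ Fin (finrank ℝ N)) ℝ :=
    Matrix.diagonal (Sum.elim (fun _ => 1) (fun _ => -1)) with hG
  have hrl : ∀ (z : P × N) i, b.repr z (Sum.inl i) = inner ℝ (bP i) z.1 := by
    intro z i
    rw [hb, Basis.prod_repr_inl, OrthonormalBasis.coe_toBasis_repr_apply,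
      OrthonormalBasis.repr_apply_apply]
  have hrr : ∀ (z : P × N) i, b.repr z (Sum.inr i) = inner ℝ (bN i) z.2 := by
    intro z i
    rw [hb, Basis.prod_repr_inr, OrthonormalBasis.coe_toBasis_repr_apply,
      OrthonormalBasis.repr_apply_apply]
  have hbf : ∀ x y : P × N, ∑ k, b.repr x k * (Sum.elim (fun _ => (1 : ℝ)) (fun _ => -1) k) * b.repr y k =
      bf x y := by
    intro x y
    rw [Fintype.sum_sum_type]
    simp only [hrl, hrr, Sum.elim_inl, Sum.elim_inr]
    unfold bf
    rw [← bP.sum_inner_mul_inner x.1 y.1, ← bN.sum_inner_mul_inner x.2 y.2, sub_eq_add_neg,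
      ← Finset.sum_neg_distrib]
    congr 1
    · refine Finset.sum_congr rfl fun k _ => ?_
      rw [real_inner_comm, mul_one]
    · refine Finset.sum_congr rfl fun k _ => ?_
      rw [real_inner_comm]
      ring
  have key : M.transpose * G * M = G := by
    ext i j
    rw [Matrix.mul_apply]
    have h1 : ∀ k, (M.transpose * G) i k * M k j =
        b.repr (g • b i) k * (Sum.elim (fun _ => (1 : ℝ)) (fun _ => -1) k) * b.repr (g • b j) k := by
      intro k
      rw [hG, Matrix.mul_diagonal, Matrix.transpose_apply, hM, LinearMap.toMatrix_apply,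
        LinearMap.toMatrix_apply]
      rfl
    rw [Finset.sum_congr rfl fun k _ => h1 k, hbf, bf_pres, ← hbf]
    simp only [Basis.repr_self, hG, Matrix.diagonal_apply]
    rw [Finset.sum_eq_single i]
    · by_cases hij : i = j
      · subst hij
        simp
      · have hji : ¬ j = i := fun h => hij h.symm
        rw [if_neg hij, Finsupp.single_apply, Finsupp.single_apply, if_neg hji, mul_zero]
    · intro k _ hk
      rw [Finsupp.single_eq_of_ne (by exact hk), zero_mul, zero_mul]
    · intro h
      exact absurd (Finset.mem_univ i) h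
  have hGd : G.det ≠ 0 := by
    rw [hG, Matrix.det_diagonal]
    refine Finset.prod_ne_zero_iff.2 fun k _ => ?_
    cases k <;> simp
  have hdet : M.det * M.det = 1 := by
    have h1 := congrArg Matrix.det key
    rw [Matrix.det_mul, Matrix.det_mul, Matrix.det_transpose] at h1
    have h2 : (M.det * M.det - 1) * G.det = 0 := by
      linear_combination h1
    rcases mul_eq_zero.1 h2 with h3 | h3
    · linarith
    · exact absurd h3 hGd
  rw [← LinearMap.det_toMatrix b, ← hM]
  have h3 : |M.det| * |M.det| = 1 := by rw [← abs_mul, hdet, abs_one]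
  have h4 := abs_nonneg M.det
  nlinarith

theorem volume_smul {P N : Type*} [NormedAddCommGroup P] [InnerProductSpace ℝ P]
    [FiniteDimensional ℝ P] [NormedAddCommGroup N] [InnerProductSpace ℝ N] [FiniteDimensional ℝ N]
    [MeasurableSpace P] [BorelSpace P] [MeasurableSpace N] [BorelSpace N]
    (g : IsoG P N) (S : Set (P × N)) :
    volume ((fun z : P × N => g • z) ⁻¹' S) = volume S := by
  have h1 := abs_det_isoG g
  have h2 : LinearMap.det (g.1 : (P × N) →ₗ[ℝ] (P × N)) ≠ 0 := by
    intro h
    rw [h, abs_zero] at h1
    exact zero_ne_one h1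
  have : ProperSpace P := FiniteDimensional.proper_real P
  have : ProperSpace N := FiniteDimensional.proper_real N
  have hH : (volume : Measure (P × N)).IsAddHaarMeasure :=
    Measure.prod.instIsAddHaarMeasure (volume : Measure P) (volume : Measure N)
  have h3 := Measure.addHaar_preimage_linearMap (volume : Measure (P × N)) h2 S
  rw [abs_inv, h1, inv_one, ENNReal.ofReal_one, one_mul] at h3
  exact h3

end Pool.Agent.Helper60.CQ
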