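import Mathlib

/-!
Project CQ (MP_b66f9f_gt), block CQ-VQ: lower bound for the volume of a thin shell of the cone.
Needs only Mathlib. (The norm of `P × N` is the maximum of the two norms; `volume` is the product.)

Statement: `vol {z = (x, y) : 0 < |x|^2 - |y|^2 <= θ, 1 <= |z| <= 2} >= c θ` for `0 < θ <= 1`.

Proof. The set contains `{(x,y) : 1 <= |y| <= 3/2, |y|^2 < |x|^2 <= |y|^2 + θ}` (then `|x| > 1` and
`|x|^2 <= 9/4 + 1 < 4`). Integrate over `y` (`Measure.prod_apply_symm` or `le` version, sections in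
`x`): the section is the shell between the balls of radii `r0 = |y| >= 1` and
`r = sqrt(|y|^2 + θ) <= 2` in `P`, `m = finrank P >= 1`; its volume is
`(r^m - r0^m) v_m >= (r - r0) v_m = θ/(r + r0) v_m >= (θ/4) v_m`, where `v_m` is the volume of the unit
ball (`Measure.addHaar_closedBall`). So the total volume is at least
`(θ/4) v_m vol {y : 1 <= |y| <= 3/2}`, and the last factor is positive (it contains an open ball of
radius 1/4 because `N` is nontrivial).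
-/

set_option autoImplicit false
set_option linter.unusedSectionVars false

open Set Filter Topology Module MeasureTheory

namespace Pool.Agent.Helper60.CQ

private theorem pow_sub_h12 {m : ℕ} (hm : 0 < m) {r r₀ : ℝ} (h0 : 1 ≤ r₀) (h : r₀ ≤ r) :
    r - r₀ ≤ r ^ m - r₀ ^ m := by
  obtain ⟨k, rfl⟩ := Nat.exists_eq_succ_of_ne_zero hm.ne'
  have h1 : r₀ ^ k ≤ r ^ k := pow_le_pow_left₀ (by linarith) h k
  have h2 : 1 ≤ r₀ ^ k := one_le_pow₀ h0
  have h3 : r * r₀ ^ k ≤ r * r ^ k := mul_le_mul_of_nonneg_left h1 (by linarith)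
  have h4 : (r - r₀) * 1 ≤ (r - r₀) * r₀ ^ k := mul_le_mul_of_nonneg_left h2 (by linarith)
  rw [Nat.succ_eq_add_one, pow_succ', pow_succ']
  nlinarith

private theorem shell_h12 (P : Type*) [NormedAddCommGroup P] [InnerProductSpace ℝ P]
    [FiniteDimensional ℝ P] [MeasurableSpace P] [BorelSpace P] [Nontrivial P] {θ s : ℝ}
    (hθ : 0 < θ) (hθ1 : θ ≤ 1) (hs : 1 ≤ s) (hs2 : s ≤ 3 / 2) :
    ENNReal.ofReal (θ / 4) * volume (Metric.ball (0 : P) 1) ≤
      volume {x : P | s ^ 2 < ‖x‖ ^ 2 ∧ ‖x‖ ^ 2 ≤ s ^ 2 + θ} := by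
  obtain ⟨r, hr⟩ : ∃ r, r = √(s ^ 2 + θ) := ⟨_, rfl⟩
  have hr0 : 0 ≤ r := hr ▸ Real.sqrt_nonneg _
  have hr2 : r ^ 2 = s ^ 2 + θ := by
    rw [hr, Real.sq_sqrt (by positivity)]
  have hsr : s ≤ r := by
    rw [← abs_of_nonneg hr0, ← abs_of_nonneg (by linarith : (0 : ℝ) ≤ s), ← sq_le_sq, hr2]
    linarith
  have hr3 : r ≤ 2 := by nlinarith
  have hm : 0 < finrank ℝ P := finrank_pos
  have e1 : {x : P | s ^ 2 < ‖x‖ ^ 2 ∧ ‖x‖ ^ 2 ≤ s ^ 2 + θ} =
      Metric.closedBall 0 r \ Metric.closedBall 0 s := by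
    ext x
    have hx := norm_nonneg x
    simp only [mem_setOf_eq, mem_diff, mem_closedBall_zero_iff, not_le, ← hr2]
    rw [pow_lt_pow_iff_left₀ (by linarith) hx (by norm_num),
      pow_le_pow_iff_left₀ hx hr0 (by norm_num), and_comm]
  rw [e1, measure_diff (Metric.closedBall_subset_closedBall hsr)
    Metric.isClosed_closedBall.measurableSet.nullMeasurableSet
    (isCompact_closedBall (0 : P) s).measure_ne_top,
    Measure.addHaar_closedBall _ _ hr0, Measure.addHaar_closedBall _ _ (by linarith : (0 : ℝ) ≤ s),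
    ← ENNReal.sub_mul (fun _ _ => measure_ball_lt_top.ne), ← ENNReal.ofReal_sub _ (by positivity)]
  gcongr
  refine le_trans ?_ (pow_sub_h12 hm hs hsr)
  nlinarith

theorem VQ (P N : Type*) [NormedAddCommGroup P] [InnerProductSpace ℝ P] [FiniteDimensional ℝ P]
    [NormedAddCommGroup N] [InnerProductSpace ℝ N] [FiniteDimensional ℝ N]
    [MeasurableSpace P] [BorelSpace P] [MeasurableSpace N] [BorelSpace N]
    [Nontrivial P] [Nontrivial N] :
    ∃ c : ℝ, 0 < c ∧ ∀ θ : ℝ, 0 < θ → θ ≤ 1 → ENNReal.ofReal (c * θ) ≤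
      volume {z : P × N | 0 < ‖z.1‖ ^ 2 - ‖z.2‖ ^ 2 ∧ ‖z.1‖ ^ 2 - ‖z.2‖ ^ 2 ≤ θ ∧
        1 ≤ ‖z‖ ∧ ‖z‖ ≤ 2} := by
  obtain ⟨A, hA⟩ : ∃ A : Set N, A = {y | 1 ≤ ‖y‖ ∧ ‖y‖ ≤ 3 / 2} := ⟨_, rfl⟩
  have hAc : IsClosed A := by
    rw [hA]
    exact (isClosed_le continuous_const continuous_norm).inter
      (isClosed_le continuous_norm continuous_const)
  obtain ⟨v, hv⟩ : ∃ v, v = volume (Metric.ball (0 : P) 1) := ⟨_, rfl⟩
  obtain ⟨w, hw⟩ : ∃ w, w = volume A := ⟨_, rfl⟩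
  have hv0 : v ≠ 0 := hv ▸ (Metric.measure_ball_pos volume (0 : P) one_pos).ne'
  have hvt : v ≠ ⊤ := hv ▸ measure_ball_lt_top.ne
  have hw0 : w ≠ 0 := by
    obtain ⟨y, hy⟩ := exists_norm_eq N (c := (5 / 4 : ℝ)) (by norm_num)
    have hO : IsOpen {y : N | 1 < ‖y‖ ∧ ‖y‖ < 3 / 2} :=
      (isOpen_lt continuous_const continuous_norm).inter
        (isOpen_lt continuous_norm continuous_const)
    have h1 := hO.measure_pos volume ⟨y, by
      show 1 < ‖y‖ ∧ ‖y‖ < 3 / 2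
      rw [hy]
      norm_num⟩
    rw [hw]
    refine (h1.trans_le (measure_mono fun z hz => ?_)).ne'
    rw [hA]
    exact ⟨hz.1.le, hz.2.le⟩
  have hwt : w ≠ ⊤ := by
    rw [hw]
    refine ((measure_mono fun z hz => ?_).trans_lt
      (isCompact_closedBall (0 : N) (3 / 2)).measure_lt_top).ne
    rw [hA] at hz
    exact mem_closedBall_zero_iff.2 hz.2
  refine ⟨1 / 4 * v.toReal * w.toReal, mul_pos (mul_pos (by norm_num)
    (ENNReal.toReal_pos hv0 hvt)) (ENNReal.toReal_pos hw0 hwt), fun θ hθ hθ1 => ?_⟩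
  have e0 : ENNReal.ofReal (1 / 4 * v.toReal * w.toReal * θ) = ENNReal.ofReal (θ / 4) * v * w := by
    rw [show 1 / 4 * v.toReal * w.toReal * θ = θ / 4 * v.toReal * w.toReal by ring,
      ENNReal.ofReal_mul (by positivity), ENNReal.ofReal_mul (by positivity),
      ENNReal.ofReal_toReal hvt, ENNReal.ofReal_toReal hwt]
  obtain ⟨T, hT⟩ : ∃ T : Set (P × N), T = {z | z.2 ∈ A ∧ ‖z.2‖ ^ 2 < ‖z.1‖ ^ 2 ∧
    ‖z.1‖ ^ 2 ≤ ‖z.2‖ ^ 2 + θ} := ⟨_, rfl⟩
  have hTm : MeasurableSet T := by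
    have c1 : Continuous fun z : P × N => ‖z.1‖ ^ 2 := (continuous_norm.comp continuous_fst).pow 2
    have c2 : Continuous fun z : P × N => ‖z.2‖ ^ 2 := (continuous_norm.comp continuous_snd).pow 2
    have h1 : MeasurableSet {z : P × N | ‖z.2‖ ^ 2 < ‖z.1‖ ^ 2} := (isOpen_lt c2 c1).measurableSet
    have h2 : MeasurableSet {z : P × N | ‖z.1‖ ^ 2 ≤ ‖z.2‖ ^ 2 + θ} :=
      (isClosed_le c1 (c2.add continuous_const)).measurableSet
    have h3 : MeasurableSet {z : P × N | z.2 ∈ A} := (hAc.preimage continuous_snd).measurableSet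
    rw [hT]
    exact h3.inter (h1.inter h2)
  have hTS : T ⊆ {z : P × N | 0 < ‖z.1‖ ^ 2 - ‖z.2‖ ^ 2 ∧ ‖z.1‖ ^ 2 - ‖z.2‖ ^ 2 ≤ θ ∧
        1 ≤ ‖z‖ ∧ ‖z‖ ≤ 2} := by
    rintro ⟨x, y⟩ hz
    rw [hT, hA] at hz
    obtain ⟨⟨h1, h2⟩, h3, h4⟩ := hz
    simp only at h1 h2 h3 h4
    have hx := norm_nonneg x
    refine ⟨by simp only; linarith, by simp only; linarith, ?_, ?_⟩
    · exact h1.trans (norm_snd_le (x, y))
    · rw [Prod.norm_def]
      refine max_le ?_ (h2.trans (by norm_num))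
      simp only
      nlinarith
  refine le_trans ?_ (measure_mono hTS)
  rw [e0, Measure.volume_eq_prod, Measure.prod_apply_symm hTm]
  calc ENNReal.ofReal (θ / 4) * v * w = ∫⁻ y in A, ENNReal.ofReal (θ / 4) * v := by
        rw [setLIntegral_const, hw]
    _ ≤ ∫⁻ y in A, volume ((fun x => (x, y)) ⁻¹' T) := by
        refine setLIntegral_mono' hAc.measurableSet fun y hy => ?_
        have hy' := hy
        rw [hA] at hy'
        refine (hv ▸ shell_h12 P hθ hθ1 hy'.1 hy'.2).trans (measure_mono fun x hx => ?_)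
        rw [hT]
        exact ⟨hy, hx.1, hx.2⟩
    _ ≤ ∫⁻ y, volume ((fun x => (x, y)) ⁻¹' T) := setLIntegral_le_lintegral _ _

end Pool.Agent.Helper60.CQ
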