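import Mathlib

/-!
Project CQ (MP_b66f9f_gt), block CQ-QV: a thin shell of an indefinite quadratic function.
Needs only Mathlib.

Statement: `q = finrank N >= 2`, `B : N → P` a contraction, `α` in `P`, `0 < θ`, `2 θ <= |α|^2`. Then
`Y = {y : |y| <= C |α|, 0 < f(y) <= θ}`, `f(y) = |α + B y|^2 - |y|^2`, has volume
`<= c θ |α|^(q-2)` with `c = c(N, C)`.

Proof. For fixed `y` put `φ(s) = f(s y) = |α|^2 + 2 s β - s^2 τ` with `β = <α, B y>` and
`τ = |y|^2 - |B y|^2 >= 0`. If `y ∈ Y` then `φ(1) <= θ` gives `2 β - τ <= θ - |α|^2 <= -|α|^2/2`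
so for `s >= 1`: `φ(s) - φ(1) = (s-1)(2 β - (s+1) τ) <= (s-1)(2β - τ) <= -(s-1)|α|^2/2`.
Hence `f(s y) <= 0` once `s >= s0 := 1 + 2 θ/|α|^2`, and so the sets `s0^j Y`, `j = 0, 1, 2, ...` are
pairwise disjoint (if `s0^i y = s0^j y'` with `i < j` then `y = s0^(j-i) y'` has `f(y) <= 0`).
For `j <= J := floor(|α|^2/(2θ))` we have `s0^j <= exp(2 θ j/|α|^2) <= e <= 3`, so these `J + 1` sets
lie in the ball of radius `3 C |α|`, and each has volume `>= vol Y` (`Measure.addHaar_smul`). So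
`(J+1) vol Y <= (3 C |α|)^q v_q` and `J + 1 >= |α|^2/(2θ)`, which gives
`vol Y <= 2 (3C)^q v_q θ |α|^(q-2)`. (Measurability of Y: it is Borel, for `measure_iUnion`.)
-/

set_option autoImplicit false
set_option linter.unusedSectionVars false

open Set Filter Topology Module MeasureTheory

namespace Pool.Agent.Helper60.CQ

open scoped Pointwise in
theorem QV (P N : Type*) [NormedAddCommGroup P] [InnerProductSpace ℝ P] [FiniteDimensional ℝ P]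
    [NormedAddCommGroup N] [InnerProductSpace ℝ N] [FiniteDimensional ℝ N]
    [MeasurableSpace N] [BorelSpace N] (hN : 2 ≤ finrank ℝ N) (C : ℝ) (hC : 0 < C) :
    ∃ c : ℝ, 0 < c ∧ ∀ (B : N →L[ℝ] P), ‖B‖ ≤ 1 → ∀ (α : P) (θ : ℝ), 0 < θ → 2 * θ ≤ ‖α‖ ^ 2 →
      volume {y : N | ‖y‖ ≤ C * ‖α‖ ∧ 0 < ‖α + B y‖ ^ 2 - ‖y‖ ^ 2 ∧
        ‖α + B y‖ ^ 2 - ‖y‖ ^ 2 ≤ θ} ≤ ENNReal.ofReal (c * θ * ‖α‖ ^ (finrank ℝ N - 2)) := by
  classical
  obtain ⟨q, hq⟩ : ∃ q : ℕ, q = finrank ℝ N := ⟨_, rfl⟩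
  rw [← hq] at hN ⊢
  obtain ⟨v, hv⟩ : ∃ v : ℝ, v = (volume (Metric.ball (0 : N) 1)).toReal := ⟨_, rfl⟩
  have hv0 : 0 < v := by
    rw [hv]
    exact ENNReal.toReal_pos (Metric.measure_ball_pos volume 0 one_pos).ne' measure_ball_lt_top.ne
  have hvE : volume (Metric.ball (0 : N) 1) = ENNReal.ofReal v := by
    rw [hv, ENNReal.ofReal_toReal measure_ball_lt_top.ne]
  refine ⟨2 * (3 * C) ^ q * v, by positivity, fun B hB α θ hθ hα => ?_⟩
  have ha2 : 0 < ‖α‖ ^ 2 := by linarith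
  have ha : 0 < ‖α‖ := by
    rcases (norm_nonneg α).eq_or_lt with h | h
    · rw [← h] at ha2
      norm_num at ha2
    · exact h
  obtain ⟨Y, hY⟩ : ∃ Y : Set N, Y = {y : N | ‖y‖ ≤ C * ‖α‖ ∧ 0 < ‖α + B y‖ ^ 2 - ‖y‖ ^ 2 ∧
        ‖α + B y‖ ^ 2 - ‖y‖ ^ 2 ≤ θ} := ⟨_, rfl⟩
  rw [← hY]
  obtain ⟨s0, hs0⟩ : ∃ s0 : ℝ, s0 = 1 + 2 * θ / ‖α‖ ^ 2 := ⟨_, rfl⟩
  have hx0 : 0 < 2 * θ / ‖α‖ ^ 2 := by positivity
  have hs1 : 1 ≤ s0 := by linarith
  have hsp : 0 < s0 := by linarith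
  have key : ∀ y ∈ Y, ∀ s, s0 ≤ s → ‖α + B (s • y)‖ ^ 2 - ‖s • y‖ ^ 2 ≤ 0 := by
    intro y hy s hs
    rw [hY] at hy
    obtain ⟨-, -, h3⟩ := hy
    have hBy : ‖B y‖ ≤ ‖y‖ := by
      refine (B.le_opNorm y).trans ?_
      have := mul_le_mul_of_nonneg_right hB (norm_nonneg y)
      linarith
    have hτ : 0 ≤ ‖y‖ ^ 2 - ‖B y‖ ^ 2 := by
      have := pow_le_pow_left₀ (norm_nonneg (B y)) hBy 2
      linarith
    have hns : ‖s‖ ^ 2 = s ^ 2 := by rw [Real.norm_eq_abs, sq_abs]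
    rw [map_smul, norm_add_sq_real, inner_smul_right, norm_smul, norm_smul, mul_pow, mul_pow, hns]
    rw [norm_add_sq_real] at h3
    generalize inner ℝ α (B y) = β at h3 ⊢
    have h4 : 2 * θ ≤ (s - 1) * ‖α‖ ^ 2 := by
      have h5 : 2 * θ / ‖α‖ ^ 2 ≤ s - 1 := by linarith
      rwa [div_le_iff₀ ha2] at h5
    have hs10 : 0 ≤ s - 1 := by linarith
    have hs00 : 0 ≤ s := by linarith
    have h6 : 2 * β - (‖y‖ ^ 2 - ‖B y‖ ^ 2) ≤ -(‖α‖ ^ 2 / 2) := by linarith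
    have h7 := mul_le_mul_of_nonneg_left h6 hs10
    have h8 := mul_nonneg (mul_nonneg hs10 hs00) hτ
    nlinarith [h7, h8, h4, h3]
  have hdisj : ∀ i j : ℕ, i < j → Disjoint (s0 ^ i • Y) (s0 ^ j • Y) := by
    intro i j hij
    rw [Set.disjoint_left]
    rintro x ⟨y, hy, hyx⟩ ⟨y', hy', hyx'⟩
    have h1 : s0 ^ i • y = s0 ^ j • y' := hyx.trans hyx'.symm
    have h2 : s0 ^ j = s0 ^ i * s0 ^ (j - i) := by
      rw [← pow_add]
      congr 1
      omega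
    rw [h2, mul_smul] at h1
    have h3 : y = s0 ^ (j - i) • y' := smul_right_injective N (pow_pos hsp i).ne' h1
    have h4 : s0 ≤ s0 ^ (j - i) := by
      calc s0 = s0 ^ 1 := (pow_one _).symm
        _ ≤ s0 ^ (j - i) := pow_le_pow_right₀ hs1 (by omega)
    have h5 := key y' hy' _ h4
    rw [← h3] at h5
    rw [hY] at hy
    exact absurd hy.2.1 (not_lt.2 h5)
  have hYm : MeasurableSet Y := by
    rw [hY]
    have hc : Continuous fun y : N => ‖α + B y‖ ^ 2 - ‖y‖ ^ 2 := by fun_prop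
    refine MeasurableSet.inter ?_ (MeasurableSet.inter ?_ ?_)
    · exact (isClosed_le continuous_norm continuous_const).measurableSet
    · exact (isOpen_lt continuous_const hc).measurableSet
    · exact (isClosed_le hc continuous_const).measurableSet
  obtain ⟨J, hJ⟩ : ∃ J : ℕ, J = ⌊‖α‖ ^ 2 / (2 * θ)⌋₊ := ⟨_, rfl⟩
  have hJle : (J : ℝ) ≤ ‖α‖ ^ 2 / (2 * θ) := by
    rw [hJ]
    exact Nat.floor_le (by positivity)
  have hJlt : ‖α‖ ^ 2 / (2 * θ) < (J : ℝ) + 1 := by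
    rw [hJ]
    exact Nat.lt_floor_add_one _
  have hpow : ∀ j ≤ J, s0 ^ j ≤ 3 := by
    intro j hj
    have h1 : s0 ≤ Real.exp (2 * θ / ‖α‖ ^ 2) := by
      rw [hs0, add_comm]
      exact Real.add_one_le_exp _
    have h2 : (j : ℝ) * (2 * θ / ‖α‖ ^ 2) ≤ 1 := by
      have h3 : (j : ℝ) ≤ ‖α‖ ^ 2 / (2 * θ) := le_trans (by exact_mod_cast hj) hJle
      calc (j : ℝ) * (2 * θ / ‖α‖ ^ 2) ≤ ‖α‖ ^ 2 / (2 * θ) * (2 * θ / ‖α‖ ^ 2) :=
            mul_le_mul_of_nonneg_right h3 hx0.le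
        _ = 1 := by field_simp
    calc s0 ^ j ≤ Real.exp (2 * θ / ‖α‖ ^ 2) ^ j := pow_le_pow_left₀ hsp.le h1 j
      _ = Real.exp ((j : ℝ) * (2 * θ / ‖α‖ ^ 2)) := (Real.exp_nat_mul _ _).symm
      _ ≤ Real.exp 1 := Real.exp_le_exp.2 h2
      _ ≤ 3 := by
        have := Real.exp_one_lt_d9
        linarith
  have hsub : (⋃ j ∈ Finset.range (J + 1), s0 ^ j • Y) ⊆ Metric.closedBall (0 : N) (3 * C * ‖α‖) := by
    intro x hx
    simp only [Set.mem_iUnion, Finset.mem_range] at hx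
    obtain ⟨j, hj, y, hy, rfl⟩ := hx
    rw [mem_closedBall_zero_iff]
    show ‖s0 ^ j • y‖ ≤ 3 * C * ‖α‖
    rw [norm_smul, Real.norm_eq_abs, abs_of_pos (pow_pos hsp j)]
    rw [hY] at hy
    calc s0 ^ j * ‖y‖ ≤ 3 * (C * ‖α‖) :=
          mul_le_mul (hpow j (by omega)) hy.1 (norm_nonneg _) (by norm_num)
      _ = 3 * C * ‖α‖ := by ring
  have hsum : volume (⋃ j ∈ Finset.range (J + 1), s0 ^ j • Y) =
      ∑ j ∈ Finset.range (J + 1), volume (s0 ^ j • Y) := by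
    refine measure_biUnion_finset ?_ fun j _ => hYm.const_smul_of_ne_zero (pow_pos hsp j).ne'
    intro i _ j _ hij
    rcases lt_or_gt_of_ne hij with h | h
    · exact hdisj i j h
    · exact (hdisj j i h).symm
  have hvol : ∀ j : ℕ, volume Y ≤ volume (s0 ^ j • Y) := by
    intro j
    rw [Measure.addHaar_smul]
    have h1 : (1 : ENNReal) ≤ ENNReal.ofReal |(s0 ^ j) ^ finrank ℝ N| := by
      rw [abs_of_pos (pow_pos (pow_pos hsp j) _), ← ENNReal.ofReal_one]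
      exact ENNReal.ofReal_le_ofReal (one_le_pow₀ (one_le_pow₀ hs1))
    calc volume Y = 1 * volume Y := (one_mul _).symm
      _ ≤ _ := mul_le_mul_left h1 _
  have hmain : ((J : ENNReal) + 1) * volume Y ≤ ENNReal.ofReal ((3 * C * ‖α‖) ^ q * v) := by
    calc ((J : ENNReal) + 1) * volume Y = ∑ _j ∈ Finset.range (J + 1), volume Y := by
          rw [Finset.sum_const, Finset.card_range, nsmul_eq_mul]
          push_cast
          ring
      _ ≤ ∑ j ∈ Finset.range (J + 1), volume (s0 ^ j • Y) := Finset.sum_le_sum fun j _ => hvol j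
      _ = volume (⋃ j ∈ Finset.range (J + 1), s0 ^ j • Y) := hsum.symm
      _ ≤ volume (Metric.closedBall (0 : N) (3 * C * ‖α‖)) := measure_mono hsub
      _ = ENNReal.ofReal ((3 * C * ‖α‖) ^ q * v) := by
          rw [Measure.addHaar_closedBall volume (0 : N) (by positivity), hvE, ← hq,
            ← ENNReal.ofReal_mul (by positivity)]
  have hJ1 : ENNReal.ofReal (‖α‖ ^ 2 / (2 * θ)) ≤ (J : ENNReal) + 1 := by
    calc ENNReal.ofReal (‖α‖ ^ 2 / (2 * θ)) ≤ ENNReal.ofReal ((J : ℝ) + 1) :=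
          ENNReal.ofReal_le_ofReal hJlt.le
      _ = (J : ENNReal) + 1 := by
          rw [ENNReal.ofReal_add (Nat.cast_nonneg J) zero_le_one, ENNReal.ofReal_natCast,
            ENNReal.ofReal_one]
  have hfin : ENNReal.ofReal (‖α‖ ^ 2 / (2 * θ)) * volume Y ≤
      ENNReal.ofReal ((3 * C * ‖α‖) ^ q * v) := (mul_le_mul_left hJ1 _).trans hmain
  have e1 : volume Y = ENNReal.ofReal (2 * θ / ‖α‖ ^ 2) *
      (ENNReal.ofReal (‖α‖ ^ 2 / (2 * θ)) * volume Y) := by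
    rw [← mul_assoc, ← ENNReal.ofReal_mul hx0.le]
    have : 2 * θ / ‖α‖ ^ 2 * (‖α‖ ^ 2 / (2 * θ)) = 1 := by field_simp
    rw [this, ENNReal.ofReal_one, one_mul]
  rw [e1]
  refine (mul_le_mul_right hfin _).trans (le_of_eq ?_)
  rw [← ENNReal.ofReal_mul hx0.le]
  congr 1
  have h2 : ‖α‖ ^ q = ‖α‖ ^ 2 * ‖α‖ ^ (q - 2) := by
    rw [← pow_add]
    congr 1
    omega
  rw [mul_pow (3 * C) ‖α‖ q, h2]
  field_simp

end Pool.Agent.Helper60.CQ
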