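import Pool.Agent.Helper60.CQ.Size
import Pool.Agent.Helper60.CQ.QV

/-!
Project CQ (MP_b66f9f_gt), block CQ-VV: upper bound for the volume of the set `V`. Uses `QV`.

`γ` in the orthogonal group; for `z = (u, y)` put `α(z) = u - Bᵀ y` with `Bᵀ = At γ⁻¹`, `|At γ⁻¹ y| <= |y|`
(lemma `At_le`). `q = finrank N >= 2`. Statement:
`vol {z : 0 < bf z z <= θ, |z| <= C |α(z)|, |aa γ (α(z))| <= 2, 2 θ <= |α(z)|^2}`
`<= c θ exp(-(q-2) mu γ - ld γ)`.

Proof. The linear map `(u, y) ↦ (u - At γ⁻¹ y, y)` preserves the volume (a shear; e.g.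
`MeasureTheory.measurePreserving_prod...`, or `Measure.prod_apply_symm`: for fixed `y` a translation
in `u`). So the volume is that of the set of `(α, y)` with `u = α + At γ⁻¹ y`. Integrate over `y` for fixed
`α`: the section is contained in `{y : |y| <= C |α|, 0 < |α + At γ⁻¹ y|^2 - |y|^2 <= θ}` (`bf_self`;
`|y| <= |z| <= C |α|`), by `QV` its volume is at most `c θ |α|^(q-2)` and it is empty unless
`|aa γ α| <= 2`. For those `α`: `exp(mu γ) |α| <= |aa γ α| <= 2` (`mu_lower`), so
`|α|^(q-2) <= 2^(q-2) exp(-(q-2) mu γ)`. Finally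
`vol {α : |aa γ α| <= 2} = vol (ball 2) / |det (aa γ)| = vol (ball 2) exp(- ld γ)`
(`Measure.addHaar_preimage_continuousLinearMap`, `exp_ld`, `det_aa_ne`).
-/

set_option autoImplicit false
set_option linter.unusedSectionVars false

open Set Filter Topology Module MeasureTheory

namespace Pool.Agent.Helper60.CQ

private theorem shear81 {P N : Type*} [NormedAddCommGroup P] [InnerProductSpace ℝ P]
    [FiniteDimensional ℝ P] [NormedAddCommGroup N] [InnerProductSpace ℝ N] [FiniteDimensional ℝ N]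
    [MeasurableSpace P] [BorelSpace P] [MeasurableSpace N] [BorelSpace N] (B : N →L[ℝ] P) {S : Set (P × N)}
    (hS : MeasurableSet S) : volume S = volume {w : P × N | (w.1 + B w.2, w.2) ∈ S} := by
  have hm : Measurable fun w : P × N => (w.1 + B w.2, w.2) := by
    have : Continuous fun w : P × N => (w.1 + B w.2, w.2) := by fun_prop
    exact this.measurable
  have hS' : MeasurableSet {w : P × N | (w.1 + B w.2, w.2) ∈ S} := hm hS
  rw [Measure.volume_eq_prod, Measure.prod_apply_symm hS, Measure.prod_apply_symm hS']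
  refine lintegral_congr fun y => ?_
  have h1 : (fun x : P => (x, y)) ⁻¹' {w : P × N | (w.1 + B w.2, w.2) ∈ S} =
      (fun x : P => x + B y) ⁻¹' ((fun x : P => (x, y)) ⁻¹' S) := rfl
  rw [h1, measure_preimage_add_right]

theorem VV (P N : Type*) [NormedAddCommGroup P] [InnerProductSpace ℝ P]
    [FiniteDimensional ℝ P] [NormedAddCommGroup N] [InnerProductSpace ℝ N] [FiniteDimensional ℝ N]
    [MeasurableSpace P] [BorelSpace P] [MeasurableSpace N] [BorelSpace N] [Nontrivial P]
    (hN : 2 ≤ finrank ℝ N) (C : ℝ) (hC : 0 < C) :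
    ∃ c : ℝ, 0 < c ∧ ∀ (γ : IsoG P N) (θ : ℝ), 0 < θ →
      volume {z : P × N | 0 < bf z z ∧ bf z z ≤ θ ∧ ‖z‖ ≤ C * ‖z.1 - At γ⁻¹ z.2‖ ∧
        ‖aa γ (z.1 - At γ⁻¹ z.2)‖ ≤ 2 ∧ 2 * θ ≤ ‖z.1 - At γ⁻¹ z.2‖ ^ 2} ≤
      ENNReal.ofReal (c * θ * Real.exp (-((finrank ℝ N - 2 : ℕ) * mu γ) - ld γ)) := by
  obtain ⟨c, hc, hQ⟩ := QV P N hN C hC
  set v : ℝ := (volume (Metric.closedBall (0 : P) 2)).toReal with hv
  have hv0 : 0 ≤ v := ENNReal.toReal_nonneg
  set q : ℕ := finrank ℝ N - 2 with hq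
  refine ⟨c * 2 ^ q * (v + 1), by positivity, fun γ θ hθ => ?_⟩
  set B : N →L[ℝ] P := At γ⁻¹ with hB
  have hB1 : ‖B‖ ≤ 1 := ContinuousLinearMap.opNorm_le_bound _ zero_le_one fun w => by
    rw [one_mul]
    exact At_le γ⁻¹ w
  set S : Set (P × N) := {z : P × N | 0 < bf z z ∧ bf z z ≤ θ ∧ ‖z‖ ≤ C * ‖z.1 - B z.2‖ ∧
        ‖aa γ (z.1 - B z.2)‖ ≤ 2 ∧ 2 * θ ≤ ‖z.1 - B z.2‖ ^ 2} with hSd
  have hbf : Continuous fun z : P × N => bf z z := by
    simp only [bf_self]
    fun_prop
  have hα : Continuous fun z : P × N => z.1 - B z.2 := by fun_prop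
  have hS : MeasurableSet S :=
    (measurableSet_lt measurable_const hbf.measurable).inter
      ((measurableSet_le hbf.measurable measurable_const).inter
        ((measurableSet_le continuous_norm.measurable (hα.norm.const_mul C).measurable).inter
          ((measurableSet_le ((aa γ).continuous.comp hα).norm.measurable measurable_const).inter
            (measurableSet_le measurable_const (hα.norm.pow 2).measurable))))
  have hm : Measurable fun w : P × N => (w.1 + B w.2, w.2) := by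
    have : Continuous fun w : P × N => (w.1 + B w.2, w.2) := by fun_prop
    exact this.measurable
  rw [shear81 B hS]
  set S' : Set (P × N) := {w : P × N | (w.1 + B w.2, w.2) ∈ S} with hS'd
  have hS' : MeasurableSet S' := hm hS
  rw [Measure.volume_eq_prod, Measure.prod_apply hS']
  set D : Set P := (aa γ) ⁻¹' (Metric.closedBall (0 : P) 2) with hD
  have hDm : MeasurableSet D := (aa γ).continuous.measurable Metric.isClosed_closedBall.measurableSet
  set K : ENNReal := ENNReal.ofReal (c * θ * (2 * Real.exp (-mu γ)) ^ q) with hK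
  have hle : ∀ α : P, volume (Prod.mk α ⁻¹' S') ≤ D.indicator (fun _ => K) α := by
    intro α
    by_cases h1 : α ∈ D ∧ 2 * θ ≤ ‖α‖ ^ 2
    · rw [indicator_of_mem h1.1]
      have h2 : ‖α‖ ≤ 2 * Real.exp (-mu γ) := by
        have h3 := mu_lower γ α
        have h4 : ‖aa γ α‖ ≤ 2 := by
          have := h1.1
          rw [hD, mem_preimage, Metric.mem_closedBall, dist_zero_right] at this
          exact this
        rw [Real.exp_neg]
        have h5 : 0 < Real.exp (mu γ) := Real.exp_pos _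
        rw [← div_eq_mul_inv, le_div_iff₀ h5, mul_comm]
        exact h3.trans h4
      have h3 : Prod.mk α ⁻¹' S' ⊆ {y : N | ‖y‖ ≤ C * ‖α‖ ∧ 0 < ‖α + B y‖ ^ 2 - ‖y‖ ^ 2 ∧
          ‖α + B y‖ ^ 2 - ‖y‖ ^ 2 ≤ θ} := by
        rintro y ⟨g1, g2, g3, -, -⟩
        rw [bf_self] at g1 g2
        simp only [add_sub_cancel_right] at g3
        exact ⟨(le_max_right _ _).trans g3, g1, g2⟩
      refine (measure_mono h3).trans ((hQ B hB1 α θ hθ h1.2).trans ?_)
      refine ENNReal.ofReal_le_ofReal ?_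
      refine mul_le_mul_of_nonneg_left (pow_le_pow_left₀ (norm_nonneg _) h2 _) (by positivity)
    · have h2 : Prod.mk α ⁻¹' S' = ∅ := by
        rw [eq_empty_iff_forall_notMem]
        rintro y ⟨-, -, -, g4, g5⟩
        simp only [add_sub_cancel_right] at g4 g5
        exact h1 ⟨by rw [hD, mem_preimage, Metric.mem_closedBall, dist_zero_right]; exact g4, g5⟩
      rw [h2, measure_empty]
      exact bot_le
  refine (lintegral_mono hle).trans ?_
  rw [lintegral_indicator_const hDm, hD, Measure.addHaar_preimage_continuousLinearMap volume (det_aa_ne γ)]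
  have hfin : volume (Metric.closedBall (0 : P) 2) = ENNReal.ofReal v := by
    rw [hv, ENNReal.ofReal_toReal (measure_closedBall_lt_top).ne]
  have hdet : |(LinearMap.det (aa γ : P →ₗ[ℝ] P))⁻¹| = Real.exp (-ld γ) := by
    rw [abs_inv, Real.exp_neg, exp_ld]
  rw [hfin, hdet, hK, ← ENNReal.ofReal_mul (Real.exp_pos _).le, ← ENNReal.ofReal_mul (by positivity)]
  refine ENNReal.ofReal_le_ofReal ?_
  have e1 : Real.exp (-(↑q * mu γ) - ld γ) = Real.exp (-mu γ) ^ q * Real.exp (-ld γ) := by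
    rw [← Real.exp_nat_mul, ← Real.exp_add]
    congr 1
    ring
  rw [e1, mul_pow]
  have h1 : 0 < Real.exp (-mu γ) ^ q := by positivity
  have h2 : 0 < Real.exp (-ld γ) := Real.exp_pos _
  have h3 : c * θ * (2 ^ q * Real.exp (-mu γ) ^ q) * (Real.exp (-ld γ) * v) =
      (c * 2 ^ q * θ * (Real.exp (-mu γ) ^ q * Real.exp (-ld γ))) * v := by ring
  have h4 : c * 2 ^ q * (v + 1) * θ * (Real.exp (-mu γ) ^ q * Real.exp (-ld γ)) =
      (c * 2 ^ q * θ * (Real.exp (-mu γ) ^ q * Real.exp (-ld γ))) * (v + 1) := by ring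
  rw [h3, h4]
  exact mul_le_mul_of_nonneg_left (by linarith) (by positivity)

end Pool.Agent.Helper60.CQ
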