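import Pool.Agent.Helper60.CQ.Size

/-!
Project CQ (MP_b66f9f_gt), block CQ-VY: lower bound for the volume of the set `Y`.

`γ` in the orthogonal group, `finrank P < finrank N`. Statement:
`vol {w : -4 <= bf w w <= -1, |w| <= 3, |γ⁻¹ w| <= 3} >= c exp(- ld γ)`.

Proof. Let `A = AA γ : P → N`, `Aᵀ = At γ`; as `finrank P < finrank N` there is a unit vector `n : N` with
`Aᵀ n = 0` (the kernel of `At γ : N → P` is nontrivial). For `β : P` with `|at' γ β| <= 1/10` and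
`y : N` with `|y - (27/20) n| <= 1/10` put `w = (β + Aᵀ y, y)`. Then
(1) `|β| <= 1/10` (`at' γ = aa γ⁻¹` by `aa_inv`, and `norm_le_aa`), `|Aᵀ y| = |Aᵀ (y - (27/20) n)| <= 1/10`
(`At_le`), so `|w.1| <= 1/5`, `5/4 <= |y| <= 29/20`, hence `-4 <= bf w w = |w.1|^2 - |y|^2 <= -1` and
`|w| <= 3`;
(2) the first component of `γ⁻¹ w` is `at' γ (w.1 - Aᵀ y) = at' γ β` (`inv_fst`), of norm `<= 1/10`; by
`self_pres` `|(γ⁻¹ w).2|^2 = |(γ⁻¹ w).1|^2 - bf w w <= 1/100 + 4 <= 9`. So `|γ⁻¹ w| <= 3`.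
So the set contains the image of `{β : |at' γ β| <= 1/10} × ball((27/20) n, 1/10)` under the shear
`(β, y) ↦ (β + Aᵀ y, y)`, which preserves the volume (product measure; for fixed `y` a translation).
`vol {β : |at' γ β| <= 1/10} = vol (ball_P 1/10) / |det (at' γ)| = vol(ball_P 1/10) exp(- ld γ)`
(`det_at'`, `exp_ld`, `Measure.addHaar_preimage_continuousLinearMap`), and
`vol ball_N((27/20) n, 1/10)` does not depend on `n`.
-/

set_option autoImplicit false
set_option linter.unusedSectionVars false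

open Set Filter Topology Module MeasureTheory

namespace Pool.Agent.Helper60.CQ

section
variable {P N : Type*} [NormedAddCommGroup P] [InnerProductSpace ℝ P] [FiniteDimensional ℝ P]
  [NormedAddCommGroup N] [InnerProductSpace ℝ N] [FiniteDimensional ℝ N]

private lemma exists_unit82 (hN : finrank ℝ P < finrank ℝ N) (γ : IsoG P N) :
    ∃ u : N, ‖u‖ = 1 ∧ At γ u = 0 := by
  have h := LinearMap.ker_ne_bot_of_finrank_lt (f := (At γ : N →ₗ[ℝ] P)) hN
  obtain ⟨v, hv, hv0⟩ := Submodule.exists_mem_ne_zero_of_ne_bot h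
  have hv1 : At γ v = 0 := hv
  refine ⟨‖v‖⁻¹ • v, ?_, ?_⟩
  · rw [norm_smul, norm_inv, norm_norm, inv_mul_cancel₀ (norm_ne_zero_iff.mpr hv0)]
  · rw [map_smul, hv1, smul_zero]

private lemma incl82 (γ : IsoG P N) (u : N) (hu : ‖u‖ = 1) (hAu : At γ u = 0) (w : P × N)
    (h1 : ‖at' γ (w.1 - At γ w.2)‖ ≤ 1 / 10) (h2 : ‖w.2 - (27 / 20 : ℝ) • u‖ ≤ 1 / 10) :
    -4 ≤ bf w w ∧ bf w w ≤ -1 ∧ ‖w‖ ≤ 3 ∧ ‖γ⁻¹ • w‖ ≤ 3 := by
  have hn : ‖(27 / 20 : ℝ) • u‖ = 27 / 20 := by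
    rw [norm_smul, hu, mul_one, Real.norm_of_nonneg (by norm_num)]
  have hy1 : ‖w.2‖ ≤ 29 / 20 := by
    have := norm_le_norm_add_norm_sub' w.2 ((27 / 20 : ℝ) • u)
    rw [hn] at this
    linarith
  have hy2 : 5 / 4 ≤ ‖w.2‖ := by
    have := norm_le_norm_add_norm_sub' ((27 / 20 : ℝ) • u) w.2
    rw [hn, norm_sub_rev] at this
    linarith
  have hAt : ‖At γ w.2‖ ≤ 1 / 10 := by
    have h3 : At γ w.2 = At γ (w.2 - (27 / 20 : ℝ) • u) := by
      rw [map_sub, map_smul, hAu, smul_zero, sub_zero]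
    rw [h3]
    exact (At_le γ _).trans h2
  have hb : ‖w.1 - At γ w.2‖ ≤ 1 / 10 := by
    have h3 := norm_le_aa γ⁻¹ (w.1 - At γ w.2)
    rw [aa_inv] at h3
    exact h3.trans h1
  have hx : ‖w.1‖ ≤ 1 / 5 := by
    have := norm_le_norm_add_norm_sub' w.1 (At γ w.2)
    linarith
  have hx0 := norm_nonneg w.1
  have hy0 := norm_nonneg w.2
  have hbf := bf_self w
  have hlow : -4 ≤ bf w w := by
    rw [hbf]
    nlinarith
  have hup : bf w w ≤ -1 := by
    rw [hbf]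
    nlinarith
  refine ⟨hlow, hup, ?_, ?_⟩
  · rw [Prod.norm_def]
    exact max_le (by linarith) (by linarith)
  · have e1 : ‖(γ⁻¹ • w).1‖ ≤ 1 / 10 := by
      rw [inv_fst]
      exact h1
    have e2 := self_pres γ⁻¹ w
    rw [← hbf] at e2
    have e3 : ‖(γ⁻¹ • w).2‖ ^ 2 ≤ 3 ^ 2 := by
      nlinarith [norm_nonneg (γ⁻¹ • w).1]
    have e4 : ‖(γ⁻¹ • w).2‖ ≤ 3 := abs_le_of_sq_le_sq' e3 (by norm_num) |>.2
    rw [Prod.norm_def]
    exact max_le (by linarith) e4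

variable [MeasurableSpace P] [BorelSpace P]

private lemma fiber82 (γ : IsoG P N) (a : P) :
    volume {x : P | ‖at' γ (x - a)‖ ≤ 1 / 10} =
      ENNReal.ofReal (Real.exp (-ld γ)) * volume (Metric.closedBall (0 : P) (1 / 10)) := by
  have hset : {x : P | ‖at' γ (x - a)‖ ≤ 1 / 10} =
      (fun x => x + -a) ⁻¹' (at' γ ⁻¹' Metric.closedBall (0 : P) (1 / 10)) := by
    ext x
    simp [sub_eq_add_neg]
  rw [hset, measure_preimage_add_right]
  have hdet : LinearMap.det (at' γ : P →ₗ[ℝ] P) = (aa γ).det := det_at' γ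
  have hne : LinearMap.det (at' γ : P →ₗ[ℝ] P) ≠ 0 := by
    rw [hdet]
    exact det_aa_ne γ
  rw [Measure.addHaar_preimage_continuousLinearMap volume hne, hdet, abs_inv, ← exp_ld,
    Real.exp_neg]

end

theorem VY (P N : Type*) [NormedAddCommGroup P] [InnerProductSpace ℝ P]
    [FiniteDimensional ℝ P] [NormedAddCommGroup N] [InnerProductSpace ℝ N] [FiniteDimensional ℝ N]
    [MeasurableSpace P] [BorelSpace P] [MeasurableSpace N] [BorelSpace N]
    (hN : finrank ℝ P < finrank ℝ N) :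
    ∃ c : ℝ, 0 < c ∧ ∀ γ : IsoG P N, ENNReal.ofReal (c * Real.exp (-ld γ)) ≤
      volume {w : P × N | -4 ≤ bf w w ∧ bf w w ≤ -1 ∧ ‖w‖ ≤ 3 ∧ ‖γ⁻¹ • w‖ ≤ 3} := by
  set bP := volume (Metric.closedBall (0 : P) (1 / 10)) with hbP
  set bN := volume (Metric.closedBall (0 : N) (1 / 10)) with hbN
  have hP1 : bP ≠ ⊤ := measure_closedBall_lt_top.ne
  have hN1 : bN ≠ ⊤ := measure_closedBall_lt_top.ne
  have hP0 : 0 < bP := Metric.measure_closedBall_pos _ _ (by norm_num)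
  have hN0 : 0 < bN := Metric.measure_closedBall_pos _ _ (by norm_num)
  refine ⟨(bP * bN).toReal, ENNReal.toReal_pos (mul_ne_zero hP0.ne' hN0.ne')
    (ENNReal.mul_ne_top hP1 hN1), fun γ => ?_⟩
  obtain ⟨u, hu, hAu⟩ := exists_unit82 hN γ
  set T : Set (P × N) := {w | ‖at' γ (w.1 - At γ w.2)‖ ≤ 1 / 10 ∧ ‖w.2 - (27 / 20 : ℝ) • u‖ ≤ 1 / 10}
    with hT
  have hTc : IsClosed T := by
    have c1 : IsClosed {w : P × N | ‖at' γ (w.1 - At γ w.2)‖ ≤ 1 / 10} :=
      isClosed_le (by fun_prop) continuous_const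
    have c2 : IsClosed {w : P × N | ‖w.2 - (27 / 20 : ℝ) • u‖ ≤ 1 / 10} :=
      isClosed_le (by fun_prop) continuous_const
    exact c1.inter c2
  have hsub : T ⊆ {w : P × N | -4 ≤ bf w w ∧ bf w w ≤ -1 ∧ ‖w‖ ≤ 3 ∧ ‖γ⁻¹ • w‖ ≤ 3} :=
    fun w hw => incl82 γ u hu hAu w hw.1 hw.2
  refine le_trans ?_ (measure_mono hsub)
  have hvol : volume T = ∫⁻ y : N, volume ((fun x : P => (x, y)) ⁻¹' T) :=
    Measure.prod_apply_symm hTc.measurableSet
  rw [hvol]
  have hball : volume (Metric.closedBall ((27 / 20 : ℝ) • u) (1 / 10)) = bN :=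
    Measure.addHaar_closedBall_center volume _ _
  calc ENNReal.ofReal ((bP * bN).toReal * Real.exp (-ld γ))
      = ∫⁻ _y in Metric.closedBall ((27 / 20 : ℝ) • u) (1 / 10),
          (ENNReal.ofReal (Real.exp (-ld γ)) * bP) ∂(volume : Measure N) := by
        rw [setLIntegral_const, hball, ENNReal.ofReal_mul ENNReal.toReal_nonneg,
          ENNReal.ofReal_toReal (ENNReal.mul_ne_top hP1 hN1)]
        ring
    _ = ∫⁻ y in Metric.closedBall ((27 / 20 : ℝ) • u) (1 / 10),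
          volume ((fun x : P => (x, y)) ⁻¹' T) ∂(volume : Measure N) := by
        refine setLIntegral_congr_fun Metric.isClosed_closedBall.measurableSet fun y hy => ?_
        have hset : (fun x : P => (x, y)) ⁻¹' T = {x : P | ‖at' γ (x - At γ y)‖ ≤ 1 / 10} := by
          ext x
          have hy' : ‖y - (27 / 20 : ℝ) • u‖ ≤ 1 / 10 := by
            rwa [Metric.mem_closedBall, dist_eq_norm] at hy
          exact ⟨fun h => h.1, fun h => ⟨h, hy'⟩⟩
        simp only [hset]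
        exact (fiber82 γ _).symm
    _ ≤ ∫⁻ y : N, volume ((fun x : P => (x, y)) ⁻¹' T) := setLIntegral_le_lintegral _ _

end Pool.Agent.Helper60.CQ
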