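import Pool.Agent.Helper60.CQ.Walk
import Pool.Agent.Helper60.CQ.MP
import Pool.Agent.Helper60.CQ.VV
import Pool.Agent.Helper60.CQ.VQ
import Pool.Agent.Helper60.CQ.VY

/-!
Project CQ (MP_b66f9f_gt), file Fin: the two sums over the group and the contradiction.
-/

set_option autoImplicit false
set_option linter.unusedSectionVars false

open Set Filter Topology Module MeasureTheory
open scoped ENNReal

namespace Pool.Agent.Helper60.CQ

variable {P N : Type*} [NormedAddCommGroup P] [InnerProductSpace ℝ P] [FiniteDimensional ℝ P]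
  [NormedAddCommGroup N] [InnerProductSpace ℝ N] [FiniteDimensional ℝ N] [Nontrivial P]
  {Γ : Subgroup (IsoG P N)}

/-- the set of bounded negative vectors seen from `g` and from the base point -/
def YY (g : IsoG P N) : Set (P × N) :=
  {w : P × N | -4 ≤ bf w w ∧ bf w w ≤ -1 ∧ ‖w‖ ≤ 3 ∧ ‖g⁻¹ • w‖ ≤ 3}

lemma bf_cont : Continuous fun w : P × N => bf w w := by
  have : (fun w : P × N => bf w w) = fun w => ‖w.1‖ ^ 2 - ‖w.2‖ ^ 2 := by
    funext w
    exact bf_self w
  rw [this]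
  fun_prop

lemma smul_cont (g : IsoG P N) : Continuous fun w : P × N => g • w := (cl g).continuous

lemma YY_closed (g : IsoG P N) : IsClosed (YY g) := by
  unfold YY
  refine (isClosed_le continuous_const bf_cont).inter ((isClosed_le bf_cont continuous_const).inter
    ((isClosed_le continuous_norm continuous_const).inter
      (isClosed_le (smul_cont g⁻¹).norm continuous_const)))

theorem CC.sumB [MeasurableSpace P] [BorelSpace P] [MeasurableSpace N] [BorelSpace N]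
    (h : CC Γ) (hodd : Odd (finrank ℝ P)) (hN : finrank ℝ N = finrank ℝ P + 1) (κ : ℝ) :
    ∃ C6 K0 : ℝ, ∀ K, K0 ≤ K → ∀ F : Finset (IsoG P N),
      (∀ g ∈ F, g ∈ Γ ∧ K ≤ mu g ∧ mu g ≤ K + κ) → ∑ g ∈ F, Real.exp (-ld g) ≤ C6 := by
  classical
  obtain ⟨η, D0, K0, hη, hwalk⟩ := h.walk hodd hN κ
  obtain ⟨c, hc, hVY⟩ := VY P N (by omega)
  -- finite cover of the contractions
  have hcpt : IsCompact (Metric.closedBall (0 : P →L[ℝ] N) 1) := isCompact_closedBall _ _
  obtain ⟨t, -, htfin, htcov⟩ := hcpt.finite_cover_balls (half_pos hη)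
  set T : Finset (P →L[ℝ] N) := htfin.toFinset with hT
  set N0 : Finset (IsoG P N) := (h.fin D0).toFinset with hN0
  set Mlt : ℕ := T.card * N0.card with hMlt
  -- multiplicity
  have hmult : ∀ K, K0 ≤ K → ∀ F : Finset (IsoG P N),
      (∀ g ∈ F, g ∈ Γ ∧ K ≤ mu g ∧ mu g ≤ K + κ) → ∀ w : P × N,
      (F.filter fun g => w ∈ YY g).card ≤ Mlt := by
    intro K hK F hF w
    have hcov : (F.filter fun g => w ∈ YY g) ⊆ T.biUnion fun A =>
        (F.filter fun g => w ∈ YY g).filter fun g => AA g ∈ Metric.ball A (η / 2) := by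
      intro g hg
      have h1 : AA g ∈ Metric.closedBall (0 : P →L[ℝ] N) 1 := by
        rw [mem_closedBall_zero_iff]
        exact norm_AA_le g
      obtain ⟨A, hA⟩ := mem_iUnion.mp (htcov h1)
      obtain ⟨hAt, hA2⟩ := mem_iUnion.mp hA
      refine Finset.mem_biUnion.mpr ⟨A, htfin.mem_toFinset.mpr hAt, ?_⟩
      exact Finset.mem_filter.mpr ⟨hg, hA2⟩
    refine (Finset.card_le_card hcov).trans ?_
    refine (Finset.card_biUnion_le_card_mul _ _ N0.card fun A _ => ?_)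
    rcases ((F.filter fun g => w ∈ YY g).filter fun g =>
      AA g ∈ Metric.ball A (η / 2)).eq_empty_or_nonempty with he | ⟨g0, hg0⟩
    · rw [he]
      simp
    · refine Finset.card_le_card_of_injOn (fun g => g0⁻¹ * g) ?_ ?_
      · intro g hg
        have hg' := Finset.mem_filter.mp hg
        have hg'' := Finset.mem_filter.mp hg'.1
        have hg0' := Finset.mem_filter.mp hg0
        have hg0'' := Finset.mem_filter.mp hg0'.1
        obtain ⟨e1, e2, e3⟩ := hF g hg''.1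
        obtain ⟨f1, f2, f3⟩ := hF g0 hg0''.1
        refine (h.fin D0).mem_toFinset.mpr ⟨Γ.mul_mem (Γ.inv_mem f1) e1, ?_⟩
        have hd : ‖AA g0 - AA g‖ ≤ η := by
          rw [← dist_eq_norm]
          have h1 := Metric.mem_ball.mp hg'.2
          have h2 := Metric.mem_ball.mp hg0'.2
          have h3 := dist_triangle_right (AA g0) (AA g) A
          linarith
        obtain ⟨y1, y2, y3, y4⟩ := hg''.2
        obtain ⟨-, -, -, y5⟩ := hg0''.2
        exact hwalk K hK g0 f1 g e1 f2 f3 e2 e3 hd w y1 y2 y3 y5 y4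
      · intro g _ g' _ hgg
        exact mul_left_cancel hgg
  -- the volume
  have hball : volume (Metric.closedBall (0 : P × N) 3) < ∞ :=
    (isCompact_closedBall _ _).measure_lt_top
  set Vb : ℝ := (volume (Metric.closedBall (0 : P × N) 3)).toReal with hVb
  refine ⟨Mlt * Vb / c, K0, fun K hK F hF => ?_⟩
  have h1 : ∑ g ∈ F, ENNReal.ofReal (c * Real.exp (-ld g)) ≤ ∑ g ∈ F, volume (YY g) :=
    Finset.sum_le_sum fun g _ => hVY g
  have h2 : ∑ g ∈ F, volume (YY g) ≤ Mlt * volume (Metric.closedBall (0 : P × N) 3) := by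
    have e1 : ∀ g : IsoG P N, volume (YY g) = ∫⁻ w, (YY g).indicator 1 w := fun g => by
      rw [lintegral_indicator_one (YY_closed g).measurableSet]
    simp only [e1]
    rw [← lintegral_finsetSum _ fun g _ =>
      (measurable_one.indicator (YY_closed g).measurableSet)]
    calc ∫⁻ w, ∑ g ∈ F, (YY g).indicator 1 w
        ≤ ∫⁻ w, (Metric.closedBall (0 : P × N) 3).indicator (fun _ => (Mlt : ℝ≥0∞)) w := by
          refine lintegral_mono fun w => ?_
          by_cases hw : w ∈ Metric.closedBall (0 : P × N) 3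
          · rw [indicator_of_mem hw]
            have e2 : ∑ g ∈ F, (YY g).indicator (1 : P × N → ℝ≥0∞) w =
                ((F.filter fun g => w ∈ YY g).card : ℝ≥0∞) := by
              rw [Finset.card_filter]
              push_cast
              refine Finset.sum_congr rfl fun g _ => ?_
              rw [indicator_apply]
              rfl
            rw [e2]
            exact Nat.cast_le.mpr (hmult K hK F hF w)
          · rw [indicator_of_notMem hw]
            refine le_of_eq (Finset.sum_eq_zero fun g _ => ?_)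
            rw [indicator_of_notMem]
            rintro ⟨-, -, y3, -⟩
            exact hw (mem_closedBall_zero_iff.mpr y3)
      _ = Mlt * volume (Metric.closedBall (0 : P × N) 3) := by
          rw [lintegral_indicator_const Metric.isClosed_closedBall.measurableSet]
  have h3 := h1.trans h2
  rw [← ENNReal.ofReal_sum_of_nonneg (fun g _ => by positivity), ← Finset.mul_sum] at h3
  have h4 : (Mlt : ℝ≥0∞) * volume (Metric.closedBall (0 : P × N) 3) = ENNReal.ofReal (Mlt * Vb) := by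
    rw [ENNReal.ofReal_mul (Nat.cast_nonneg _), ENNReal.ofReal_natCast, hVb,
      ENNReal.ofReal_toReal hball.ne]
  rw [h4, ENNReal.ofReal_le_ofReal_iff (by positivity)] at h3
  rw [le_div_iff₀ hc]
  linarith

/-- the transversal region seen from `γ` -/
def VVs (γ : IsoG P N) (θ C : ℝ) : Set (P × N) :=
  {z : P × N | 0 < bf z z ∧ bf z z ≤ θ ∧ ‖z‖ ≤ C * ‖z.1 - At γ⁻¹ z.2‖ ∧
    ‖aa γ (z.1 - At γ⁻¹ z.2)‖ ≤ 2 ∧ 2 * θ ≤ ‖z.1 - At γ⁻¹ z.2‖ ^ 2}

lemma aa_alpha (γ : IsoG P N) (z : P × N) : aa γ (z.1 - At γ⁻¹ z.2) = (γ • z).1 := by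
  have := inv_fst γ⁻¹ z
  rw [inv_inv, ← aa_inv'] at this
  exact this.symm

theorem CC.sumA [MeasurableSpace P] [BorelSpace P] [MeasurableSpace N] [BorelSpace N]
    (h : CC Γ) (hN : 2 ≤ finrank ℝ N) : ∃ c1 κ : ℝ, 0 < c1 ∧ 0 ≤ κ ∧ ∀ K, 0 ≤ K →
      ∀ F : Finset (IsoG P N), (∀ g ∈ Γ, K ≤ mu g → mu g ≤ K + κ → g ∈ F) →
      c1 ≤ ∑ g ∈ F, Real.exp (-((finrank ℝ N - 2 : ℕ) * mu g) - ld g) := by
  classical
  have : Nontrivial N := by
    apply nontrivial_of_finrank_pos (R := ℝ)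
    omega
  obtain ⟨C, c, hC, hc, hch⟩ := h.chain
  obtain ⟨U, hU, hUT⟩ := UT P N hC hc
  obtain ⟨Cs, hCs, hsh⟩ := h.sharp
  obtain ⟨CF, hCF, hcov⟩ := h.cov
  obtain ⟨ε, hε, hAL⟩ := AL P N U CF hCF
  obtain ⟨cV, hcV, hVV⟩ := VV P N hN (1 / ε) (by positivity)
  obtain ⟨cQ, hcQ, hVQ⟩ := VQ P N
  have hCs0 : 0 < Cs := by linarith
  refine ⟨cQ / cV, C, by positivity, hC, fun K hK F hF => ?_⟩
  -- choice of the thickness
  set G : ℝ := Real.exp (Cs * (K + 1)) * (CF + 1) with hG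
  have hG0 : 0 < G := by positivity
  set θ : ℝ := min (min 1 (1 / (2 * G) ^ 2)) (ε ^ 2 * Real.exp (-(2 * (Cs * (K + C + 1)))) / 2) with hθ
  have hθ0 : 0 < θ := by positivity
  have hθ1 : θ ≤ 1 := (min_le_left _ _).trans (min_le_left _ _)
  have hθ2 : θ ≤ 1 / (2 * G) ^ 2 := (min_le_left _ _).trans (min_le_right _ _)
  have hθ3 : 2 * θ ≤ ε ^ 2 * Real.exp (-(2 * (Cs * (K + C + 1)))) := by
    have : θ ≤ ε ^ 2 * Real.exp (-(2 * (Cs * (K + C + 1)))) / 2 := min_le_right _ _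
    linarith
  set Q : Set (P × N) := {z : P × N | 0 < ‖z.1‖ ^ 2 - ‖z.2‖ ^ 2 ∧ ‖z.1‖ ^ 2 - ‖z.2‖ ^ 2 ≤ θ ∧
        1 ≤ ‖z‖ ∧ ‖z‖ ≤ 2} with hQ
  have hcover : Q ⊆ ⋃ g ∈ F, (fun z : P × N => g⁻¹ • z) ⁻¹' (VVs g θ (1 / ε)) := by
    intro ζ hζ
    obtain ⟨q1, q2, q3, q4⟩ := hζ
    rw [← bf_self] at q1 q2
    set s := Real.sqrt (bf ζ ζ) with hs
    have hs0 : 0 < s := Real.sqrt_pos.mpr q1
    have hs2 : s ^ 2 = bf ζ ζ := Real.sq_sqrt q1.le
    set z : P × N := s⁻¹ • ζ with hz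
    have hzz : bf z z = 1 := by
      rw [hz, bf_smul_left, bf_smul_right, ← hs2]
      field_simp
    have hζz : ζ = s • z := by
      rw [hz, smul_smul, mul_inv_cancel₀ hs0.ne', one_smul]
    have hsθ : s ≤ 1 / (2 * G) := by
      have h1 : s ^ 2 ≤ (1 / (2 * G)) ^ 2 := by
        rw [hs2, one_div_pow]
        exact q2.trans hθ2
      exact abs_le_of_sq_le_sq' h1 (by positivity) |>.2
    have hznorm : 2 * G ≤ ‖z‖ := by
      rw [hz, norm_smul, norm_inv, Real.norm_of_nonneg hs0.le]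
      have h1 : 2 * G ≤ s⁻¹ := by
        rw [le_inv_comm₀ (by positivity) hs0]
        rw [one_div] at hsθ
        exact hsθ
      calc 2 * G ≤ s⁻¹ * 1 := by rw [mul_one]; exact h1
        _ ≤ s⁻¹ * ‖ζ‖ := by gcongr
    obtain ⟨p, hp, hpz⟩ := hcov z hzz
    have hmup : K ≤ mu p := by
      by_contra hlt
      push Not at hlt
      have h1 := hsh p hp
      have h2 : nu p ≤ Cs * (K + 1) := h1.trans (by gcongr)
      have h3 : ‖z‖ ≤ Real.exp (nu p) * ‖p⁻¹ • z‖ := by
        have := norm_smul_le p (p⁻¹ • z)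
        rwa [smul_inv_smul] at this
      have h4 : ‖z‖ ≤ G := by
        refine h3.trans ?_
        rw [hG]
        have : Real.exp (nu p) ≤ Real.exp (Cs * (K + 1)) := Real.exp_le_exp.mpr h2
        gcongr
        linarith
      linarith
    obtain ⟨n, R, hR0, hRn, hRm, hReg⟩ := hch 1 Γ.one_mem p hp
    have hex : ∃ k, K ≤ mu (R k) := ⟨n, by rw [hRn]; exact hmup⟩
    set k := Nat.find hex with hk
    have hkn : k ≤ n := Nat.find_min' hex (by rw [hRn]; exact hmup)
    have hkK : K ≤ mu (R k) := Nat.find_spec hex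
    have hkK2 : mu (R k) ≤ K + C := by
      rcases Nat.eq_zero_or_pos k with h0 | h0
      · rw [h0, hR0, mu_one]
        linarith
      · have h1 := Nat.find_min hex (m := k - 1) (by omega)
        push Not at h1
        have h2 := hReg.1 (k - 1) (by omega)
        have h3 := mu_mul_le' (R (k - 1)) ((R (k - 1))⁻¹ * R (k - 1 + 1))
        rw [mul_inv_cancel_left, show k - 1 + 1 = k by omega] at h3
        rw [show k - 1 + 1 = k by omega] at h2
        linarith
    have hRk := hRm k hkn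
    set γ := R k with hγ
    have hut := hUT n R hReg 0 k n (Nat.zero_le _) hkn le_rfl
    rw [hR0, hRn, mul_one] at hut
    have hal := hAL γ⁻¹ (γ⁻¹ * p) hut (γ⁻¹ • z) (by rw [bf_pres, hzz]) (by
      rw [mul_inv_rev, inv_inv, mul_smul, smul_inv_smul]
      exact hpz)
    -- back to ζ
    have hal2 : ε * ‖γ⁻¹ • ζ‖ ≤ ‖(γ⁻¹ • ζ).1 - At γ⁻¹ (γ⁻¹ • ζ).2‖ := by
      have e1 : γ⁻¹ • ζ = s • (γ⁻¹ • z) := by
        rw [hζz, smul_comm]
      rw [e1, norm_smul s (γ⁻¹ • z), Prod.smul_fst, Prod.smul_snd, map_smul, ← smul_sub,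
        norm_smul s _, Real.norm_of_nonneg hs0.le]
      calc ε * (s * ‖γ⁻¹ • z‖) = s * (ε * ‖γ⁻¹ • z‖) := by ring
        _ ≤ _ := by gcongr
    refine mem_iUnion₂.mpr ⟨γ, hF γ hRk hkK hkK2, ?_⟩
    show γ⁻¹ • ζ ∈ VVs γ θ (1 / ε)
    refine ⟨?_, ?_, ?_, ?_, ?_⟩
    · rw [bf_pres]
      exact q1
    · rw [bf_pres]
      exact q2
    · rw [div_mul_eq_mul_div, one_mul, le_div_iff₀ hε]
      linarith
    · rw [aa_alpha, smul_inv_smul]
      exact (norm_fst_le _).trans q4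
    · have h1 : 1 ≤ Real.exp (nu γ) * ‖γ⁻¹ • ζ‖ := by
        have := norm_smul_le γ (γ⁻¹ • ζ)
        rw [smul_inv_smul] at this
        linarith
      have h2 : nu γ ≤ Cs * (K + C + 1) := (hsh γ hRk).trans (by gcongr)
      have h3 : Real.exp (-(Cs * (K + C + 1))) ≤ ‖γ⁻¹ • ζ‖ := by
        rw [Real.exp_neg, inv_eq_one_div, div_le_iff₀ (Real.exp_pos _)]
        have : Real.exp (nu γ) ≤ Real.exp (Cs * (K + C + 1)) := Real.exp_le_exp.mpr h2
        nlinarith [norm_nonneg (γ⁻¹ • ζ)]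
      have h4 : ε * Real.exp (-(Cs * (K + C + 1))) ≤ ‖(γ⁻¹ • ζ).1 - At γ⁻¹ (γ⁻¹ • ζ).2‖ :=
        le_trans (by gcongr) hal2
      calc 2 * θ ≤ ε ^ 2 * Real.exp (-(2 * (Cs * (K + C + 1)))) := hθ3
        _ = (ε * Real.exp (-(Cs * (K + C + 1)))) ^ 2 := by
            rw [mul_pow, ← Real.exp_nat_mul]
            congr 2
            push_cast
            ring
        _ ≤ _ := by gcongr
  have h1 : ENNReal.ofReal (cQ * θ) ≤ ∑ g ∈ F,
      ENNReal.ofReal (cV * θ * Real.exp (-((finrank ℝ N - 2 : ℕ) * mu g) - ld g)) := by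
    calc ENNReal.ofReal (cQ * θ) ≤ volume Q := hVQ θ hθ0 hθ1
      _ ≤ volume (⋃ g ∈ F, (fun z : P × N => g⁻¹ • z) ⁻¹' (VVs g θ (1 / ε))) := measure_mono hcover
      _ ≤ ∑ g ∈ F, volume ((fun z : P × N => g⁻¹ • z) ⁻¹' (VVs g θ (1 / ε))) :=
          measure_biUnion_finset_le _ _
      _ ≤ _ := by
          refine Finset.sum_le_sum fun g _ => ?_
          rw [volume_smul]
          exact hVV g θ hθ0
  rw [← ENNReal.ofReal_sum_of_nonneg (fun g _ => by positivity), ← Finset.mul_sum,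
    ENNReal.ofReal_le_ofReal_iff (by positivity)] at h1
  rw [div_le_iff₀ hcV]
  have h2 : cQ * θ ≤ (cV * ∑ g ∈ F, Real.exp (-((finrank ℝ N - 2 : ℕ) * mu g) - ld g)) * θ := by
    linarith
  have h3 := le_of_mul_le_mul_right h2 hθ0
  linarith

/-- the main theorem: no cocompact group -/
theorem main_abstract [MeasurableSpace P] [BorelSpace P] [MeasurableSpace N] [BorelSpace N]
    (h : CC Γ) (hodd : Odd (finrank ℝ P)) (h3 : 3 ≤ finrank ℝ P)
    (hN : finrank ℝ N = finrank ℝ P + 1) : False := by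
  classical
  obtain ⟨c1, κ, hc1, hκ, hA⟩ := h.sumA (by omega)
  obtain ⟨C6, K0, hB⟩ := h.sumB hodd hN κ
  set r : ℕ := finrank ℝ N - 2 with hr
  have hr1 : 1 ≤ r := by omega
  have hlim : Tendsto (fun K : ℝ => Real.exp (-(r * K)) * C6) atTop (𝓝 (0 * C6)) := by
    refine Tendsto.mul_const _ ?_
    refine Real.tendsto_exp_neg_atTop_nhds_zero.comp (tendsto_id.const_mul_atTop ?_)
    exact_mod_cast hr1
  rw [zero_mul] at hlim
  obtain ⟨K, hK1, hK2, hK3⟩ := ((hlim.eventually (gt_mem_nhds hc1)).and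
    ((eventually_ge_atTop K0).and (eventually_ge_atTop 0))).exists
  have hfin : {g : IsoG P N | g ∈ Γ ∧ K ≤ mu g ∧ mu g ≤ K + κ}.Finite :=
    (h.fin (K + κ)).subset fun g hg => ⟨hg.1, hg.2.2⟩
  set F := hfin.toFinset with hF
  have h1 := hA K hK3 F (fun g hg h1 h2 => hfin.mem_toFinset.mpr ⟨hg, h1, h2⟩)
  have h2 := hB K hK2 F (fun g hg => hfin.mem_toFinset.mp hg)
  have h4 : ∑ g ∈ F, Real.exp (-(r * mu g) - ld g) ≤ ∑ g ∈ F, Real.exp (-(r * K)) * Real.exp (-ld g) := by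
    refine Finset.sum_le_sum fun g hg => ?_
    obtain ⟨-, e2, -⟩ := hfin.mem_toFinset.mp hg
    rw [← Real.exp_add, Real.exp_le_exp]
    have : (r : ℝ) * K ≤ r * mu g := by gcongr
    linarith
  rw [← Finset.mul_sum] at h4
  have h5 : Real.exp (-(r * K)) * ∑ g ∈ F, Real.exp (-ld g) ≤ Real.exp (-(r * K)) * C6 := by gcongr
  linarith

end Pool.Agent.Helper60.CQ
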