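import Pool.Agent.Helper60.CQ.Stmt
import Pool.Agent.Helper60.CQ.Fin

/-!
Project CQ (MP_b66f9f_gt), file Conc: from the literal definitions to the abstract setting.
-/

set_option autoImplicit false
set_option linter.unusedSectionVars false

open Set Filter Topology Module

namespace Pool.Agent.Helper60.CQ.SF

variable {p q : ℕ}

/-- the positive part -/
abbrev PP (p : ℕ) : Type := EuclideanSpace ℝ (Fin (p + 1))

/-- the negative part -/
abbrev NN (q : ℕ) : Type := EuclideanSpace ℝ (Fin q)

/-- splitting of the coordinates -/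
noncomputable def spl (p q : ℕ) : (Fin (p + 1 + q) → ℝ) ≃L[ℝ] (PP p × NN q) :=
  LinearEquiv.toContinuousLinearEquiv
    { toFun := fun x => (WithLp.toLp 2 fun i => x (Fin.castAdd q i),
        WithLp.toLp 2 fun j => x (Fin.natAdd (p + 1) j))
      map_add' := fun x y => rfl
      map_smul' := fun c x => rfl
      invFun := fun z => Fin.addCases (fun i => z.1 i) (fun j => z.2 j)
      left_inv := fun x => by
        funext i
        refine Fin.addCases (fun i => ?_) (fun j => ?_) i
        · simp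
        · simp
      right_inv := fun z => by
        refine Prod.ext ?_ ?_
        · ext i
          simp
        · ext j
          simp }

lemma spl_fst (x : Fin (p + 1 + q) → ℝ) (i : Fin (p + 1)) : (spl p q x).1 i = x (Fin.castAdd q i) :=
  rfl

lemma spl_snd (x : Fin (p + 1 + q) → ℝ) (j : Fin q) : (spl p q x).2 j = x (Fin.natAdd (p + 1) j) :=
  rfl

lemma form_eq (x y : Fin (p + 1 + q) → ℝ) : form p q x y = bf (spl p q x) (spl p q y) := by
  unfold form bf
  rw [Fin.sum_univ_add, PiLp.inner_apply, PiLp.inner_apply, sub_eq_add_neg, ← Finset.sum_neg_distrib]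
  congr 1
  · refine Finset.sum_congr rfl fun i _ => ?_
    rw [spl_fst, spl_fst, if_pos (by rw [Fin.val_castAdd]; omega)]
    simp [mul_comm]
  · refine Finset.sum_congr rfl fun j _ => ?_
    rw [spl_snd, spl_snd, if_neg (by rw [Fin.val_natAdd]; omega)]
    simp [mul_comm]

lemma act_mul (g h : G p q) (x : Fin (p + 1 + q) → ℝ) :
    act p q (g * h) x = act p q g (act p q h x) := by
  unfold act
  rw [Matrix.mulVec_mulVec]
  rfl

lemma act_one (x : Fin (p + 1 + q) → ℝ) : act p q 1 x = x := by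
  unfold act
  exact Matrix.one_mulVec x

lemma act_inv (g : G p q) (x : Fin (p + 1 + q) → ℝ) : act p q g⁻¹ (act p q g x) = x := by
  rw [← act_mul, inv_mul_cancel, act_one]

lemma act_cont (g : G p q) : Continuous (act p q g) := by
  unfold act
  fun_prop

lemma act_ext {g h : G p q} (H : ∀ x, act p q g x = act p q h x) : g = h := by
  apply Units.ext
  apply Matrix.ext_of_mulVec_single
  intro i
  exact H _

/-- compactness of the quotient gives a bounded set meeting all orbits -/
lemma exists_bound {Γ : Subgroup (G p q)} (hO : Isometric p q Γ) (hc : Cocompact p q Γ) :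
    ∃ C : ℝ, 0 ≤ C ∧ ∀ x : Fin (p + 1 + q) → ℝ, x ∈ X p q → ∃ g ∈ Γ, ‖spl p q (act p q g x)‖ ≤ C := by
  have hpres : ∀ g ∈ Γ, ∀ x ∈ X p q, act p q g x ∈ X p q := by
    intro g hg x hx
    show form p q (act p q g x) (act p q g x) = 1
    rw [hO g hg x x]
    exact hx
  have hequiv : Equivalence (orbitRel p q Γ) :=
    { refl := fun x => ⟨1, Γ.one_mem, act_one _⟩
      symm := fun {x y} h => by
        obtain ⟨g, hg, hxy⟩ := h
        exact ⟨g⁻¹, Γ.inv_mem hg, by rw [← hxy, act_inv]⟩
      trans := fun {x y z} h h' => by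
        obtain ⟨g, hg, hxy⟩ := h
        obtain ⟨g', hg', hyz⟩ := h'
        exact ⟨g' * g, Γ.mul_mem hg' hg, by rw [act_mul, hxy, hyz]⟩ }
  set π : X p q → Quot (orbitRel p q Γ) := Quot.mk (orbitRel p q Γ) with hπ
  have hπeq : ∀ x y, π x = π y → orbitRel p q Γ x y := fun x y h => by
    have := Quot.eqvGen_exact h
    rwa [hequiv.eqvGen_iff] at this
  set V : ℕ → Set (X p q) := fun n => {x | ‖spl p q (x : Fin (p + 1 + q) → ℝ)‖ < n} with hV
  have hopen : ∀ n, IsOpen (π '' V n) := by
    intro n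
    rw [← isQuotientMap_quot_mk.isOpen_preimage]
    have e : (Quot.mk (orbitRel p q Γ) ⁻¹' (π '' V n) : Set (X p q)) =
        ⋃ g : Γ, {x : X p q | ‖spl p q (act p q g.1 (x : Fin (p + 1 + q) → ℝ))‖ < n} := by
      ext x
      rw [mem_preimage, mem_image, mem_iUnion]
      constructor
      · rintro ⟨y, hy, hyx⟩
        obtain ⟨g, hg, hgy⟩ := hπeq y x hyx
        refine ⟨⟨g⁻¹, Γ.inv_mem hg⟩, ?_⟩
        show ‖spl p q (act p q g⁻¹ (x : Fin (p + 1 + q) → ℝ))‖ < n
        rw [← hgy, act_inv]
        exact hy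
      · rintro ⟨⟨g, hg⟩, hgx⟩
        refine ⟨⟨act p q g x, hpres g hg x x.2⟩, hgx, ?_⟩
        refine Quot.sound ?_
        exact ⟨g⁻¹, Γ.inv_mem hg, act_inv _ _⟩
    rw [e]
    refine isOpen_iUnion fun g => ?_
    refine isOpen_lt ?_ continuous_const
    exact (((spl p q).continuous.comp (act_cont g.1)).comp continuous_subtype_val).norm
  have hcov : (univ : Set (Quot (orbitRel p q Γ))) ⊆ ⋃ n, π '' V n := by
    intro y _
    obtain ⟨x, rfl⟩ := Quot.exists_rep y
    obtain ⟨n, hn⟩ := exists_nat_gt ‖spl p q (x : Fin (p + 1 + q) → ℝ)‖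
    exact mem_iUnion.mpr ⟨n, x, hn, rfl⟩
  have hmono : Directed (· ⊆ ·) fun n => π '' V n := by
    refine Monotone.directed_le fun m n hmn => ?_
    refine image_mono fun x hx => ?_
    have hx' : ‖spl p q (x : Fin (p + 1 + q) → ℝ)‖ < (m : ℝ) := hx
    have hmn' : (m : ℝ) ≤ n := by exact_mod_cast hmn
    exact lt_of_lt_of_le hx' hmn'
  have huniv : IsCompact (univ : Set (Quot (orbitRel p q Γ))) := by
    have : CompactSpace (Quot (orbitRel p q Γ)) := hc
    exact isCompact_univ
  obtain ⟨n, hn⟩ := huniv.elim_directed_cover _ hopen hcov hmono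
  refine ⟨n, Nat.cast_nonneg _, fun x hx => ?_⟩
  obtain ⟨y, hy, hyx⟩ := hn (mem_univ (π ⟨x, hx⟩))
  obtain ⟨g, hg, hgy⟩ := hπeq _ _ hyx
  refine ⟨g⁻¹, Γ.inv_mem hg, ?_⟩
  rw [show x = act p q g y from hgy.symm, act_inv]
  exact le_of_lt hy

/-- the group transported to `PP p × NN q` -/
def tr (Γ : Subgroup (G p q)) : Subgroup (IsoG (PP p) (NN q)) where
  carrier := {h | ∃ g ∈ Γ, ∀ x, h • spl p q x = spl p q (act p q g x)}
  mul_mem' := by
    rintro a b ⟨g, hg, hga⟩ ⟨g', hg', hgb⟩
    refine ⟨g * g', Γ.mul_mem hg hg', fun x => ?_⟩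
    rw [mul_smul, hgb, hga, act_mul]
  one_mem' := ⟨1, Γ.one_mem, fun x => by rw [one_smul, act_one]⟩
  inv_mem' := by
    rintro a ⟨g, hg, hga⟩
    refine ⟨g⁻¹, Γ.inv_mem hg, fun x => ?_⟩
    rw [inv_smul_eq_iff, hga, ← act_mul, mul_inv_cancel, act_one]

/-- a matrix as a linear equivalence -/
def actE (g : G p q) : (Fin (p + 1 + q) → ℝ) ≃ₗ[ℝ] (Fin (p + 1 + q) → ℝ) where
  toFun := act p q g
  map_add' := fun x y => Matrix.mulVec_add _ _ _
  map_smul' := fun c x => Matrix.mulVec_smul _ _ _
  invFun := act p q g⁻¹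
  left_inv := act_inv g
  right_inv := fun x => by rw [← act_mul, mul_inv_cancel, act_one]

/-- an isometric matrix as an element of the abstract orthogonal group -/
noncomputable def lift (g : G p q) (hg : ∀ x y, form p q (act p q g x) (act p q g y) = form p q x y) :
    IsoG (PP p) (NN q) :=
  ⟨((spl p q).symm.toLinearEquiv.trans (actE g)).trans
      (spl p q).toLinearEquiv, by
    intro x y
    have h1 := hg ((spl p q).symm x) ((spl p q).symm y)
    rw [form_eq, form_eq, ContinuousLinearEquiv.apply_symm_apply,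
      ContinuousLinearEquiv.apply_symm_apply] at h1
    exact h1⟩

lemma lift_smul (g : G p q) (hg : ∀ x y, form p q (act p q g x) (act p q g y) = form p q x y)
    (x : Fin (p + 1 + q) → ℝ) : lift g hg • spl p q x = spl p q (act p q g x) := by
  show spl p q (act p q g ((spl p q).symm (spl p q x))) = _
  rw [ContinuousLinearEquiv.symm_apply_apply]

theorem toCC {Γ : Subgroup (G p q)} (hO : Isometric p q Γ) (hpd : ProperlyDiscontinuous p q Γ)
    (hc : Cocompact p q Γ) : CC (tr Γ) where
  fin := by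
    intro s
    classical
    set K : Set (Fin (p + 1 + q) → ℝ) :=
      X p q ∩ spl p q ⁻¹' Metric.closedBall 0 (max 1 (Real.exp s)) with hK
    have hXc : IsClosed (X p q) := by
      have : X p q = {x : Fin (p + 1 + q) → ℝ | bf (spl p q x) (spl p q x) = 1} := by
        ext x
        show form p q x x = 1 ↔ bf _ _ = 1
        rw [form_eq]
      rw [this]
      exact isClosed_eq (bf_cont.comp (spl p q).continuous) continuous_const
    have hKc : IsCompact K := by
      refine IsCompact.inter_left ?_ hXc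
      exact (spl p q).toHomeomorph.isCompact_preimage.mpr (isCompact_closedBall _ _)
    have h1 := hpd K inter_subset_left hKc
    have hex : ∀ h : IsoG (PP p) (NN q), ∃ g : G p q, h ∈ tr Γ → g ∈ Γ ∧
        ∀ x, h • spl p q x = spl p q (act p q g x) := by
      intro h
      by_cases hh : h ∈ tr Γ
      · obtain ⟨g, hg, hgx⟩ := hh
        exact ⟨g, fun _ => ⟨hg, hgx⟩⟩
      · exact ⟨1, fun h' => absurd h' hh⟩
    choose f hf using hex
    refine Set.Finite.of_injOn (f := f) ?_ ?_ h1
    · rintro h ⟨hh, hs⟩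
      obtain ⟨hg, hgx⟩ := hf h hh
      obtain ⟨u, hu, hau⟩ := exists_opt0 h
      set x := (spl p q).symm ((u, 0) : PP p × NN q) with hx
      have hxu : spl p q x = (u, 0) := ContinuousLinearEquiv.apply_symm_apply _ _
      refine ⟨hg, act p q (f h) x, ⟨x, ⟨?_, ?_⟩, rfl⟩, ⟨?_, ?_⟩⟩
      · show form p q _ _ = 1
        rw [form_eq, hxu, bf_self]
        simp [hu]
      · rw [mem_preimage, hxu, mem_closedBall_zero_iff, Prod.norm_def]
        simp [hu]
      · show form p q _ _ = 1
        rw [form_eq, ← hgx, bf_pres, hxu, bf_self]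
        simp [hu]
      · rw [mem_preimage, ← hgx, hxu, mem_closedBall_zero_iff, norm_smul_inl, hau]
        exact (Real.exp_le_exp.mpr hs).trans (le_max_right _ _)
    · rintro h ⟨hh, -⟩ h' ⟨hh', -⟩ hff
      obtain ⟨-, hgx⟩ := hf h hh
      obtain ⟨-, hgx'⟩ := hf h' hh'
      apply Subtype.ext
      apply LinearEquiv.ext
      intro z
      obtain ⟨x, rfl⟩ := (spl p q).surjective z
      show h • spl p q x = h' • spl p q x
      rw [hgx, hgx', hff]
  cov := by
    obtain ⟨C, hC, h⟩ := exists_bound hO hc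
    refine ⟨C, hC, fun z hz => ?_⟩
    obtain ⟨x, rfl⟩ := (spl p q).surjective z
    obtain ⟨g, hg, hgx⟩ := h x (by
      show form p q x x = 1
      rw [form_eq]
      exact hz)
    have hl : lift g (hO g hg) ∈ tr Γ := ⟨g, hg, lift_smul g (hO g hg)⟩
    refine ⟨(lift g (hO g hg))⁻¹, Subgroup.inv_mem _ hl, ?_⟩
    rw [inv_inv, lift_smul]
    exact hgx

theorem main {k : ℕ} (hk : 1 ≤ k) (Γ : Subgroup (G (2 * k) (2 * k + 2)))
    (hO : Isometric (2 * k) (2 * k + 2) Γ) (hpd : ProperlyDiscontinuous (2 * k) (2 * k + 2) Γ) :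
    ¬ Cocompact (2 * k) (2 * k + 2) Γ := by
  intro hc
  refine main_abstract (toCC hO hpd hc) ?_ ?_ ?_
  · rw [finrank_euclideanSpace, Fintype.card_fin]
    exact ⟨k, rfl⟩
  · rw [finrank_euclideanSpace, Fintype.card_fin]
    omega
  · rw [finrank_euclideanSpace, Fintype.card_fin, finrank_euclideanSpace, Fintype.card_fin]

end Pool.Agent.Helper60.CQ.SF
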