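import Pool.Agent.Helper60.CQ.Size

/-!
Project CQ (MP_b66f9f_gt), file Core: definitions used by the blocks.
-/

set_option autoImplicit false
set_option linter.unusedSectionVars false

open Set Filter Topology Module

namespace Pool.Agent.Helper60.CQ

variable {P N : Type*} [NormedAddCommGroup P] [InnerProductSpace ℝ P] [FiniteDimensional ℝ P]
  [NormedAddCommGroup N] [InnerProductSpace ℝ N] [FiniteDimensional ℝ N]

/-- regular chains: steps of bounded size, all singular values grow linearly -/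
def Reg (C c : ℝ) (n : ℕ) (R : ℕ → IsoG P N) : Prop :=
  (∀ k, k < n → nu ((R k)⁻¹ * R (k + 1)) ≤ C) ∧
    ∀ j k, j ≤ k → k ≤ n → c * ((k : ℝ) - j) - C ≤ mu ((R j)⁻¹ * R k)

/-- discreteness and cocompactness, in the form used -/
structure CC (Γ : Subgroup (IsoG P N)) : Prop where
  fin : ∀ s : ℝ, {g : IsoG P N | g ∈ Γ ∧ mu g ≤ s}.Finite
  cov : ∃ C : ℝ, 0 ≤ C ∧ ∀ x : P × N, bf x x = 1 → ∃ g ∈ Γ, ‖g⁻¹ • x‖ ≤ C

/-- a chain in the group -/
def Joined (Γ : Subgroup (IsoG P N)) (C c : ℝ) (g h : IsoG P N) : Prop :=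
  ∃ (n : ℕ) (R : ℕ → IsoG P N), R 0 = g ∧ R n = h ∧ (∀ k, k ≤ n → R k ∈ Γ) ∧ Reg C c n R

end Pool.Agent.Helper60.CQ
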