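import Mathlib

/-!
Project CQ (MP_b66f9f_gt), file Det: determinants of endomorphisms of a Euclidean space:
Hadamard bound, lower bound for the smallest singular value, Lipschitz bound.
-/

set_option autoImplicit false
set_option linter.unusedSectionVars false

open Set Filter Topology Module

namespace Pool.Agent.Helper60.CQ

variable {P : Type*} [NormedAddCommGroup P] [InnerProductSpace ℝ P] [FiniteDimensional ℝ P]

/-- Hadamard -/
lemma abs_det_le_prod {n : ℕ} (b : OrthonormalBasis (Fin n) ℝ P) (B : P →L[ℝ] P) :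
    |B.det| ≤ ∏ i, ‖B (b i)‖ := by
  have hf : Fact (finrank ℝ P = n) := ⟨by
    rw [finrank_eq_card_basis b.toBasis, Fintype.card_fin]⟩
  have h1 := (b.toBasis.orientation).abs_volumeForm_apply_le (fun i => B (b i))
  rw [Orientation.volumeForm_robust' _ b] at h1
  have h2 : b.toBasis.det (fun i => B (b i)) = B.det := by
    have h3 := Basis.det_comp b.toBasis (B : P →ₗ[ℝ] P) b.toBasis
    rw [Basis.det_self, mul_one] at h3
    rw [show B.det = LinearMap.det (B : P →ₗ[ℝ] P) from rfl, ← h3]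
    congr 1
  rw [h2] at h1
  exact h1

lemma abs_det_le (B : P →L[ℝ] P) : |B.det| ≤ ‖B‖ ^ finrank ℝ P := by
  set b := stdOrthonormalBasis ℝ P
  refine (abs_det_le_prod b B).trans ?_
  calc ∏ i, ‖B (b i)‖ ≤ ∏ _i : Fin (finrank ℝ P), ‖B‖ := by
        refine Finset.prod_le_prod (fun i _ => norm_nonneg _) fun i _ => ?_
        have := B.le_opNorm (b i)
        rwa [b.norm_eq_one, mul_one] at this
    _ = ‖B‖ ^ finrank ℝ P := by simp

lemma abs_det_mul_le (B : P →L[ℝ] P) (u : P) :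
    |B.det| * ‖u‖ ≤ ‖B‖ ^ (finrank ℝ P - 1) * ‖B u‖ := by
  by_cases hu : u = 0
  · rw [hu, norm_zero, mul_zero]
    positivity
  have hn : 0 < ‖u‖ := norm_pos_iff.mpr hu
  set v : P := ‖u‖⁻¹ • u with hv
  have hv1 : ‖v‖ = 1 := by
    rw [hv, norm_smul, norm_inv, norm_norm, inv_mul_cancel₀ hn.ne']
  have : Nontrivial P := ⟨u, 0, hu⟩
  obtain ⟨n, hn'⟩ : ∃ n, finrank ℝ P = n + 1 :=
    Nat.exists_eq_succ_of_ne_zero (finrank_pos (R := ℝ) (M := P)).ne'
  have hor : Orthonormal ℝ ((({0} : Set (Fin (n + 1)))).domRestrict (fun _ : Fin (n + 1) => v)) := by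
    rw [orthonormal_iff_ite]
    rintro ⟨i, hi⟩ ⟨j, hj⟩
    have e1 : i = j := by
      rw [mem_singleton_iff.mp hi, mem_singleton_iff.mp hj]
    subst e1
    rw [if_pos rfl]
    show inner ℝ v v = 1
    rw [real_inner_self_eq_norm_sq, hv1, one_pow]
  obtain ⟨b, hb⟩ := hor.exists_orthonormalBasis_extension_of_card_eq
    (ι := Fin (n + 1)) (by rw [hn', Fintype.card_fin])
  have hb0 : b 0 = v := hb 0 (mem_singleton _)
  have h1 := abs_det_le_prod b B
  rw [Fin.prod_univ_succ, hb0] at h1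
  have h2 : ∏ i : Fin n, ‖B (b i.succ)‖ ≤ ‖B‖ ^ n := by
    calc ∏ i : Fin n, ‖B (b i.succ)‖ ≤ ∏ _i : Fin n, ‖B‖ := by
          refine Finset.prod_le_prod (fun i _ => norm_nonneg _) fun i _ => ?_
          have := B.le_opNorm (b i.succ)
          rwa [b.norm_eq_one, mul_one] at this
      _ = ‖B‖ ^ n := by simp
  have h3 : ‖B v‖ = ‖u‖⁻¹ * ‖B u‖ := by
    rw [hv, map_smul, norm_smul, norm_inv, norm_norm]
  rw [h3] at h1
  rw [hn', Nat.add_sub_cancel]
  calc |B.det| * ‖u‖ ≤ (‖u‖⁻¹ * ‖B u‖ * ∏ i : Fin n, ‖B (b i.succ)‖) * ‖u‖ := by gcongr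
    _ ≤ (‖u‖⁻¹ * ‖B u‖ * ‖B‖ ^ n) * ‖u‖ := by gcongr
    _ = ‖B‖ ^ n * ‖B u‖ := by field_simp

/-- the determinant is Lipschitz on bounded sets -/
lemma abs_det_sub_le (X Y : P →L[ℝ] P) {K : ℝ} (hX : ‖X‖ ≤ K) (hY : ‖Y‖ ≤ K) :
    |X.det - Y.det| ≤ finrank ℝ P * K ^ (finrank ℝ P - 1) * ‖X - Y‖ := by
  set b := stdOrthonormalBasis ℝ P
  have hK : 0 ≤ K := (norm_nonneg X).trans hX
  have hdet : ∀ B : P →L[ℝ] P, b.toBasis.det (fun i => B (b i)) = B.det := by
    intro B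
    have h3 := Basis.det_comp b.toBasis (B : P →ₗ[ℝ] P) b.toBasis
    rw [Basis.det_self, mul_one] at h3
    rw [show B.det = LinearMap.det (B : P →ₗ[ℝ] P) from rfl, ← h3]
    congr 1
  have hb : ∀ v : Fin (finrank ℝ P) → P, ‖b.toBasis.det v‖ ≤ 1 * ∏ i, ‖v i‖ := by
    intro v
    have hf : Fact (finrank ℝ P = finrank ℝ P) := ⟨rfl⟩
    have h1 := (b.toBasis.orientation).abs_volumeForm_apply_le v
    rw [Orientation.volumeForm_robust' _ b] at h1
    rw [one_mul]
    exact h1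
  have h := MultilinearMap.norm_image_sub_le_of_bound
    (b.toBasis.det : MultilinearMap ℝ (fun _ : Fin (finrank ℝ P) => P) ℝ) zero_le_one hb
    (fun i => X (b i)) (fun i => Y (b i))
  have e1 : ‖(fun i => X (b i))‖ ≤ K := by
    rw [pi_norm_le_iff_of_nonneg hK]
    intro i
    have := X.le_opNorm (b i)
    rw [b.norm_eq_one, mul_one] at this
    exact this.trans hX
  have e2 : ‖(fun i => Y (b i))‖ ≤ K := by
    rw [pi_norm_le_iff_of_nonneg hK]
    intro i
    have := Y.le_opNorm (b i)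
    rw [b.norm_eq_one, mul_one] at this
    exact this.trans hY
  have e3 : ‖(fun i => X (b i)) - (fun i => Y (b i))‖ ≤ ‖X - Y‖ := by
    rw [pi_norm_le_iff_of_nonneg (norm_nonneg _)]
    intro i
    have := (X - Y).le_opNorm (b i)
    rw [b.norm_eq_one, mul_one] at this
    exact this
  have h2 : |X.det - Y.det| ≤ 1 * (Fintype.card (Fin (finrank ℝ P))) *
      max ‖(fun i => X (b i))‖ ‖(fun i => Y (b i))‖ ^ (Fintype.card (Fin (finrank ℝ P)) - 1) *
      ‖(fun i => X (b i)) - (fun i => Y (b i))‖ := by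
    rw [← hdet X, ← hdet Y]
    exact h
  rw [Fintype.card_fin, one_mul] at h2
  refine h2.trans ?_
  gcongr
  exact max_le e1 e2

end Pool.Agent.Helper60.CQ
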