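import Pool.Agent.Helper60.CQ.UT
import Pool.Agent.Helper60.CQ.Chain2

/-!
Project CQ (MP_b66f9f_gt), file Dich: two elements of the group with small transversality have
nearly equal contractions.
-/

set_option autoImplicit false
set_option linter.unusedSectionVars false

open Set Filter Topology Module

namespace Pool.Agent.Helper60.CQ

/-- telescoping to the right -/
lemma tele_right {E : Type*} [SeminormedAddCommGroup E] {x : ℕ → E} {A c : ℝ} (hc : 0 < c) {b n : ℕ}
    (h : ∀ k, b ≤ k → k < n → ‖x k - x (k + 1)‖ ≤ A * Real.exp (-(c * ((k : ℝ) - b))))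
    {k : ℕ} (hbk : b ≤ k) (hk : k ≤ n) :
    ‖x b - x k‖ ≤ A / (1 - Real.exp (-c)) * (1 - Real.exp (-(c * ((k : ℝ) - b)))) := by
  have h0 := one_sub_exp_pos hc
  induction k, hbk using Nat.le_induction with
  | base => simp
  | succ k hbk ih =>
    have h1 := ih (by omega)
    have h2 := h k hbk (by omega)
    have h3 : A / (1 - Real.exp (-c)) * (1 - Real.exp (-(c * (((k + 1 : ℕ) : ℝ) - b)))) =
        A / (1 - Real.exp (-c)) * (1 - Real.exp (-(c * ((k : ℝ) - b)))) +
          A * Real.exp (-(c * ((k : ℝ) - b))) := by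
      push_cast
      rw [show -(c * ((k : ℝ) + 1 - b)) = -c + -(c * ((k : ℝ) - b)) by ring, Real.exp_add]
      field_simp
      ring
    rw [h3]
    exact (norm_sub_le_norm_sub_add_norm_sub _ (x k) _).trans (add_le_add h1 h2)

/-- telescoping to the left -/
lemma tele_left {E : Type*} [SeminormedAddCommGroup E] {x : ℕ → E} {A c : ℝ} (hc : 0 < c) {b : ℕ}
    (h : ∀ k, k + 1 ≤ b → ‖x k - x (k + 1)‖ ≤ A * Real.exp (-(c * ((b : ℝ) - (k + 1)))))
    {s : ℕ} (hs : s ≤ b) :
    ‖x (b - s) - x b‖ ≤ A / (1 - Real.exp (-c)) * (1 - Real.exp (-(c * (s : ℝ)))) := by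
  have h0 := one_sub_exp_pos hc
  induction s with
  | zero => simp
  | succ s ih =>
    have h1 := ih (by omega)
    have h2 := h (b - (s + 1)) (by omega)
    rw [show b - (s + 1) + 1 = b - s by omega] at h2
    have e1 : (b : ℝ) - (((b - (s + 1) : ℕ) : ℝ) + 1) = s := by
      rw [Nat.cast_sub hs]
      push_cast
      ring
    rw [e1] at h2
    have h3 : A / (1 - Real.exp (-c)) * (1 - Real.exp (-(c * ((s + 1 : ℕ) : ℝ)))) =
        A / (1 - Real.exp (-c)) * (1 - Real.exp (-(c * (s : ℝ)))) +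
          A * Real.exp (-(c * (s : ℝ))) := by
      push_cast
      rw [show -(c * ((s : ℝ) + 1)) = -c + -(c * (s : ℝ)) by ring, Real.exp_add]
      field_simp
      ring
    rw [h3]
    refine (norm_sub_le_norm_sub_add_norm_sub _ (x (b - s)) _).trans ?_
    linarith

variable {P N : Type*} [NormedAddCommGroup P] [InnerProductSpace ℝ P] [FiniteDimensional ℝ P]
  [NormedAddCommGroup N] [InnerProductSpace ℝ N] [FiniteDimensional ℝ N] [Nontrivial P]
  {Γ : Subgroup (IsoG P N)}

theorem CC.dich (h : CC Γ) : ∃ K σ : ℝ, 0 ≤ K ∧ 0 < σ ∧ ∀ g ∈ Γ, ∀ g' ∈ Γ,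
    ‖AA g - AA g'‖ ≤ K * Real.exp (-(σ * dl g g')) := by
  obtain ⟨C, c, hC, hc, hch⟩ := h.chain
  obtain ⟨Cs, hCs, hsh⟩ := h.sharp
  obtain ⟨U, hU, hUT⟩ := UT P N hC hc
  have hCs0 : 0 < Cs := by linarith
  set m : ℝ := (finrank ℝ P : ℝ) with hm
  have hm1 : 0 < m := by
    rw [hm]
    exact_mod_cast finrank_pos (R := ℝ) (M := P)
  set c' : ℝ := c / (4 * Cs) with hc'
  have hc'0 : 0 < c' := by positivity
  have h0 := one_sub_exp_pos hc'0
  set σ : ℝ := 1 / (4 * m * Cs) with hσ
  have hσ0 : 0 < σ := by positivity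
  refine ⟨4 * Real.exp (2 * C + 1 + σ * U) / (1 - Real.exp (-c')), σ, by positivity, hσ0,
    fun g hg g' hg' => ?_⟩
  obtain ⟨n, R, hR0, hRn, hRm, hReg⟩ := hch g hg g' hg'
  -- the closest element
  obtain ⟨b, hb, hbmin⟩ := (Finset.range (n + 1)).exists_min_image (fun k => nu (R k)) ⟨0, by simp⟩
  have hbn : b ≤ n := by
    have := Finset.mem_range.mp hb
    omega
  set d := nu (R b) with hd
  have hd1 : dl g g' ≤ U + 2 * m * d := by
    have h1 := dl_base 1 (R b) g g'
    rw [inv_one, one_mul, one_mul, one_mul] at h1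
    have h2 := hUT n R hReg 0 b n (Nat.zero_le _) hbn le_rfl
    rw [hR0, hRn] at h2
    linarith
  have hlow : ∀ k, k ≤ n → d / (2 * Cs) + c' * |(k : ℝ) - b| - C - 1 ≤ mu (R k) := by
    intro k hk
    have h1 : d ≤ nu (R k) := hbmin k (Finset.mem_range.mpr (by omega))
    have h2 := nu_mul (R b)⁻¹ (R k)
    rw [nu_inv] at h2
    have h3 : c * |(k : ℝ) - b| - C ≤ mu ((R b)⁻¹ * R k) := by
      rcases le_total b k with hbk | hbk
      · have := hReg.2 b k hbk hk
        rwa [abs_of_nonneg (by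
          have : (b : ℝ) ≤ k := by exact_mod_cast hbk
          linarith)]
      · have := hReg.2 k b hbk hbn
        rw [← mu_inv, show ((R k)⁻¹ * R b)⁻¹ = (R b)⁻¹ * R k by group] at this
        rw [abs_of_nonpos (by
          have : (k : ℝ) ≤ b := by exact_mod_cast hbk
          linarith)]
        linarith
    have h4 := mu_le_nu ((R b)⁻¹ * R k)
    have h5 := hsh (R k) (hRm k hk)
    have h6 : d / 2 + (c * |(k : ℝ) - b| - C) / 4 ≤ Cs * (mu (R k) + 1) := by linarith
    have h7 : (d / 2 + (c * |(k : ℝ) - b| - C) / 4) / Cs ≤ mu (R k) + 1 := by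
      rw [div_le_iff₀ hCs0]
      linarith
    have h8 : (d / 2 + (c * |(k : ℝ) - b| - C) / 4) / Cs =
        d / (2 * Cs) + c' * |(k : ℝ) - b| - C / (4 * Cs) := by
      rw [hc']
      field_simp
      ring
    have h9 : C / (4 * Cs) ≤ C := by
      rw [div_le_iff₀ (by positivity)]
      nlinarith
    linarith
  set E0 := Real.exp (C + 1 - d / (2 * Cs)) with hE0
  have hexp : ∀ k, k ≤ n → Real.exp (-mu (R k)) ≤ E0 * Real.exp (-(c' * |(k : ℝ) - b|)) := by
    intro k hk
    rw [hE0, ← Real.exp_add, Real.exp_le_exp]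
    linarith [hlow k hk]
  have hE00 : 0 < E0 := Real.exp_pos _
  have hstep : ∀ k, k < n → ‖AA (R k) - AA (R (k + 1))‖ ≤ Real.exp (-mu (R k)) +
      Real.exp C * Real.exp (-mu (R (k + 1))) := by
    intro k hk
    refine (step_le _ _).trans ?_
    have := hReg.1 k hk
    gcongr
  have hexpC : 1 ≤ Real.exp C := Real.one_le_exp hC
  have hright := tele_right (x := fun k => AA (R k)) (A := 2 * Real.exp C * E0) hc'0 (b := b) (n := n)
    (by
      intro k hbk hk
      refine (hstep k hk).trans ?_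
      have h1 := hexp k hk.le
      have h2 := hexp (k + 1) hk
      have hbk' : (b : ℝ) ≤ k := by exact_mod_cast hbk
      rw [abs_of_nonneg (by linarith)] at h1
      rw [abs_of_nonneg (by push_cast; linarith)] at h2
      have h3 : Real.exp (-(c' * (((k + 1 : ℕ) : ℝ) - b))) ≤ Real.exp (-(c' * ((k : ℝ) - b))) := by
        rw [Real.exp_le_exp]
        push_cast
        nlinarith
      have h4 : Real.exp (-mu (R (k + 1))) ≤ E0 * Real.exp (-(c' * ((k : ℝ) - b))) :=
        h2.trans (mul_le_mul_of_nonneg_left h3 hE00.le)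
      have h5 : Real.exp (-mu (R k)) ≤ Real.exp C * (E0 * Real.exp (-(c' * ((k : ℝ) - b)))) := by
        refine h1.trans ?_
        exact le_mul_of_one_le_left (by positivity) hexpC
      have h6 : Real.exp C * Real.exp (-mu (R (k + 1))) ≤
          Real.exp C * (E0 * Real.exp (-(c' * ((k : ℝ) - b)))) := by gcongr
      linarith) hbn le_rfl
  have hleft := tele_left (x := fun k => AA (R k)) (A := 2 * Real.exp C * E0) hc'0 (b := b)
    (by
      intro k hk
      refine (hstep k (by omega)).trans ?_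
      have h1 := hexp k (by omega)
      have h2 := hexp (k + 1) (by omega)
      have hbk' : (k : ℝ) + 1 ≤ b := by exact_mod_cast hk
      rw [abs_of_nonpos (by linarith)] at h1
      rw [abs_of_nonpos (by push_cast; linarith)] at h2
      push_cast at h2
      rw [show -(c' * -((k : ℝ) + 1 - b)) = -(c' * ((b : ℝ) - (k + 1))) by ring] at h2
      have h3 : Real.exp (-(c' * -((k : ℝ) - b))) ≤ Real.exp (-(c' * ((b : ℝ) - (k + 1)))) := by
        rw [Real.exp_le_exp]
        nlinarith
      have h4 : Real.exp (-mu (R k)) ≤ E0 * Real.exp (-(c' * ((b : ℝ) - (k + 1)))) :=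
        h1.trans (mul_le_mul_of_nonneg_left h3 hE00.le)
      have h5 : Real.exp (-mu (R k)) ≤
          Real.exp C * (E0 * Real.exp (-(c' * ((b : ℝ) - (k + 1))))) := by
        refine h4.trans ?_
        exact le_mul_of_one_le_left (by positivity) hexpC
      have h6 : Real.exp C * Real.exp (-mu (R (k + 1))) ≤
          Real.exp C * (E0 * Real.exp (-(c' * ((b : ℝ) - (k + 1))))) := by gcongr
      linarith) (s := b) le_rfl
  simp only [Nat.sub_self] at hleft
  rw [hR0] at hleft
  rw [hRn] at hright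
  have hA : 0 ≤ 2 * Real.exp C * E0 / (1 - Real.exp (-c')) := by positivity
  have hl' : ‖AA g - AA (R b)‖ ≤ 2 * Real.exp C * E0 / (1 - Real.exp (-c')) := by
    refine hleft.trans (mul_le_of_le_one_right hA ?_)
    linarith [Real.exp_pos (-(c' * (b : ℝ)))]
  have hr' : ‖AA (R b) - AA g'‖ ≤ 2 * Real.exp C * E0 / (1 - Real.exp (-c')) := by
    refine hright.trans (mul_le_of_le_one_right hA ?_)
    linarith [Real.exp_pos (-(c' * ((n : ℝ) - b)))]
  have h1 := (norm_sub_le_norm_sub_add_norm_sub (AA g) (AA (R b)) (AA g')).trans (add_le_add hl' hr')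
  refine h1.trans ?_
  have h2 : Real.exp C * E0 ≤ Real.exp (2 * C + 1 + σ * U) * Real.exp (-(σ * dl g g')) := by
    rw [hE0, ← Real.exp_add, ← Real.exp_add, Real.exp_le_exp]
    have h3 : σ * (dl g g' - U) ≤ d / (2 * Cs) := by
      have h4 : σ * (dl g g' - U) ≤ σ * (2 * m * d) :=
        mul_le_mul_of_nonneg_left (by linarith) hσ0.le
      have h5 : σ * (2 * m * d) = d / (2 * Cs) := by
        rw [hσ]
        field_simp
        ring
      linarith
    linarith
  calc 2 * Real.exp C * E0 / (1 - Real.exp (-c')) + 2 * Real.exp C * E0 / (1 - Real.exp (-c'))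
      = 4 / (1 - Real.exp (-c')) * (Real.exp C * E0) := by ring
    _ ≤ 4 / (1 - Real.exp (-c')) * (Real.exp (2 * C + 1 + σ * U) * Real.exp (-(σ * dl g g'))) := by
        gcongr
    _ = _ := by ring

end Pool.Agent.Helper60.CQ
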