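import Mathlib

/-!
Project CQ (MP_b66f9f_gt), file Iso: the group of the form `|x|^2 - |y|^2` on `P × N`.
`aa g` is the block `P → P`, `cc g` the block `P → N`, `ai g` the inverse of `aa g`,
`AA g = cc g ∘ ai g` the contraction whose graph is the image of `P`.
The norm of `P × N` is the maximum of the norms of the two components.
-/

set_option autoImplicit false
set_option linter.unusedSectionVars false

open Set Filter Topology

namespace Pool.Agent.Helper60.CQ

variable {P N : Type*} [NormedAddCommGroup P] [InnerProductSpace ℝ P] [FiniteDimensional ℝ P]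
  [NormedAddCommGroup N] [InnerProductSpace ℝ N] [FiniteDimensional ℝ N]

/-- the indefinite form -/
noncomputable def bf (x y : P × N) : ℝ := inner ℝ x.1 y.1 - inner ℝ x.2 y.2

lemma bf_self (x : P × N) : bf x x = ‖x.1‖ ^ 2 - ‖x.2‖ ^ 2 := by
  unfold bf
  rw [real_inner_self_eq_norm_sq, real_inner_self_eq_norm_sq]

lemma bf_symm (x y : P × N) : bf x y = bf y x := by
  unfold bf
  rw [real_inner_comm, real_inner_comm x.2]

lemma bf_add_right (x y z : P × N) : bf x (y + z) = bf x y + bf x z := by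
  unfold bf
  rw [Prod.fst_add, Prod.snd_add, inner_add_right, inner_add_right]
  ring

lemma bf_smul_right (c : ℝ) (x y : P × N) : bf x (c • y) = c * bf x y := by
  unfold bf
  rw [Prod.smul_fst, Prod.smul_snd, real_inner_smul_right, real_inner_smul_right]
  ring

lemma bf_add_left (x y z : P × N) : bf (x + y) z = bf x z + bf y z := by
  rw [bf_symm, bf_add_right, bf_symm z x, bf_symm z y]

lemma bf_smul_left (c : ℝ) (x y : P × N) : bf (c • x) y = c * bf x y := by
  rw [bf_symm, bf_smul_right, bf_symm]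

lemma bf_sub_right (x y z : P × N) : bf x (y - z) = bf x y - bf x z := by
  unfold bf
  rw [Prod.fst_sub, Prod.snd_sub, inner_sub_right, inner_sub_right]
  ring

lemma bf_sub_left (x y z : P × N) : bf (x - y) z = bf x z - bf y z := by
  rw [bf_symm, bf_sub_right, bf_symm z x, bf_symm z y]

lemma bf_neg_right (x y : P × N) : bf x (-y) = -bf x y := by
  unfold bf
  rw [Prod.fst_neg, Prod.snd_neg, inner_neg_right, inner_neg_right]
  ring

lemma abs_bf_le (x y : P × N) : |bf x y| ≤ 2 * (‖x‖ * ‖y‖) := by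
  unfold bf
  have h1 := abs_real_inner_le_norm x.1 y.1
  have h2 := abs_real_inner_le_norm x.2 y.2
  have h3 : ‖x.1‖ * ‖y.1‖ ≤ ‖x‖ * ‖y‖ :=
    mul_le_mul (norm_fst_le x) (norm_fst_le y) (norm_nonneg _) (norm_nonneg _)
  have h4 : ‖x.2‖ * ‖y.2‖ ≤ ‖x‖ * ‖y‖ :=
    mul_le_mul (norm_snd_le x) (norm_snd_le y) (norm_nonneg _) (norm_nonneg _)
  calc |inner ℝ x.1 y.1 - inner ℝ x.2 y.2| ≤ |inner ℝ x.1 y.1| + |inner ℝ x.2 y.2| := abs_sub _ _
    _ ≤ 2 * (‖x‖ * ‖y‖) := by linarith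

variable (P N) in
/-- the orthogonal group of the form -/
def IsoG : Subgroup ((P × N) ≃ₗ[ℝ] (P × N)) where
  carrier := {g | ∀ x y, bf (g x) (g y) = bf x y}
  mul_mem' := fun {a b} ha hb x y => by
    show bf (a (b x)) (a (b y)) = bf x y
    rw [ha, hb]
  one_mem' := fun x y => rfl
  inv_mem' := fun {a} ha x y => by
    have h1 := ha (a.symm x) (a.symm y)
    rw [LinearEquiv.apply_symm_apply, LinearEquiv.apply_symm_apply] at h1
    exact h1.symm

lemma bf_pres (g : IsoG P N) (x y : P × N) : bf (g • x) (g • y) = bf x y := g.2 x y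

lemma bf_inv (g : IsoG P N) (x y : P × N) : bf (g • x) y = bf x (g⁻¹ • y) := by
  rw [← bf_pres g x (g⁻¹ • y), smul_inv_smul]

lemma self_pres (g : IsoG P N) (x : P × N) :
    ‖(g • x).1‖ ^ 2 - ‖(g • x).2‖ ^ 2 = ‖x.1‖ ^ 2 - ‖x.2‖ ^ 2 := by
  rw [← bf_self, ← bf_self]
  exact bf_pres g x x

/-- the element as a continuous linear map -/
noncomputable def cl (g : IsoG P N) : (P × N) →L[ℝ] (P × N) :=
  LinearMap.toContinuousLinearMap (g.1 : (P × N) →ₗ[ℝ] (P × N))

lemma cl_apply (g : IsoG P N) (z : P × N) : cl g z = g • z := rfl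

lemma cl_mul (g h : IsoG P N) : cl (g * h) = (cl g).comp (cl h) :=
  ContinuousLinearMap.ext fun _ => rfl

/-- the block `P → P` -/
noncomputable def aa (g : IsoG P N) : P →L[ℝ] P :=
  (ContinuousLinearMap.fst ℝ P N).comp ((cl g).comp (ContinuousLinearMap.inl ℝ P N))

/-- the block `P → N` -/
noncomputable def cc (g : IsoG P N) : P →L[ℝ] N :=
  (ContinuousLinearMap.snd ℝ P N).comp ((cl g).comp (ContinuousLinearMap.inl ℝ P N))

lemma aa_apply (g : IsoG P N) (u : P) : aa g u = (g • ((u, 0) : P × N)).1 := rfl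

lemma cc_apply (g : IsoG P N) (u : P) : cc g u = (g • ((u, 0) : P × N)).2 := rfl

lemma smul_inl (g : IsoG P N) (u : P) : g • ((u, 0) : P × N) = (aa g u, cc g u) := rfl

lemma aa_sq (g : IsoG P N) (u : P) : ‖aa g u‖ ^ 2 = ‖u‖ ^ 2 + ‖cc g u‖ ^ 2 := by
  have h := self_pres g ((u, 0) : P × N)
  rw [← aa_apply, ← cc_apply] at h
  simp only [norm_zero] at h
  linarith

lemma norm_cc_le (g : IsoG P N) (u : P) : ‖cc g u‖ ≤ ‖aa g u‖ := by
  have h := aa_sq g u
  exact abs_le_of_sq_le_sq' (by nlinarith [sq_nonneg ‖u‖]) (norm_nonneg _) |>.2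

lemma norm_le_aa (g : IsoG P N) (u : P) : ‖u‖ ≤ ‖aa g u‖ := by
  have h := aa_sq g u
  exact abs_le_of_sq_le_sq' (by nlinarith [sq_nonneg ‖cc g u‖]) (norm_nonneg _) |>.2

/-- for the maximum norm the image of a vector of `P` has the norm of its first component -/
lemma norm_smul_inl (g : IsoG P N) (u : P) : ‖g • ((u, 0) : P × N)‖ = ‖aa g u‖ := by
  rw [smul_inl, Prod.norm_def]
  exact max_eq_left (norm_cc_le g u)

lemma aa_inj (g : IsoG P N) : Function.Injective (aa g) := by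
  rw [injective_iff_map_eq_zero]
  intro u hu
  have h := norm_le_aa g u
  rw [hu, norm_zero] at h
  exact norm_le_zero_iff.mp h

/-- the inverse of the block `P → P` -/
noncomputable def ai (g : IsoG P N) : P →L[ℝ] P :=
  LinearMap.toContinuousLinearMap
    ((LinearEquiv.ofInjectiveEndo (aa g : P →ₗ[ℝ] P) (aa_inj g)).symm : P →ₗ[ℝ] P)

lemma aa_ai (g : IsoG P N) (w : P) : aa g (ai g w) = w :=
  LinearEquiv.apply_symm_apply (LinearEquiv.ofInjectiveEndo (aa g : P →ₗ[ℝ] P) (aa_inj g)) w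

lemma ai_aa (g : IsoG P N) (w : P) : ai g (aa g w) = w :=
  aa_inj g (aa_ai g (aa g w))

/-- the contraction whose graph is the image of `P` -/
noncomputable def AA (g : IsoG P N) : P →L[ℝ] N := (cc g).comp (ai g)

lemma AA_apply (g : IsoG P N) (w : P) : AA g w = cc g (ai g w) := rfl

lemma AA_aa (g : IsoG P N) (w : P) : AA g (aa g w) = cc g w := by
  rw [AA_apply, ai_aa]

lemma smul_ai (g : IsoG P N) (w : P) : g • ((ai g w, 0) : P × N) = (w, AA g w) := by
  rw [smul_inl, aa_ai]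
  rfl

lemma AA_sq (g : IsoG P N) (w : P) : ‖AA g w‖ ^ 2 = ‖w‖ ^ 2 - ‖ai g w‖ ^ 2 := by
  have h := aa_sq g (ai g w)
  rw [aa_ai, ← AA_apply] at h
  linarith

lemma AA_le (g : IsoG P N) (w : P) : ‖AA g w‖ ≤ ‖w‖ := by
  have h := AA_sq g w
  exact abs_le_of_sq_le_sq' (by nlinarith [sq_nonneg ‖ai g w‖]) (norm_nonneg _) |>.2

lemma norm_AA_le (g : IsoG P N) : ‖AA g‖ ≤ 1 :=
  ContinuousLinearMap.opNorm_le_bound _ zero_le_one fun w => by
    rw [one_mul]
    exact AA_le g w

lemma ai_le (g : IsoG P N) (w : P) : ‖ai g w‖ ≤ ‖w‖ := by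
  have h := norm_le_aa g (ai g w)
  rwa [aa_ai] at h

/-- the adjoint of the contraction -/
noncomputable def At (g : IsoG P N) : N →L[ℝ] P := ContinuousLinearMap.adjoint (AA g)

lemma At_le (g : IsoG P N) (w : N) : ‖At g w‖ ≤ ‖w‖ := by
  have h : ‖At g‖ ≤ 1 := by
    unfold At
    rw [LinearIsometryEquiv.norm_map]
    exact norm_AA_le g
  calc ‖At g w‖ ≤ ‖At g‖ * ‖w‖ := (At g).le_opNorm w
    _ ≤ 1 * ‖w‖ := by gcongr
    _ = ‖w‖ := one_mul _

lemma inner_At (g : IsoG P N) (w : N) (u : P) : inner ℝ (At g w) u = inner ℝ w (AA g u) :=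
  ContinuousLinearMap.adjoint_inner_left _ _ _

/-- the transpose of the block `P → P` -/
noncomputable def at' (g : IsoG P N) : P →L[ℝ] P := ContinuousLinearMap.adjoint (aa g)

lemma inner_at' (g : IsoG P N) (w : P) (u : P) : inner ℝ (at' g w) u = inner ℝ w (aa g u) :=
  ContinuousLinearMap.adjoint_inner_left _ _ _

/-- the first component of the inverse -/
lemma inv_fst (g : IsoG P N) (z : P × N) : (g⁻¹ • z).1 = at' g (z.1 - At g z.2) := by
  refine ext_inner_left ℝ fun u => ?_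
  have h1 := bf_inv g ((u, 0) : P × N) z
  have h2 : bf ((u, 0) : P × N) (g⁻¹ • z) = inner ℝ u (g⁻¹ • z).1 := by
    unfold bf
    simp
  rw [← h2, ← h1, smul_inl]
  unfold bf
  show inner ℝ (aa g u) z.1 - inner ℝ (cc g u) z.2 = _
  rw [real_inner_comm (at' g (z.1 - At g z.2)) u, inner_at', inner_sub_left, inner_At, AA_aa,
    real_inner_comm z.1, real_inner_comm z.2]

lemma aa_inv (g : IsoG P N) : aa g⁻¹ = at' g := by
  ext u
  rw [aa_apply, inv_fst]
  show at' g (u - At g 0) = _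
  rw [map_zero, sub_zero]

lemma aa_inv_mul (g h : IsoG P N) (u : P) :
    aa (g⁻¹ * h) u = at' g (aa h u - At g (AA h (aa h u))) := by
  rw [aa_apply, mul_smul, inv_fst, smul_inl, AA_aa]

lemma cc_inv_sq (g : IsoG P N) (z : P × N) :
    ‖(g • z).1‖ ^ 2 - ‖(g • z).2‖ ^ 2 = bf z z := by
  rw [self_pres, bf_self]

/-- moving one step changes the contraction little -/
lemma step_apply (g h : IsoG P N) (u : P) :
    ‖AA g u - AA h u‖ ≤ ‖ai g u‖ + ‖cl (g⁻¹ * h)‖ * ‖ai h u‖ := by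
  set z : P × N := (ai g u, 0) - (g⁻¹ * h) • ((ai h u, 0) : P × N) with hz
  have h1 : g • z = (0, AA g u - AA h u) := by
    rw [hz, smul_sub, mul_smul, smul_inv_smul, smul_ai, smul_ai]
    ext <;> simp
  have h2 : ‖z‖ ≤ ‖ai g u‖ + ‖cl (g⁻¹ * h)‖ * ‖ai h u‖ := by
    rw [hz]
    refine (norm_sub_le _ _).trans ?_
    have e1 : ‖((ai g u, 0) : P × N)‖ = ‖ai g u‖ := by
      rw [Prod.norm_def]
      simp
    have e2 : ‖((ai h u, 0) : P × N)‖ = ‖ai h u‖ := by
      rw [Prod.norm_def]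
      simp
    rw [e1]
    have := (cl (g⁻¹ * h)).le_opNorm ((ai h u, 0) : P × N)
    rw [e2, cl_apply] at this
    linarith
  refine le_trans ?_ h2
  have h3 := self_pres g z
  rw [h1] at h3
  simp only [norm_zero] at h3
  have h4 : ‖AA g u - AA h u‖ ^ 2 ≤ ‖z.2‖ ^ 2 := by nlinarith [sq_nonneg ‖z.1‖]
  have h5 := abs_le_of_sq_le_sq' h4 (norm_nonneg _) |>.2
  exact h5.trans (norm_snd_le z)

end Pool.Agent.Helper60.CQ
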