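import Pool.Agent.Helper60.CQ.PL

/-!
Project CQ (MP_b66f9f_gt), block CQ-PC: parity, quantitative form. Uses `PL` (statement only) and
Mathlib.

Statement: for all `C, τ > 0` there is `δ > 0` such that for contractions `A 0, A 1, A 2 : P → N` that are
`δ`-almost isometric (`|u|^2 - |A i u|^2 <= δ |u|^2`) and vectors `x : P`, `y : N` with `|x|, |y| <= C`,
`1 <= |y|^2 - |x|^2`, `|x - (A i)ᵀ y| <= δ`, two of them satisfy `|det (1 - (A i)ᵀ A j)| < τ`.

Proof. Compactness. Suppose not; for `δ = 1/(k+1)` take counterexamples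
`(A^k, x^k, y^k)` in the compact set (product of closed balls in the finite dimensional spaces
`P →L[ℝ] N`, `P`, `N`); a subsequence converges to `(J, x, y)` (or: minimise the continuous function
`max_i (|1 - (A i)ᵀ A i| + |x - (A i)ᵀ y|)` on the compact set where all three determinants are
`>= τ`; the minimum is positive by `PL`). The limit satisfies `|J i u| = |u|` (from
`0 <= |u|^2 - |A u|^2 <= δ |u|^2`), `(J i)ᵀ y = x`, `|y|^2 - |x|^2 >= 1` so `|x| < |y|`, and
`|det (1 - (J i)ᵀ J j)| >= τ` for `i < j`. By `PL` there are `i < j` and `u ≠ 0` with `J i u = J j u`; then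
`(J i)ᵀ J j u = (J i)ᵀ J i u = u` so `1 - (J i)ᵀ J j` kills `u`, its determinant is `0`, contradiction.
-/

set_option autoImplicit false
set_option linter.unusedSectionVars false

open Set Filter Topology Module

namespace Pool.Agent.Helper60.CQ

theorem PC (P N : Type*) [NormedAddCommGroup P] [InnerProductSpace ℝ P] [FiniteDimensional ℝ P]
    [NormedAddCommGroup N] [InnerProductSpace ℝ N] [FiniteDimensional ℝ N]
    (hodd : Odd (finrank ℝ P)) (hN : finrank ℝ N = finrank ℝ P + 1) (C τ : ℝ) (hτ : 0 < τ) :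
    ∃ δ : ℝ, 0 < δ ∧ ∀ (A : Fin 3 → P →L[ℝ] N) (x : P) (y : N),
      (∀ i u, ‖A i u‖ ≤ ‖u‖) → (∀ i u, ‖u‖ ^ 2 - ‖A i u‖ ^ 2 ≤ δ * ‖u‖ ^ 2) →
      ‖x‖ ≤ C → ‖y‖ ≤ C → 1 ≤ ‖y‖ ^ 2 - ‖x‖ ^ 2 →
      (∀ i, ‖x - ContinuousLinearMap.adjoint (A i) y‖ ≤ δ) →
      ∃ i j : Fin 3, i < j ∧ |(ContinuousLinearMap.id ℝ P -
        (ContinuousLinearMap.adjoint (A i)).comp (A j)).det| < τ := by
  by_contra hcon
  push Not at hcon
  have hδ : ∀ k : ℕ, (0 : ℝ) < 1 / ((k : ℝ) + 1) := fun k => by positivity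
  choose A x y h1 h2 h3 h4 h5 h6 h7 using fun k : ℕ => hcon (1 / ((k : ℝ) + 1)) (hδ k)
  have hmem : ∀ k, ((A k, x k, y k) : (Fin 3 → P →L[ℝ] N) × P × N) ∈
      Metric.closedBall (0 : (Fin 3 → P →L[ℝ] N) × P × N) (max 1 C) := by
    intro k
    rw [mem_closedBall_zero_iff, Prod.norm_def, Prod.norm_def]
    refine max_le ?_ (max_le ((h3 k).trans (le_max_right _ _)) ((h4 k).trans (le_max_right _ _)))
    refine (pi_norm_le_iff_of_nonneg (by positivity)).2 fun i => ?_
    refine (ContinuousLinearMap.opNorm_le_bound _ zero_le_one fun u => ?_).trans (le_max_left _ _)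
    rw [one_mul]
    exact h1 k i u
  obtain ⟨⟨J, x0, y0⟩, -, φ, hφ, hlim⟩ := (isCompact_closedBall (0 : (Fin 3 → P →L[ℝ] N) × P × N) (max 1 C)).tendsto_subseq hmem
  have hJ : ∀ i, Tendsto (fun k => A (φ k) i) atTop (𝓝 (J i)) := fun i =>
    (((continuous_apply i).comp continuous_fst).tendsto (J, x0, y0)).comp hlim
  have hx0 : Tendsto (fun k => x (φ k)) atTop (𝓝 x0) :=
    ((continuous_fst.comp continuous_snd).tendsto (J, x0, y0)).comp hlim
  have hy0 : Tendsto (fun k => y (φ k)) atTop (𝓝 y0) :=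
    ((continuous_snd.comp continuous_snd).tendsto (J, x0, y0)).comp hlim
  have hd : Tendsto (fun k => (1 : ℝ) / (((φ k : ℕ) : ℝ) + 1)) atTop (𝓝 0) :=
    tendsto_one_div_add_atTop_nhds_zero_nat.comp hφ.tendsto_atTop
  have hadj : ∀ i, Tendsto (fun k => ContinuousLinearMap.adjoint (A (φ k) i)) atTop
      (𝓝 (ContinuousLinearMap.adjoint (J i))) := fun i =>
    ((LinearIsometryEquiv.continuous (ContinuousLinearMap.adjoint (𝕜 := ℝ) (E := P) (F := N))).tendsto (J i)).comp (hJ i)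
  have happ : ∀ i u, Tendsto (fun k => A (φ k) i u) atTop (𝓝 (J i u)) := fun i u =>
    ((ContinuousLinearMap.apply ℝ N u).continuous.tendsto (J i)).comp (hJ i)
  have hiso : ∀ i u, ‖J i u‖ = ‖u‖ := by
    intro i u
    have hle : ‖J i u‖ ≤ ‖u‖ := le_of_tendsto' (happ i u).norm fun k => h1 (φ k) i u
    have hge : ‖u‖ ^ 2 - ‖J i u‖ ^ 2 ≤ 0 * ‖u‖ ^ 2 :=
      le_of_tendsto_of_tendsto' (tendsto_const_nhds.sub ((happ i u).norm.pow 2)) (hd.mul_const _)
        fun k => h2 (φ k) i u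
    refine le_antisymm hle ?_
    refine abs_le_of_sq_le_sq' ?_ (norm_nonneg _) |>.2
    linarith
  have hxy : ∀ i u, inner ℝ y0 (J i u) = inner ℝ x0 u := by
    intro i u
    have h8 : Tendsto (fun k => ‖x (φ k) - ContinuousLinearMap.adjoint (A (φ k) i) (y (φ k))‖) atTop
        (𝓝 ‖x0 - ContinuousLinearMap.adjoint (J i) y0‖) :=
      (hx0.sub (((isBoundedBilinearMap_apply (𝕜 := ℝ) (E := N) (F := P)).continuous.tendsto
        (ContinuousLinearMap.adjoint (J i), y0)).comp ((hadj i).prodMk_nhds hy0))).norm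
    have h9 : ‖x0 - ContinuousLinearMap.adjoint (J i) y0‖ ≤ 0 :=
      le_of_tendsto_of_tendsto' h8 hd fun k => h6 (φ k) i
    have h10 : x0 = ContinuousLinearMap.adjoint (J i) y0 :=
      sub_eq_zero.1 (norm_le_zero_iff.1 h9)
    rw [h10, ContinuousLinearMap.adjoint_inner_left]
  have hlt : ‖x0‖ < ‖y0‖ := by
    have h8 : 1 ≤ ‖y0‖ ^ 2 - ‖x0‖ ^ 2 :=
      ge_of_tendsto' ((hy0.norm.pow 2).sub (hx0.norm.pow 2)) fun k => h5 (φ k)
    refine lt_of_pow_lt_pow_left₀ 2 (norm_nonneg _) ?_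
    linarith
  obtain ⟨i, j, hij, u, hu, hJu⟩ := PL hodd hN J hiso x0 y0 hxy hlt
  have hdet : τ ≤ |(ContinuousLinearMap.id ℝ P - (ContinuousLinearMap.adjoint (J i)).comp (J j)).det| := by
    have h8 : Tendsto (fun k => (ContinuousLinearMap.id ℝ P -
        (ContinuousLinearMap.adjoint (A (φ k) i)).comp (A (φ k) j))) atTop
        (𝓝 (ContinuousLinearMap.id ℝ P - (ContinuousLinearMap.adjoint (J i)).comp (J j))) := by
      refine tendsto_const_nhds.sub ?_
      exact ((isBoundedBilinearMap_comp (𝕜 := ℝ) (E := P) (F := N) (G := P)).continuous.tendsto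
        (ContinuousLinearMap.adjoint (J i), J j)).comp ((hadj i).prodMk_nhds (hJ j))
    have h9 := ((ContinuousLinearMap.continuous_det.tendsto _).comp h8).abs
    exact ge_of_tendsto' h9 fun k => h7 (φ k) i j hij
  have h8 : (ContinuousLinearMap.adjoint (J i)).comp (J i) = 1 :=
    (ContinuousLinearMap.norm_map_iff_adjoint_comp_self (J i)).1 (hiso i)
  have h9 : (ContinuousLinearMap.id ℝ P - (ContinuousLinearMap.adjoint (J i)).comp (J j)) u = 0 := by
    have h10 := congrArg (fun T : P →L[ℝ] P => T u) h8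
    simp only [ContinuousLinearMap.comp_apply, one_apply_eq_self] at h10
    rw [_root_.sub_apply, ContinuousLinearMap.id_apply, ContinuousLinearMap.comp_apply, ← hJu, h10, sub_self]
  have h11 : (ContinuousLinearMap.id ℝ P - (ContinuousLinearMap.adjoint (J i)).comp (J j)).det = 0 := by
    rw [ContinuousLinearMap.det, LinearMap.det_eq_zero_iff_ker_ne_bot, Submodule.ne_bot_iff]
    exact ⟨u, h9, hu⟩
  rw [h11, abs_zero] at hdet
  linarith

end Pool.Agent.Helper60.CQ
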