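import Mathlib

/-!
Project CQ (MP_b66f9f_gt), block CQ-PL: parity. Needs only Mathlib (linear algebra).

Statement: `m = finrank P` odd, `finrank N = m + 1`, three linear isometries `J 0, J 1, J 2 : P → N`
and `x : P`, `y : N` with `(J i)ᵀ y = x` for all `i` (stated as `<y, J i u> = <x, u>` for all `u`) and
`|x| < |y|`. Then two of them agree on a nonzero vector.

Proof. Put `β = sqrt(|y|^2 - |x|^2) > 0`. The vector `y - J i x` is orthogonal to `J i P`
(`<y - J i x, J i u> = <x,u> - <x,u> = 0`) and has square norm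
`|y|^2 - 2 <y, J i x> + |x|^2 = |y|^2 - |x|^2 = β^2`. So `n i = (y - J i x)/β` is a unit normal of `J i P`
and `K i (u, s) = J i u + s n i` is a linear isometry of the Euclidean space `P ⊕ ℝ` (use
`WithLp 2 (P × ℝ)`, or orthonormal bases and matrices) onto `N` (equal dimensions) with
`K i (x, β) = y` for all `i`. Let `S ij = (K i)⁻¹ K j`, an isometry of `P ⊕ ℝ` fixing `v = (x, β) ≠ 0`.
`S 01 S 12 = S 02`, all determinants are `±1`, so one of the three has determinant `1` (if
`det S 01 = det S 12 = -1` then `det S 02 = 1`). Let `S` be this one. The orthogonal complement `W` of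
`v` has dimension `m` (odd), is invariant, and `S` restricted to `W` has determinant `1` (the
determinant of `S` is the product of those on `ℝ v` and on `W`). An isometry `T` of an
odd-dimensional Euclidean space with `det T = 1` has a nonzero fixed vector:
`det (T - 1) = det (T (1 - Tᵀ)) = det (1 - Tᵀ) = det (1 - T) = (-1)^m det (T - 1) = - det (T - 1)`.
So `S` fixes `v` and some `w ∈ W`, `w ≠ 0`: a plane; this plane contains a nonzero vector `(u, 0)` with
vanishing last coordinate (here `v = (x, β)`, `β ≠ 0`: take `w - (w_last/β) v`, nonzero because `w` is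
not a multiple of `v`). Then `K j (u,0) = K i (u,0)`, i.e. `J j u = J i u`, `u ≠ 0`.
(A matrix-free variant: it is enough to show that the fixed space of `S` has dimension at least 2.)
-/

set_option autoImplicit false
set_option linter.unusedSectionVars false

open Set Filter Topology Module

namespace Pool.Agent.Helper60.CQ

private theorem det_adj {E : Type*} [NormedAddCommGroup E] [InnerProductSpace ℝ E]
    [FiniteDimensional ℝ E] (f : E →ₗ[ℝ] E) :
    LinearMap.det (LinearMap.adjoint f) = LinearMap.det f := by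
  let b := stdOrthonormalBasis ℝ E
  rw [← LinearMap.det_toMatrix b.toBasis, LinearMap.toMatrix_adjoint, Matrix.det_conjTranspose,
    LinearMap.det_toMatrix]
  rfl

private theorem det_sq {E : Type*} [NormedAddCommGroup E] [InnerProductSpace ℝ E]
    [FiniteDimensional ℝ E] (S : E ≃ₗᵢ[ℝ] E) :
    LinearMap.det (S.toLinearEquiv : E →ₗ[ℝ] E) = 1 ∨
      LinearMap.det (S.toLinearEquiv : E →ₗ[ℝ] E) = -1 := by
  have h1 : LinearMap.adjoint (S.toLinearEquiv : E →ₗ[ℝ] E) ∘ₗ (S.toLinearEquiv : E →ₗ[ℝ] E)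
      = LinearMap.id := by
    ext x
    refine ext_inner_left ℝ fun y => ?_
    rw [LinearMap.comp_apply, LinearMap.adjoint_inner_right]
    exact S.inner_map_map y x
  have h2 := congrArg LinearMap.det h1
  rw [LinearMap.det_comp, det_adj, LinearMap.det_id] at h2
  exact mul_self_eq_one_iff.mp h2

private theorem fixed {E : Type*} [NormedAddCommGroup E] [InnerProductSpace ℝ E]
    [FiniteDimensional ℝ E] (hE : Even (finrank ℝ E)) (S : E ≃ₗᵢ[ℝ] E)
    (hdet : LinearMap.det (S.toLinearEquiv : E →ₗ[ℝ] E) = 1) (v : E) (hv : v ≠ 0)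
    (hSv : S v = v) : ∃ w : E, w ≠ 0 ∧ inner ℝ v w = 0 ∧ S w = w := by
  set K : Submodule ℝ E := Submodule.span ℝ {v} with hK
  set Q : E →ₗ[ℝ] E := (K.starProjection : E →L[ℝ] E).toLinearMap with hQ
  set R : E →ₗ[ℝ] E := K.reflection.toLinearMap with hR
  set T : E →ₗ[ℝ] E := (S.toLinearEquiv : E →ₗ[ℝ] E) with hT
  have hTv : T v = v := hSv
  have hTQ : ∀ x, T (Q x) = Q x := by
    intro x
    have hx : Q x ∈ K := Submodule.starProjection_apply_mem K x
    obtain ⟨c, hc⟩ := Submodule.mem_span_singleton.mp hx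
    rw [← hc, map_smul, hTv]
  have hQQ : ∀ x, Q (Q x) = Q x := by
    intro x
    have hx : Q x ∈ K := Submodule.starProjection_apply_mem K x
    exact (Submodule.starProjection_eq_self_iff).mpr hx
  have hRx : ∀ x, R x = (2 : ℝ) • Q x - x := by
    intro x
    have h := K.reflection_apply x
    rw [two_smul] at h
    rw [two_smul]
    exact h
  set A : E →ₗ[ℝ] E := T - LinearMap.id + Q with hA
  have hadj : T ∘ₗ LinearMap.adjoint A = A ∘ₗ R := by
    have hTT : ∀ x, T (LinearMap.adjoint T x) = x := by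
      intro x
      have : LinearMap.adjoint T x = S.symm x := by
        refine ext_inner_left ℝ fun y => ?_
        rw [LinearMap.adjoint_inner_right]
        show inner ℝ (S y) x = inner ℝ y (S.symm x)
        rw [← S.inner_map_map y (S.symm x), S.apply_symm_apply]
      rw [this]
      exact S.apply_symm_apply x
    have hQa : LinearMap.adjoint Q = Q := by
      symm
      rw [LinearMap.eq_adjoint_iff]
      intro x y
      exact K.starProjection_isSymmetric x y
    ext x
    simp only [LinearMap.comp_apply, hA, map_add, map_sub, LinearMap.add_apply,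
      LinearMap.sub_apply, hQa, hTT, LinearMap.id_apply, hTQ, hRx, LinearMap.adjoint_id, map_smul,
      hQQ]
    module
  have hdetR : LinearMap.det R = -1 := by
    rw [hR, Submodule.det_reflection]
    have h1 : finrank ℝ K = 1 := finrank_span_singleton hv
    have h2 := K.finrank_add_finrank_orthogonal
    have h3 : Odd (finrank ℝ Kᗮ) := by
      rw [h1] at h2
      rcases hE with ⟨r, hr⟩
      rw [hr] at h2
      refine ⟨r - 1, ?_⟩
      omega
    exact h3.neg_one_pow
  have hdA : LinearMap.det A = 0 := by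
    have h := congrArg LinearMap.det hadj
    rw [LinearMap.det_comp, LinearMap.det_comp, det_adj, hdet, hdetR] at h
    linarith
  obtain ⟨w, hw, hw0⟩ := (Submodule.ne_bot_iff _).mp (LinearMap.bot_lt_ker_of_det_eq_zero hdA).ne'
  have hAw : T w - w + Q w = 0 := hw
  have hinner : inner ℝ v (T w) = inner ℝ v w := by
    calc inner ℝ v (T w) = inner ℝ (S v) (S w) := by rw [hSv]; rfl
      _ = inner ℝ v w := S.inner_map_map v w
  have hQw : inner ℝ v (Q w) = 0 := by
    have := congrArg (fun z => inner ℝ v z) hAw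
    simp only [inner_add_right, inner_sub_right, inner_zero_right, hinner] at this
    linarith
  have hQw' : inner ℝ v (Q w) = inner ℝ v w := by
    have h1 : inner ℝ (w - Q w) v = 0 :=
      K.starProjection_inner_eq_zero w v (Submodule.mem_span_singleton_self v)
    rw [inner_sub_left, sub_eq_zero] at h1
    rw [real_inner_comm, ← h1, real_inner_comm]
  have hvw : inner ℝ v w = 0 := by rw [← hQw', hQw]
  have hQ0 : Q w = 0 := by
    show K.starProjection w = 0
    rw [Submodule.starProjection_singleton, hvw]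
    simp
  refine ⟨w, hw0, hvw, ?_⟩
  rw [hQ0, add_zero, sub_eq_zero] at hAw
  exact hAw

theorem PL {P N : Type*} [NormedAddCommGroup P] [InnerProductSpace ℝ P] [FiniteDimensional ℝ P]
    [NormedAddCommGroup N] [InnerProductSpace ℝ N] [FiniteDimensional ℝ N]
    (hodd : Odd (finrank ℝ P)) (hN : finrank ℝ N = finrank ℝ P + 1)
    (J : Fin 3 → P →L[ℝ] N) (hJ : ∀ i u, ‖J i u‖ = ‖u‖) (x : P) (y : N)
    (hxy : ∀ i u, inner ℝ y (J i u) = inner ℝ x u) (hlt : ‖x‖ < ‖y‖) :
    ∃ i j : Fin 3, i < j ∧ ∃ u : P, u ≠ 0 ∧ J i u = J j u := by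
  classical
  have hJi : ∀ i u w, inner ℝ (J i u) (J i w) = inner ℝ u w := by
    intro i u w
    let L : P →ₗᵢ[ℝ] N := ⟨(J i).toLinearMap, hJ i⟩
    exact L.inner_map_map u w
  have hβ2 : 0 < ‖y‖ ^ 2 - ‖x‖ ^ 2 := by nlinarith [norm_nonneg x, norm_nonneg y]
  set β : ℝ := Real.sqrt (‖y‖ ^ 2 - ‖x‖ ^ 2) with hβ
  have hβ0 : 0 < β := Real.sqrt_pos.mpr hβ2
  have hββ : β * β = ‖y‖ ^ 2 - ‖x‖ ^ 2 := Real.mul_self_sqrt hβ2.le
  let n : Fin 3 → N := fun i => β⁻¹ • (y - J i x)
  have hperp : ∀ i u, inner ℝ (J i u) (n i) = 0 := by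
    intro i u
    show inner ℝ (J i u) (β⁻¹ • (y - J i x)) = 0
    rw [inner_smul_right, inner_sub_right, real_inner_comm, hxy, hJi, real_inner_comm, sub_self,
      mul_zero]
  have hn : ∀ i, ‖n i‖ ^ 2 = 1 := by
    intro i
    have h1 : ‖y - J i x‖ ^ 2 = β * β := by
      rw [hββ, norm_sub_sq_real, hxy, real_inner_self_eq_norm_sq, hJ]
      ring
    show ‖β⁻¹ • (y - J i x)‖ ^ 2 = 1
    rw [norm_smul, mul_pow, h1, Real.norm_eq_abs, sq_abs]
    field_simp
  let Kl : Fin 3 → (WithLp 2 (P × ℝ) →ₗ[ℝ] N) := fun i =>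
    { toFun := fun e => J i e.fst + e.snd • n i
      map_add' := by
        intro a b
        simp only [WithLp.add_fst, WithLp.add_snd, map_add]
        module
      map_smul' := by
        intro c a
        simp only [WithLp.smul_fst, WithLp.smul_snd, map_smul, RingHom.id_apply, smul_eq_mul]
        module }
  have hKn : ∀ i e, ‖Kl i e‖ = ‖e‖ := by
    intro i e
    have h1 : ‖Kl i e‖ ^ 2 = ‖e‖ ^ 2 := by
      show ‖J i e.fst + e.snd • n i‖ ^ 2 = ‖e‖ ^ 2
      rw [norm_add_sq_real, inner_smul_right, hperp, WithLp.prod_norm_sq_eq_of_L2, hJ, norm_smul,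
        mul_pow, hn]
      ring
    exact (pow_left_inj₀ (norm_nonneg _) (norm_nonneg _) two_ne_zero).mp h1
  have hfr : finrank ℝ (WithLp 2 (P × ℝ)) = finrank ℝ N := by
    rw [hN, LinearEquiv.finrank_eq (WithLp.linearEquiv 2 ℝ (P × ℝ)), Module.finrank_prod,
      Module.finrank_self]
  let K : Fin 3 → (WithLp 2 (P × ℝ) ≃ₗᵢ[ℝ] N) := fun i =>
    LinearIsometry.toLinearIsometryEquiv ⟨Kl i, hKn i⟩ hfr
  have hKa : ∀ i e, K i e = J i e.fst + e.snd • n i := fun i e => rfl
  let v : WithLp 2 (P × ℝ) := WithLp.toLp 2 (x, β)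
  have hKv : ∀ i, K i v = y := by
    intro i
    rw [hKa]
    show J i x + β • (β⁻¹ • (y - J i x)) = y
    rw [smul_smul, mul_inv_cancel₀ hβ0.ne', one_smul]
    abel
  have hv : v ≠ 0 := by
    intro h
    have : v.snd = 0 := by rw [h]; rfl
    exact hβ0.ne' this
  have hE : Even (finrank ℝ (WithLp 2 (P × ℝ))) := by
    rw [hfr, hN]
    exact hodd.add_one
  let S : Fin 3 → Fin 3 → (WithLp 2 (P × ℝ) ≃ₗᵢ[ℝ] WithLp 2 (P × ℝ)) := fun i j =>
    (K j).trans (K i).symm
  have hSv : ∀ i j, S i j v = v := by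
    intro i j
    show (K i).symm (K j v) = v
    rw [hKv, ← hKv i, LinearIsometryEquiv.symm_apply_apply]
  have hmul : LinearMap.det ((S 0 1).toLinearEquiv : WithLp 2 (P × ℝ) →ₗ[ℝ] WithLp 2 (P × ℝ))
      * LinearMap.det ((S 1 2).toLinearEquiv : WithLp 2 (P × ℝ) →ₗ[ℝ] WithLp 2 (P × ℝ))
      = LinearMap.det ((S 0 2).toLinearEquiv : WithLp 2 (P × ℝ) →ₗ[ℝ] WithLp 2 (P × ℝ)) := by
    rw [← LinearMap.det_comp]
    congr 1
    ext1 e
    show (K 0).symm (K 1 ((K 1).symm (K 2 e))) = (K 0).symm (K 2 e)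
    rw [LinearIsometryEquiv.apply_symm_apply]
  have hex : ∃ i j : Fin 3, i < j ∧
      LinearMap.det ((S i j).toLinearEquiv : WithLp 2 (P × ℝ) →ₗ[ℝ] WithLp 2 (P × ℝ)) = 1 := by
    rcases det_sq (S 0 1) with h | h
    · exact ⟨0, 1, by decide, h⟩
    rcases det_sq (S 1 2) with h' | h'
    · exact ⟨1, 2, by decide, h'⟩
    refine ⟨0, 2, by decide, ?_⟩
    rw [← hmul, h, h']
    norm_num
  obtain ⟨i, j, hij, hd⟩ := hex
  obtain ⟨w, hw0, hvw, hSw⟩ := fixed hE (S i j) hd v hv (hSv i j)
  have hKw : K i w = K j w := by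
    have h1 : (K i).symm (K j w) = w := hSw
    have h2 := congrArg (K i) h1
    rw [LinearIsometryEquiv.apply_symm_apply] at h2
    exact h2.symm
  let z : WithLp 2 (P × ℝ) := w - (w.snd / β) • v
  have hz : K i z = K j z := by
    show K i (w - (w.snd / β) • v) = K j (w - (w.snd / β) • v)
    rw [map_sub, map_sub, map_smul, map_smul, hKw, hKv, hKv]
  have hzs : z.snd = 0 := by
    show w.snd - (w.snd / β) * β = 0
    rw [div_mul_cancel₀ _ hβ0.ne', sub_self]
  have hz0 : z.fst ≠ 0 := by
    intro h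
    have hz' : z = 0 := by
      apply (WithLp.ofLp_injective 2)
      exact Prod.ext h hzs
    have hwv : w = (w.snd / β) • v := sub_eq_zero.mp hz'
    have h0 : inner ℝ v w = (w.snd / β) * inner ℝ v v := by
      conv_lhs => rw [hwv]
      rw [inner_smul_right]
    rw [hvw] at h0
    have hvv : inner ℝ v v ≠ 0 := by
      rw [real_inner_self_eq_norm_sq]
      exact pow_ne_zero 2 (norm_ne_zero_iff.mpr hv)
    have hc : w.snd / β = 0 := by
      rcases mul_eq_zero.mp h0.symm with h | h
      · exact h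
      · exact absurd h hvv
    rw [hc, zero_smul] at hwv
    exact hw0 hwv
  refine ⟨i, j, hij, z.fst, hz0, ?_⟩
  have h1 := hz
  rw [hKa, hKa, hzs, zero_smul, zero_smul, add_zero, add_zero] at h1
  exact h1

end Pool.Agent.Helper60.CQ
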