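import Pool.Agent.Helper60.CQ.Iso
import Pool.Agent.Helper60.CQ.Det

/-!
Project CQ (MP_b66f9f_gt), file Size: the size functions on the orthogonal group
`nu g = log max(‖g‖, ‖g⁻¹‖)`, `mu g = log` of the smallest singular value of the block `aa g`,
`ld g = log |det (aa g)|`, and the transversality `tt g h = |det (1 - (AA g)ᵀ AA h)|`,
`dl g h = ld g + ld h - ld (g⁻¹ h) = - log (tt g h)`.
-/

set_option autoImplicit false
set_option linter.unusedSectionVars false

open Set Filter Topology Module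

namespace Pool.Agent.Helper60.CQ

variable {P N : Type*} [NormedAddCommGroup P] [InnerProductSpace ℝ P] [FiniteDimensional ℝ P]
  [NormedAddCommGroup N] [InnerProductSpace ℝ N] [FiniteDimensional ℝ N]

/-- the size -/
noncomputable def nu (g : IsoG P N) : ℝ := Real.log (max ‖cl g‖ ‖cl g⁻¹‖)

/-- logarithm of the smallest singular value of `aa g` -/
noncomputable def mu (g : IsoG P N) : ℝ := -Real.log ‖ai g‖

/-- logarithm of the determinant of `aa g` -/
noncomputable def ld (g : IsoG P N) : ℝ := Real.log |(aa g).det|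

/-- the map `1 - (AA g)ᵀ AA h` -/
noncomputable def TT (g h : IsoG P N) : P →L[ℝ] P :=
  ContinuousLinearMap.id ℝ P - (At g).comp (AA h)

lemma TT_apply (g h : IsoG P N) (u : P) : TT g h u = u - At g (AA h u) := rfl

/-- the transversality -/
noncomputable def tt (g h : IsoG P N) : ℝ := |(TT g h).det|

/-- its negative logarithm -/
noncomputable def dl (g h : IsoG P N) : ℝ := ld g + ld h - ld (g⁻¹ * h)

section
variable [Nontrivial P]

lemma one_le_norm_cl (g : IsoG P N) : 1 ≤ ‖cl g‖ := by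
  obtain ⟨u, hu⟩ := exists_ne (0 : P)
  have hu' : 0 < ‖u‖ := norm_pos_iff.mpr hu
  have h1 := (cl g).le_opNorm ((u, 0) : P × N)
  rw [cl_apply, norm_smul_inl] at h1
  have e2 : ‖((u, 0) : P × N)‖ = ‖u‖ := by
    rw [Prod.norm_def]
    simp
  rw [e2] at h1
  have h2 := norm_le_aa g u
  by_contra hcon
  push Not at hcon
  nlinarith

lemma nu_arg_pos (g : IsoG P N) : 0 < max ‖cl g‖ ‖cl g⁻¹‖ :=
  lt_of_lt_of_le one_pos ((one_le_norm_cl g).trans (le_max_left _ _))

lemma exp_nu (g : IsoG P N) : Real.exp (nu g) = max ‖cl g‖ ‖cl g⁻¹‖ := Real.exp_log (nu_arg_pos g)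

lemma nu_nonneg (g : IsoG P N) : 0 ≤ nu g :=
  Real.log_nonneg ((one_le_norm_cl g).trans (le_max_left _ _))

lemma nu_inv (g : IsoG P N) : nu g⁻¹ = nu g := by
  unfold nu
  rw [inv_inv, max_comm]

lemma norm_cl_le (g : IsoG P N) : ‖cl g‖ ≤ Real.exp (nu g) := by
  rw [exp_nu]
  exact le_max_left _ _

lemma norm_smul_le (g : IsoG P N) (z : P × N) : ‖g • z‖ ≤ Real.exp (nu g) * ‖z‖ := by
  rw [← cl_apply]
  exact ((cl g).le_opNorm z).trans (mul_le_mul_of_nonneg_right (norm_cl_le g) (norm_nonneg _))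

lemma nu_mul (g h : IsoG P N) : nu (g * h) ≤ nu g + nu h := by
  unfold nu
  rw [← Real.log_mul (nu_arg_pos g).ne' (nu_arg_pos h).ne']
  refine Real.log_le_log (nu_arg_pos _) ?_
  refine max_le ?_ ?_
  · rw [cl_mul]
    refine (ContinuousLinearMap.opNorm_comp_le _ _).trans ?_
    exact mul_le_mul (le_max_left _ _) (le_max_left _ _) (norm_nonneg _) (nu_arg_pos g).le
  · rw [mul_inv_rev, cl_mul]
    refine (ContinuousLinearMap.opNorm_comp_le _ _).trans ?_
    rw [mul_comm]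
    exact mul_le_mul (le_max_right _ _) (le_max_right _ _) (norm_nonneg _) (nu_arg_pos g).le

lemma nu_one : nu (1 : IsoG P N) = 0 := by
  have h1 : cl (1 : IsoG P N) = ContinuousLinearMap.id ℝ (P × N) :=
    ContinuousLinearMap.ext fun _ => rfl
  unfold nu
  rw [inv_one, max_self, h1, ContinuousLinearMap.norm_id, Real.log_one]

/-- upper bound for `nu` -/
lemma nu_le {g : IsoG P N} {C : ℝ} (hC : 0 ≤ C) (h1 : ∀ z : P × N, ‖g • z‖ ≤ C * ‖z‖)
    (h2 : ∀ z : P × N, ‖g⁻¹ • z‖ ≤ C * ‖z‖) : nu g ≤ Real.log C := by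
  refine Real.log_le_log (nu_arg_pos g) (max_le ?_ ?_)
  · exact ContinuousLinearMap.opNorm_le_bound _ hC h1
  · exact ContinuousLinearMap.opNorm_le_bound _ hC h2

lemma norm_ai_pos (g : IsoG P N) : 0 < ‖ai g‖ := by
  obtain ⟨u, hu⟩ := exists_ne (0 : P)
  rw [norm_pos_iff]
  intro h
  have h1 := ai_aa g u
  rw [h] at h1
  exact hu h1.symm

lemma exp_neg_mu (g : IsoG P N) : Real.exp (-mu g) = ‖ai g‖ := by
  unfold mu
  rw [neg_neg, Real.exp_log (norm_ai_pos g)]

lemma norm_ai_le_one (g : IsoG P N) : ‖ai g‖ ≤ 1 :=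
  ContinuousLinearMap.opNorm_le_bound _ zero_le_one fun w => by
    rw [one_mul]
    exact ai_le g w

lemma mu_nonneg (g : IsoG P N) : 0 ≤ mu g := by
  unfold mu
  have := Real.log_nonpos (norm_nonneg (ai g)) (norm_ai_le_one g)
  linarith

lemma mu_lower (g : IsoG P N) (u : P) : Real.exp (mu g) * ‖u‖ ≤ ‖aa g u‖ := by
  have h1 : ‖u‖ ≤ ‖ai g‖ * ‖aa g u‖ := by
    have := (ai g).le_opNorm (aa g u)
    rwa [ai_aa] at this
  rw [← exp_neg_mu, Real.exp_neg] at h1
  have h2 : 0 < Real.exp (mu g) := Real.exp_pos _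
  calc Real.exp (mu g) * ‖u‖ ≤ Real.exp (mu g) * ((Real.exp (mu g))⁻¹ * ‖aa g u‖) := by gcongr
    _ = ‖aa g u‖ := by field_simp

lemma ai_le_exp (g : IsoG P N) (u : P) : ‖ai g u‖ ≤ Real.exp (-mu g) * ‖u‖ := by
  rw [exp_neg_mu]
  exact (ai g).le_opNorm u

/-- lower bound for `mu` -/
lemma le_mu {g : IsoG P N} {C : ℝ} (h : ∀ u, Real.exp C * ‖u‖ ≤ ‖aa g u‖) : C ≤ mu g := by
  have h1 : ‖ai g‖ ≤ Real.exp (-C) := by
    refine ContinuousLinearMap.opNorm_le_bound _ (Real.exp_pos _).le fun w => ?_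
    have h2 := h (ai g w)
    rw [aa_ai] at h2
    rw [Real.exp_neg]
    have h3 : 0 < Real.exp C := Real.exp_pos _
    calc ‖ai g w‖ = (Real.exp C)⁻¹ * (Real.exp C * ‖ai g w‖) := by field_simp
      _ ≤ (Real.exp C)⁻¹ * ‖w‖ := by gcongr
  rw [← exp_neg_mu, Real.exp_le_exp] at h1
  linarith

/-- the smallest singular value is attained -/
lemma exists_opt0 (g : IsoG P N) : ∃ u : P, ‖u‖ = 1 ∧ ‖aa g u‖ = Real.exp (mu g) := by
  have hc : IsCompact (Metric.sphere (0 : P) 1) := isCompact_sphere _ _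
  have hne : (Metric.sphere (0 : P) 1).Nonempty := NormedSpace.sphere_nonempty.mpr zero_le_one
  obtain ⟨u, hu, hmin⟩ := hc.exists_isMinOn hne
    ((aa g).continuous.norm.continuousOn)
  have hu1 : ‖u‖ = 1 := by simpa using hu
  refine ⟨u, hu1, le_antisymm ?_ ?_⟩
  · have hpos : 0 < ‖aa g u‖ := by
      have := norm_le_aa g u
      rw [hu1] at this
      linarith
    rw [← Real.log_le_iff_le_exp hpos]
    refine le_mu fun w => ?_
    rw [Real.exp_log hpos]
    by_cases hw : w = 0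
    · simp [hw]
    have hwn : 0 < ‖w‖ := norm_pos_iff.mpr hw
    have h1 := isMinOn_iff.mp hmin (‖w‖⁻¹ • w) (by simp [norm_smul, hwn.ne'])
    rw [map_smul, norm_smul, norm_inv, norm_norm] at h1
    calc ‖aa g u‖ * ‖w‖ ≤ (‖w‖⁻¹ * ‖aa g w‖) * ‖w‖ := by gcongr
      _ = ‖aa g w‖ := by field_simp
  · have := mu_lower g u
    rwa [hu1, mul_one] at this

/-- the optimal pair -/
lemma exists_opt (g : IsoG P N) : ∃ u v : P, ‖u‖ = 1 ∧ ‖v‖ = 1 ∧ aa g u = Real.exp (mu g) • v ∧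
    at' g v = Real.exp (mu g) • u := by
  obtain ⟨u, hu, hau⟩ := exists_opt0 g
  set E := Real.exp (mu g) with hE
  have hEp : 0 < E := Real.exp_pos _
  have key : ∀ w : P, inner ℝ (aa g u) (aa g w) = E ^ 2 * inner ℝ u w := by
    intro w
    have h1 : ∀ t : ℝ, 0 ≤ t * (2 * (inner ℝ (aa g u) (aa g w) - E ^ 2 * inner ℝ u w)) +
        t ^ 2 * (‖aa g w‖ ^ 2 - E ^ 2 * ‖w‖ ^ 2) := by
      intro t
      have h2 := mu_lower g (u + t • w)
      rw [← hE] at h2
      have h3 : (E * ‖u + t • w‖) ^ 2 ≤ ‖aa g (u + t • w)‖ ^ 2 := by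
        gcongr
      rw [mul_pow, map_add, map_smul, norm_add_sq_real, norm_add_sq_real, hau, hu, norm_smul,
        norm_smul, real_inner_smul_right, real_inner_smul_right, mul_pow, mul_pow, Real.norm_eq_abs,
        sq_abs] at h3
      nlinarith
    set X := 2 * (inner ℝ (aa g u) (aa g w) - E ^ 2 * inner ℝ u w) with hX
    set Y := ‖aa g w‖ ^ 2 - E ^ 2 * ‖w‖ ^ 2 with hY
    have h4 : X = 0 := by
      by_contra hX0
      have hXs : 0 < X ^ 2 := by positivity
      have hY1 : 0 < |Y| + 1 := by positivity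
      have h5 := h1 (-(X / (|Y| + 1)))
      have h6 : (X / (|Y| + 1)) ^ 2 * Y ≤ (X / (|Y| + 1)) ^ 2 * |Y| :=
        mul_le_mul_of_nonneg_left (le_abs_self Y) (sq_nonneg _)
      have h7 : (X / (|Y| + 1)) ^ 2 * |Y| < X ^ 2 / (|Y| + 1) := by
        rw [div_pow, div_mul_eq_mul_div, div_lt_div_iff₀ (by positivity) hY1]
        nlinarith
      have h8 : X / (|Y| + 1) * X = X ^ 2 / (|Y| + 1) := by ring
      nlinarith
    linarith
  refine ⟨u, E⁻¹ • aa g u, hu, ?_, ?_, ?_⟩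
  · rw [norm_smul, hau, norm_inv, Real.norm_of_nonneg hEp.le, inv_mul_cancel₀ hEp.ne']
  · rw [smul_smul, mul_inv_cancel₀ hEp.ne', one_smul]
  · refine ext_inner_right ℝ fun w => ?_
    rw [inner_at', real_inner_smul_left, real_inner_smul_left, key]
    field_simp

lemma aa_inv' (g : IsoG P N) : aa g = at' g⁻¹ := by
  rw [← aa_inv, inv_inv]

lemma mu_inv_le (g : IsoG P N) : mu g⁻¹ ≤ mu g := by
  obtain ⟨u, v, hu, hv, h1, h2⟩ := exists_opt g
  have h3 := mu_lower g⁻¹ v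
  rw [aa_inv, h2, hv, norm_smul, hu, mul_one, mul_one, Real.norm_of_nonneg (Real.exp_pos _).le,
    Real.exp_le_exp] at h3
  exact h3

lemma mu_inv (g : IsoG P N) : mu g⁻¹ = mu g := by
  refine le_antisymm (mu_inv_le g) ?_
  have := mu_inv_le g⁻¹
  rwa [inv_inv] at this

lemma aa_mul_le (k h : IsoG P N) (u : P) : ‖aa (k * h) u‖ ≤ Real.exp (nu k) * ‖aa h u‖ := by
  rw [← norm_smul_inl, ← norm_smul_inl, mul_smul]
  exact norm_smul_le k _

lemma mu_mul_le (k h : IsoG P N) : mu (k * h) ≤ nu k + mu h := by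
  obtain ⟨u, hu, hau⟩ := exists_opt0 h
  have h1 := mu_lower (k * h) u
  have h2 := aa_mul_le k h u
  rw [hu, mul_one] at h1
  rw [hau, ← Real.exp_add] at h2
  exact Real.exp_le_exp.mp (h1.trans h2)

lemma mu_mul_le' (h k : IsoG P N) : mu (h * k) ≤ mu h + nu k := by
  rw [← mu_inv, mul_inv_rev]
  refine (mu_mul_le _ _).trans ?_
  rw [nu_inv, mu_inv, add_comm]

lemma mu_one : mu (1 : IsoG P N) = 0 := by
  obtain ⟨u, hu, hau⟩ := exists_opt0 (1 : IsoG P N)
  have h1 : aa (1 : IsoG P N) u = u := rfl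
  rw [h1, hu] at hau
  have := Real.exp_eq_one_iff (mu (1 : IsoG P N)) |>.mp hau.symm
  exact this

lemma mu_le_nu (g : IsoG P N) : mu g ≤ nu g := by
  have := mu_mul_le g 1
  rwa [mul_one, mu_one, add_zero] at this

/-- lower bound in one step -/
lemma mu_mul_ge (k h : IsoG P N) : mu h - nu k ≤ mu (k * h) := by
  have := mu_mul_le k⁻¹ (k * h)
  rw [nu_inv, inv_mul_cancel_left] at this
  linarith

lemma mu_mul_ge' (h k : IsoG P N) : mu h - nu k ≤ mu (h * k) := by
  have := mu_mul_le' (h * k) k⁻¹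
  rw [nu_inv, mul_inv_cancel_right] at this
  linarith

/-- upper bound for `mu` from one vector -/
lemma mu_le_of {g : IsoG P N} {u : P} (hu : ‖u‖ = 1) {C : ℝ} (h : ‖aa g u‖ ≤ Real.exp C) :
    mu g ≤ C := by
  have h1 := mu_lower g u
  rw [hu, mul_one] at h1
  exact Real.exp_le_exp.mp (h1.trans h)

end

/-- determinant of the inverse -/
lemma det_ai (g : IsoG P N) : (aa g).det * (ai g).det = 1 := by
  have h1 : (aa g : P →ₗ[ℝ] P) ∘ₗ (ai g : P →ₗ[ℝ] P) = LinearMap.id :=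
    LinearMap.ext fun w => aa_ai g w
  have h2 := congrArg LinearMap.det h1
  rw [LinearMap.det_comp, LinearMap.det_id] at h2
  exact h2

lemma det_aa_ne (g : IsoG P N) : (aa g).det ≠ 0 := by
  intro h
  have := det_ai g
  rw [h, zero_mul] at this
  exact zero_ne_one this

lemma abs_det_aa_pos (g : IsoG P N) : 0 < |(aa g).det| := abs_pos.mpr (det_aa_ne g)

lemma norm_ai_le_one' (g : IsoG P N) : ‖ai g‖ ≤ 1 :=
  ContinuousLinearMap.opNorm_le_bound _ zero_le_one fun w => by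
    rw [one_mul]
    exact ai_le g w

lemma one_le_abs_det (g : IsoG P N) : 1 ≤ |(aa g).det| := by
  have h1 := det_ai g
  have h2 : |(ai g).det| ≤ 1 := (abs_det_le _).trans (pow_le_one₀ (norm_nonneg _) (norm_ai_le_one' g))
  have h3 : |(aa g).det| * |(ai g).det| = 1 := by
    rw [← abs_mul, h1, abs_one]
  nlinarith [abs_nonneg (aa g).det, abs_nonneg (ai g).det]

lemma exp_ld (g : IsoG P N) : Real.exp (ld g) = |(aa g).det| := Real.exp_log (abs_det_aa_pos g)

lemma ld_nonneg (g : IsoG P N) : 0 ≤ ld g := Real.log_nonneg (one_le_abs_det g)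

lemma det_at' (g : IsoG P N) : (at' g).det = (aa g).det := by
  have h := LinearMap.toMatrix_adjoint (stdOrthonormalBasis ℝ P) (stdOrthonormalBasis ℝ P)
    (aa g : P →ₗ[ℝ] P)
  have h2 := congrArg Matrix.det h
  rw [Matrix.det_conjTranspose, LinearMap.det_toMatrix, LinearMap.det_toMatrix] at h2
  simp only [star_trivial] at h2
  exact h2

lemma ld_inv (g : IsoG P N) : ld g⁻¹ = ld g := by
  unfold ld
  rw [aa_inv, det_at']

lemma tt_spec (g h : IsoG P N) : |(aa (g⁻¹ * h)).det| = |(aa g).det| * |(aa h).det| * tt g h := by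
  have h1 : (aa (g⁻¹ * h) : P →ₗ[ℝ] P) = (at' g : P →ₗ[ℝ] P) ∘ₗ (TT g h : P →ₗ[ℝ] P) ∘ₗ
      (aa h : P →ₗ[ℝ] P) := LinearMap.ext fun u => aa_inv_mul g h u
  have h2 : (aa (g⁻¹ * h)).det = (at' g).det * ((TT g h).det * (aa h).det) := by
    show LinearMap.det (aa (g⁻¹ * h) : P →ₗ[ℝ] P) = _
    rw [h1, LinearMap.det_comp, LinearMap.det_comp]
  rw [h2, det_at', abs_mul, abs_mul]
  unfold tt
  ring

lemma tt_pos (g h : IsoG P N) : 0 < tt g h := by
  have h1 := tt_spec g h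
  have h2 := abs_det_aa_pos (g⁻¹ * h)
  have h3 := abs_det_aa_pos g
  have h4 := abs_det_aa_pos h
  have h5 : 0 ≤ tt g h := abs_nonneg _
  rcases h5.lt_or_eq with h6 | h6
  · exact h6
  · rw [← h6, mul_zero] at h1
    linarith

lemma exp_neg_dl (g h : IsoG P N) : Real.exp (-dl g h) = tt g h := by
  unfold dl
  rw [show -(ld g + ld h - ld (g⁻¹ * h)) = ld (g⁻¹ * h) - (ld g + ld h) by ring, Real.exp_sub,
    Real.exp_add, exp_ld, exp_ld, exp_ld, tt_spec g h]
  have h3 := (abs_det_aa_pos g).ne'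
  have h4 := (abs_det_aa_pos h).ne'
  field_simp

lemma norm_TT_le (g h : IsoG P N) : ‖TT g h‖ ≤ 2 := by
  refine ContinuousLinearMap.opNorm_le_bound _ zero_le_two fun u => ?_
  rw [TT_apply]
  refine (norm_sub_le _ _).trans ?_
  have h1 := At_le g (AA h u)
  have h2 := AA_le h u
  linarith

lemma tt_le (g h : IsoG P N) : tt g h ≤ 2 ^ finrank ℝ P :=
  (abs_det_le _).trans (pow_le_pow_left₀ (norm_nonneg _) (norm_TT_le g h) _)

lemma neg_dl_le (g h : IsoG P N) : -dl g h ≤ finrank ℝ P * Real.log 2 := by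
  rw [← Real.exp_le_exp, exp_neg_dl, ← Real.log_pow, Real.exp_log (by positivity)]
  exact tt_le g h

lemma dl_symm (g h : IsoG P N) : dl g h = dl h g := by
  unfold dl
  rw [← ld_inv (g⁻¹ * h), mul_inv_rev, inv_inv]
  ring

lemma norm_At_sub (g h : IsoG P N) : ‖At g - At h‖ = ‖AA g - AA h‖ := by
  unfold At
  rw [← map_sub, LinearIsometryEquiv.norm_map]

lemma norm_TT_sub (g h g' h' : IsoG P N) :
    ‖TT g h - TT g' h'‖ ≤ ‖AA g - AA g'‖ + ‖AA h - AA h'‖ := by
  refine ContinuousLinearMap.opNorm_le_bound _ (by positivity) fun u => ?_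
  have e : (TT g h - TT g' h') u = -((At g - At g') (AA h u) + At g' ((AA h - AA h') u)) := by
    show TT g h u - TT g' h' u = _
    rw [TT_apply, TT_apply]
    show _ = -((At g (AA h u) - At g' (AA h u)) + At g' (AA h u - AA h' u))
    rw [map_sub]
    abel
  rw [e, norm_neg]
  refine (norm_add_le _ _).trans ?_
  rw [add_mul]
  have h1 : ‖(At g - At g') (AA h u)‖ ≤ ‖AA g - AA g'‖ * ‖u‖ := by
    refine ((At g - At g').le_opNorm _).trans ?_
    rw [norm_At_sub]
    exact mul_le_mul_of_nonneg_left (AA_le h u) (norm_nonneg _)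
  have h2 : ‖At g' ((AA h - AA h') u)‖ ≤ ‖AA h - AA h'‖ * ‖u‖ :=
    (At_le g' _).trans ((AA h - AA h').le_opNorm u)
  linarith

/-- transversality is Lipschitz in the contractions -/
lemma tt_sub_le (g h g' h' : IsoG P N) : |tt g h - tt g' h'| ≤
    finrank ℝ P * 2 ^ (finrank ℝ P - 1) * (‖AA g - AA g'‖ + ‖AA h - AA h'‖) := by
  unfold tt
  refine (abs_abs_sub_abs_le_abs_sub _ _).trans ?_
  refine (abs_det_sub_le _ _ (norm_TT_le g h) (norm_TT_le g' h')).trans ?_
  gcongr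
  exact norm_TT_sub g h g' h'

/-- the map `TT` is bounded below by the transversality -/
lemma tt_mul_le (g h : IsoG P N) (u : P) :
    tt g h * ‖u‖ ≤ 2 ^ (finrank ℝ P - 1) * ‖TT g h u‖ := by
  refine (abs_det_mul_le (TT g h) u).trans ?_
  gcongr
  exact norm_TT_le g h

section
variable [Nontrivial P]

lemma ld_mul_le (k h : IsoG P N) : ld (k * h) ≤ finrank ℝ P * nu k + ld h := by
  have h1 : |(aa (k * h)).det * (ai h).det| ≤ Real.exp (nu k) ^ finrank ℝ P := by
    have h2 : (aa (k * h)).det * (ai h).det = ((aa (k * h)).comp (ai h)).det := by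
      symm
      exact LinearMap.det_comp _ _
    rw [h2]
    refine (abs_det_le _).trans (pow_le_pow_left₀ (norm_nonneg _) ?_ _)
    refine ContinuousLinearMap.opNorm_le_bound _ (Real.exp_pos _).le fun u => ?_
    show ‖aa (k * h) (ai h u)‖ ≤ _
    have := aa_mul_le k h (ai h u)
    rwa [aa_ai] at this
  have h3 : |(aa (k * h)).det| ≤ Real.exp (nu k) ^ finrank ℝ P * |(aa h).det| := by
    have h4 := det_ai h
    calc |(aa (k * h)).det| = |(aa (k * h)).det * ((aa h).det * (ai h).det)| := by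
          rw [h4, mul_one]
      _ = |(aa (k * h)).det * (ai h).det| * |(aa h).det| := by
          rw [← abs_mul]
          congr 1
          ring
      _ ≤ _ := by gcongr
  have h5 : Real.exp (ld (k * h)) ≤ Real.exp (finrank ℝ P * nu k + ld h) := by
    rw [exp_ld, Real.exp_add, exp_ld, Real.exp_nat_mul]
    exact h3
  exact Real.exp_le_exp.mp h5

lemma ld_mul_le' (h k : IsoG P N) : ld (h * k) ≤ ld h + finrank ℝ P * nu k := by
  rw [← ld_inv, mul_inv_rev]
  refine (ld_mul_le _ _).trans ?_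
  rw [nu_inv, ld_inv, add_comm]

lemma ld_mul_ge (k h : IsoG P N) : ld h - finrank ℝ P * nu k ≤ ld (k * h) := by
  have := ld_mul_le k⁻¹ (k * h)
  rw [nu_inv, inv_mul_cancel_left] at this
  linarith

lemma ld_mul_ge' (h k : IsoG P N) : ld h - finrank ℝ P * nu k ≤ ld (h * k) := by
  have := ld_mul_le' (h * k) k⁻¹
  rw [nu_inv, mul_inv_cancel_right] at this
  linarith

lemma ld_one : ld (1 : IsoG P N) = 0 := by
  have h1 : aa (1 : IsoG P N) = ContinuousLinearMap.id ℝ P := ContinuousLinearMap.ext fun _ => rfl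
  unfold ld
  rw [h1]
  have : (ContinuousLinearMap.id ℝ P).det = 1 := LinearMap.det_id
  rw [this]
  simp

lemma ld_le_nu (g : IsoG P N) : ld g ≤ finrank ℝ P * nu g := by
  have := ld_mul_le g 1
  rwa [mul_one, ld_one, add_zero] at this

/-- moving one step changes the contraction little -/
lemma step_le (g h : IsoG P N) :
    ‖AA g - AA h‖ ≤ Real.exp (-mu g) + Real.exp (nu (g⁻¹ * h)) * Real.exp (-mu h) := by
  refine ContinuousLinearMap.opNorm_le_bound _ (by positivity) fun u => ?_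
  have h1 := step_apply g h u
  have h2 := ai_le_exp g u
  have h3 := ai_le_exp h u
  have h4 := norm_cl_le (g⁻¹ * h)
  calc ‖(AA g - AA h) u‖ ≤ ‖ai g u‖ + ‖cl (g⁻¹ * h)‖ * ‖ai h u‖ := h1
    _ ≤ Real.exp (-mu g) * ‖u‖ + Real.exp (nu (g⁻¹ * h)) * (Real.exp (-mu h) * ‖u‖) := by
        gcongr
    _ = _ := by ring

/-- transversal directions: the smallest singular values multiply up to the transversality -/
lemma mu_add_le (g h : IsoG P N) :
    mu g + mu h ≤ mu (g⁻¹ * h) + dl g h + finrank ℝ P * Real.log 2 := by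
  have h0 : mu g + mu h - dl g h - finrank ℝ P * Real.log 2 ≤ mu (g⁻¹ * h) := by
    refine le_mu fun u => ?_
    rw [aa_inv_mul, ← TT_apply]
    have h1 := mu_lower h u
    have h2 := tt_mul_le g h (aa h u)
    have h3 : Real.exp (mu g) * ‖TT g h (aa h u)‖ ≤ ‖at' g (TT g h (aa h u))‖ := by
      have := mu_lower g⁻¹ (TT g h (aa h u))
      rwa [mu_inv, aa_inv] at this
    have e1 : Real.exp (mu g + mu h - dl g h - finrank ℝ P * Real.log 2) =
        Real.exp (mu g) * (tt g h * ((2 ^ finrank ℝ P)⁻¹ * Real.exp (mu h))) := by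
      rw [← exp_neg_dl, show mu g + mu h - dl g h - finrank ℝ P * Real.log 2 =
        mu g + (-dl g h + (-(finrank ℝ P * Real.log 2) + mu h)) by ring, Real.exp_add,
        Real.exp_add, Real.exp_add, Real.exp_neg (_ * _), ← Real.log_pow,
        Real.exp_log (by positivity)]
    rw [e1]
    refine le_trans ?_ h3
    rw [mul_assoc]
    refine mul_le_mul_of_nonneg_left ?_ (Real.exp_pos _).le
    have h4 : tt g h * (Real.exp (mu h) * ‖u‖) ≤ 2 ^ (finrank ℝ P - 1) * ‖TT g h (aa h u)‖ :=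
      (mul_le_mul_of_nonneg_left h1 (tt_pos g h).le).trans h2
    have h5 : (2 : ℝ) ^ (finrank ℝ P - 1) ≤ 2 ^ finrank ℝ P :=
      pow_le_pow_right₀ one_le_two (Nat.sub_le _ _)
    calc tt g h * ((2 ^ finrank ℝ P)⁻¹ * Real.exp (mu h)) * ‖u‖
        = (2 ^ finrank ℝ P)⁻¹ * (tt g h * (Real.exp (mu h) * ‖u‖)) := by ring
      _ ≤ (2 ^ finrank ℝ P)⁻¹ * (2 ^ (finrank ℝ P) * ‖TT g h (aa h u)‖) := by
          refine mul_le_mul_of_nonneg_left (h4.trans ?_) (by positivity)
          exact mul_le_mul_of_nonneg_right h5 (norm_nonneg _)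
      _ = ‖TT g h (aa h u)‖ := by field_simp
  linarith

/-- change of base point for the transversality -/
lemma dl_base (f f' g h : IsoG P N) :
    dl (f⁻¹ * g) (f⁻¹ * h) ≤ dl (f'⁻¹ * g) (f'⁻¹ * h) + 2 * finrank ℝ P * nu (f⁻¹ * f') := by
  unfold dl
  have e1 : (f⁻¹ * g)⁻¹ * (f⁻¹ * h) = g⁻¹ * h := by group
  have e2 : (f'⁻¹ * g)⁻¹ * (f'⁻¹ * h) = g⁻¹ * h := by group
  rw [e1, e2]
  have h1 := ld_mul_le (f⁻¹ * f') (f'⁻¹ * g)
  have h2 := ld_mul_le (f⁻¹ * f') (f'⁻¹ * h)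
  rw [show f⁻¹ * f' * (f'⁻¹ * g) = f⁻¹ * g by group] at h1
  rw [show f⁻¹ * f' * (f'⁻¹ * h) = f⁻¹ * h by group] at h2
  linarith

lemma dl_le_nu (g h : IsoG P N) : dl g h ≤ 2 * finrank ℝ P * nu g := by
  unfold dl
  have h1 := ld_le_nu g
  have h2 := ld_mul_le g (g⁻¹ * h)
  rw [mul_inv_cancel_left] at h2
  linarith

end

end Pool.Agent.Helper60.CQ
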