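import Mathlib

/-!
Project CQ (MP_b66f9f_gt), file Stmt: the definitions of the final statement.
-/

set_option autoImplicit false

namespace Pool.Agent.Helper60.CQ.SF

/-- the invertible real matrices of size `p + 1 + q` -/
abbrev G (p q : ℕ) : Type := Matrix.GeneralLinearGroup (Fin (p + 1 + q)) ℝ

/-- the bilinear form of signature `(p+1, q)` on `ℝ^(p+1+q)`, coordinates `x_0, ..., x_(p+q)` -/
def form (p q : ℕ) (x y : Fin (p + 1 + q) → ℝ) : ℝ :=
  ∑ i : Fin (p + 1 + q), (if i.val ≤ p then x i * y i else -(x i * y i))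

/-- the model space `x_0^2 + ... + x_p^2 - x_(p+1)^2 - ... - x_(p+q)^2 = 1` -/
def X (p q : ℕ) : Set (Fin (p + 1 + q) → ℝ) := {x | form p q x x = 1}

/-- the action of a matrix on a vector -/
def act (p q : ℕ) (g : G p q) (x : Fin (p + 1 + q) → ℝ) : Fin (p + 1 + q) → ℝ := g.1.mulVec x

/-- `Γ` is contained in the orthogonal group `O(p+1, q)` of the form -/
def Isometric (p q : ℕ) (Γ : Subgroup (G p q)) : Prop :=
  ∀ g ∈ Γ, ∀ x y, form p q (act p q g x) (act p q g y) = form p q x y

/-- `Γ` acts properly discontinuously on `X p q` -/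
def ProperlyDiscontinuous (p q : ℕ) (Γ : Subgroup (G p q)) : Prop :=
  ∀ K : Set (Fin (p + 1 + q) → ℝ), K ⊆ X p q → IsCompact K →
    {g | g ∈ Γ ∧ (act p q g '' K ∩ K).Nonempty}.Finite

/-- two points of `X p q` lie in one orbit of `Γ` -/
def orbitRel (p q : ℕ) (Γ : Subgroup (G p q)) (x y : X p q) : Prop :=
  ∃ g ∈ Γ, act p q g x = y

/-- the orbit space of `X p q` under `Γ`, with the quotient topology, is compact -/
def Cocompact (p q : ℕ) (Γ : Subgroup (G p q)) : Prop := CompactSpace (Quot (orbitRel p q Γ))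

end Pool.Agent.Helper60.CQ.SF
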