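import Pool.Agent.Helper60.CQ.Core

/-!
Project CQ (MP_b66f9f_gt), file UT: uniform transversality of regular chains.
Along a regular chain `ld` is almost additive.
-/

set_option autoImplicit false
set_option linter.unusedSectionVars false

open Set Filter Topology Module

namespace Pool.Agent.Helper60.CQ

variable {P N : Type*} [NormedAddCommGroup P] [InnerProductSpace ℝ P] [FiniteDimensional ℝ P]
  [NormedAddCommGroup N] [InnerProductSpace ℝ N] [FiniteDimensional ℝ N] [Nontrivial P]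

/-- the constant of the convergence of contractions along a chain -/
noncomputable def C1 (C c : ℝ) : ℝ := 2 * Real.exp (2 * C) / (1 - Real.exp (-c))

lemma one_sub_exp_pos {c : ℝ} (hc : 0 < c) : 0 < 1 - Real.exp (-c) := by
  have : Real.exp (-c) < 1 := by
    rw [Real.exp_lt_one_iff]
    linarith
  linarith

lemma C1_pos (C : ℝ) {c : ℝ} (hc : 0 < c) : 0 < C1 C c :=
  div_pos (by positivity) (one_sub_exp_pos hc)

lemma C1_mul (C : ℝ) {c : ℝ} (hc : 0 < c) : C1 C c * (1 - Real.exp (-c)) = 2 * Real.exp (2 * C) :=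
  div_mul_cancel₀ _ (one_sub_exp_pos hc).ne'

lemma Reg.nu_le {C c : ℝ} {n : ℕ} {R : ℕ → IsoG P N} (h : Reg C c n R) {j k : ℕ} (hjk : j ≤ k)
    (hk : k ≤ n) : nu ((R j)⁻¹ * R k) ≤ C * ((k : ℝ) - j) := by
  induction k, hjk using Nat.le_induction with
  | base => simp [nu_one]
  | succ k hjk ih =>
    have h1 := ih (by omega)
    have h2 := h.1 k (by omega)
    have h3 := nu_mul ((R j)⁻¹ * R k) ((R k)⁻¹ * R (k + 1))
    rw [show (R j)⁻¹ * R k * ((R k)⁻¹ * R (k + 1)) = (R j)⁻¹ * R (k + 1) by group] at h3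
    push_cast
    nlinarith

/-- convergence on the right of the base point -/
lemma conv_right {C c : ℝ} (hC : 0 ≤ C) (hc : 0 < c) {n : ℕ} {R : ℕ → IsoG P N} (h : Reg C c n R)
    {b k' k : ℕ} (hbk : b ≤ k') (hkk : k' ≤ k) (hk : k ≤ n) :
    ‖AA ((R b)⁻¹ * R k') - AA ((R b)⁻¹ * R k)‖ ≤
      C1 C c * (Real.exp (-(c * ((k' : ℝ) - b))) - Real.exp (-(c * ((k : ℝ) - b)))) := by
  induction k, hkk using Nat.le_induction with
  | base => simp
  | succ k hkk ih =>
    have h1 := ih (by omega)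
    have h2 := step_le ((R b)⁻¹ * R k) ((R b)⁻¹ * R (k + 1))
    rw [show ((R b)⁻¹ * R k)⁻¹ * ((R b)⁻¹ * R (k + 1)) = (R k)⁻¹ * R (k + 1) by group] at h2
    have h3 := h.1 k (by omega)
    have h4 := h.2 b k (by omega) (by omega)
    have h5 := h.2 b (k + 1) (by omega) (by omega)
    have h6 : Real.exp (-mu ((R b)⁻¹ * R k)) ≤ Real.exp (2 * C) * Real.exp (-(c * ((k : ℝ) - b))) := by
      rw [← Real.exp_add, Real.exp_le_exp]
      linarith
    have h7 : Real.exp (nu ((R k)⁻¹ * R (k + 1))) * Real.exp (-mu ((R b)⁻¹ * R (k + 1))) ≤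
        Real.exp (2 * C) * Real.exp (-(c * ((k : ℝ) - b))) := by
      rw [← Real.exp_add, ← Real.exp_add, Real.exp_le_exp]
      push_cast at h5
      nlinarith
    have h8 : C1 C c * (Real.exp (-(c * ((k : ℝ) - b))) - Real.exp (-(c * (((k + 1 : ℕ) : ℝ) - b))))
        = 2 * Real.exp (2 * C) * Real.exp (-(c * ((k : ℝ) - b))) := by
      rw [← C1_mul C hc]
      push_cast
      rw [show -(c * ((k : ℝ) + 1 - b)) = -c + -(c * ((k : ℝ) - b)) by ring, Real.exp_add]
      ring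
    calc ‖AA ((R b)⁻¹ * R k') - AA ((R b)⁻¹ * R (k + 1))‖
        ≤ ‖AA ((R b)⁻¹ * R k') - AA ((R b)⁻¹ * R k)‖ +
          ‖AA ((R b)⁻¹ * R k) - AA ((R b)⁻¹ * R (k + 1))‖ := norm_sub_le_norm_sub_add_norm_sub _ _ _
      _ ≤ C1 C c * (Real.exp (-(c * ((k' : ℝ) - b))) - Real.exp (-(c * ((k : ℝ) - b)))) +
          C1 C c * (Real.exp (-(c * ((k : ℝ) - b))) -
            Real.exp (-(c * (((k + 1 : ℕ) : ℝ) - b)))) := by
          rw [h8]
          linarith
      _ = _ := by ring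

/-- convergence on the left of the base point -/
lemma conv_left {C c : ℝ} (hC : 0 ≤ C) (hc : 0 < c) {n : ℕ} {R : ℕ → IsoG P N} (h : Reg C c n R)
    {b i i' : ℕ} (hii : i ≤ i') (hib : i' ≤ b) (hb : b ≤ n) :
    ‖AA ((R b)⁻¹ * R i) - AA ((R b)⁻¹ * R i')‖ ≤
      C1 C c * (Real.exp (-(c * ((b : ℝ) - i'))) - Real.exp (-(c * ((b : ℝ) - i)))) := by
  induction i', hii using Nat.le_induction with
  | base => simp
  | succ k hkk ih =>
    have h1 := ih (by omega)
    have h2 := step_le ((R b)⁻¹ * R k) ((R b)⁻¹ * R (k + 1))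
    rw [show ((R b)⁻¹ * R k)⁻¹ * ((R b)⁻¹ * R (k + 1)) = (R k)⁻¹ * R (k + 1) by group] at h2
    have h3 := h.1 k (by omega)
    have h4 := h.2 k b (by omega) (by omega)
    have h5 := h.2 (k + 1) b (by omega) (by omega)
    rw [← mu_inv, show ((R k)⁻¹ * R b)⁻¹ = (R b)⁻¹ * R k by group] at h4
    rw [← mu_inv, show ((R (k + 1))⁻¹ * R b)⁻¹ = (R b)⁻¹ * R (k + 1) by group] at h5
    push_cast at h5
    have h6 : Real.exp (-mu ((R b)⁻¹ * R k)) ≤
        Real.exp (2 * C) * Real.exp (-(c * ((b : ℝ) - (k + 1)))) := by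
      rw [← Real.exp_add, Real.exp_le_exp]
      nlinarith
    have h7 : Real.exp (nu ((R k)⁻¹ * R (k + 1))) * Real.exp (-mu ((R b)⁻¹ * R (k + 1))) ≤
        Real.exp (2 * C) * Real.exp (-(c * ((b : ℝ) - (k + 1)))) := by
      rw [← Real.exp_add, ← Real.exp_add, Real.exp_le_exp]
      nlinarith
    have h8 : C1 C c * (Real.exp (-(c * ((b : ℝ) - (k + 1)))) - Real.exp (-(c * ((b : ℝ) - k))))
        = 2 * Real.exp (2 * C) * Real.exp (-(c * ((b : ℝ) - (k + 1)))) := by
      rw [← C1_mul C hc]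
      rw [show -(c * ((b : ℝ) - k)) = -c + -(c * ((b : ℝ) - (k + 1))) by ring, Real.exp_add]
      ring
    push_cast
    calc ‖AA ((R b)⁻¹ * R i) - AA ((R b)⁻¹ * R (k + 1))‖
        ≤ ‖AA ((R b)⁻¹ * R i) - AA ((R b)⁻¹ * R k)‖ +
          ‖AA ((R b)⁻¹ * R k) - AA ((R b)⁻¹ * R (k + 1))‖ := norm_sub_le_norm_sub_add_norm_sub _ _ _
      _ ≤ C1 C c * (Real.exp (-(c * ((b : ℝ) - k))) - Real.exp (-(c * ((b : ℝ) - i)))) +
          C1 C c * (Real.exp (-(c * ((b : ℝ) - (k + 1)))) - Real.exp (-(c * ((b : ℝ) - k)))) := by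
          rw [h8]
          linarith
      _ = _ := by ring

/-- uniform transversality -/
theorem UT (P N : Type*) [NormedAddCommGroup P] [InnerProductSpace ℝ P] [FiniteDimensional ℝ P]
    [NormedAddCommGroup N] [InnerProductSpace ℝ N] [FiniteDimensional ℝ N] [Nontrivial P]
    {C c : ℝ} (hC : 0 ≤ C) (hc : 0 < c) : ∃ U : ℝ, 0 ≤ U ∧ ∀ (n : ℕ) (R : ℕ → IsoG P N),
      Reg C c n R → ∀ i j k : ℕ, i ≤ j → j ≤ k → k ≤ n →
      dl ((R j)⁻¹ * R i) ((R j)⁻¹ * R k) ≤ U := by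
  set m : ℝ := (finrank ℝ P : ℝ) with hm
  have hm0 : 0 ≤ m := Nat.cast_nonneg _
  set D3 : ℝ := 1 + m * 2 ^ (finrank ℝ P - 1) * (2 * C1 C c) with hD3
  have hC1 := C1_pos C hc
  have hD3' : 1 ≤ D3 := by
    rw [hD3]
    have : 0 ≤ m * 2 ^ (finrank ℝ P - 1) * (2 * C1 C c) := by positivity
    linarith
  set K : ℝ := m * C + Real.log D3 with hK
  have hlog : 0 ≤ Real.log D3 := Real.log_nonneg hD3'
  obtain ⟨I, hI⟩ := exists_nat_gt (2 * K / c)
  have hI' : K < c * I / 2 := by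
    rw [div_lt_iff₀ hc] at hI
    linarith
  set L : ℕ := 2 ^ I with hL
  set U : ℝ := (2 * m * C + c) * L with hU
  have hU0 : 0 ≤ U := by positivity
  refine ⟨U, hU0, fun n R h i j k hij hjk hk => ?_⟩
  by_contra hcon
  push Not at hcon
  -- the right side is long
  have hlong : j + L ≤ k := by
    by_contra hlt
    push Not at hlt
    have h1 := dl_le_nu ((R j)⁻¹ * R k) ((R j)⁻¹ * R i)
    rw [dl_symm] at h1
    have h2 := h.nu_le hjk hk
    have h3 : (k : ℝ) - j ≤ L := by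
      have : (k : ℝ) ≤ j + L := by exact_mod_cast hlt.le
      linarith
    have h4 : 2 * m * nu ((R j)⁻¹ * R k) ≤ 2 * m * (C * L) := by
      refine mul_le_mul_of_nonneg_left (h2.trans ?_) (by positivity)
      exact mul_le_mul_of_nonneg_left h3 hC
    have h5 : 0 < (L : ℝ) := by positivity
    nlinarith
  -- small transversality at all base points of the window
  have hwin : ∀ a s : ℕ, j ≤ a → a + 2 * s ≤ j + L → 1 ≤ s →
      ld ((R a)⁻¹ * R (a + 2 * s)) ≤ ld ((R a)⁻¹ * R (a + s)) + ld ((R (a + s))⁻¹ * R (a + 2 * s))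
        - c * s + Real.log D3 := by
    intro a s ha has hs
    set b := a + s with hb
    have h1 := dl_base (R j) (R b) (R i) (R k)
    have h2 := h.nu_le (j := j) (k := b) (by omega) (by omega)
    have h3 : (b : ℝ) - j ≤ L := by
      have : b ≤ j + L := by omega
      have : (b : ℝ) ≤ j + L := by exact_mod_cast this
      linarith
    have h4 : 2 * m * nu ((R j)⁻¹ * R b) ≤ 2 * m * (C * L) := by
      refine mul_le_mul_of_nonneg_left (h2.trans ?_) (by positivity)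
      exact mul_le_mul_of_nonneg_left h3 hC
    have h5 : c * L < dl ((R b)⁻¹ * R i) ((R b)⁻¹ * R k) := by nlinarith
    have hsL : (s : ℝ) ≤ L := by
      have : s ≤ L := by omega
      exact_mod_cast this
    have h6 : tt ((R b)⁻¹ * R i) ((R b)⁻¹ * R k) ≤ Real.exp (-(c * s)) := by
      rw [← exp_neg_dl, Real.exp_le_exp]
      nlinarith
    have h7 := conv_left hC hc h (b := b) (i := i) (i' := a) (by omega) (by omega) (by omega)
    have h8 := conv_right hC hc h (b := b) (k' := a + 2 * s) (k := k) (by omega) (by omega) hk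
    have h9 := tt_sub_le ((R b)⁻¹ * R a) ((R b)⁻¹ * R (a + 2 * s)) ((R b)⁻¹ * R i) ((R b)⁻¹ * R k)
    rw [norm_sub_rev (AA ((R b)⁻¹ * R a))] at h9
    have e1 : (b : ℝ) - a = s := by
      rw [hb]
      push_cast
      ring
    have e2 : ((a + 2 * s : ℕ) : ℝ) - b = s := by
      rw [hb]
      push_cast
      ring
    rw [e1] at h7
    rw [e2] at h8
    have h10 : ‖AA ((R b)⁻¹ * R i) - AA ((R b)⁻¹ * R a)‖ ≤ C1 C c * Real.exp (-(c * s)) := by
      refine h7.trans (mul_le_mul_of_nonneg_left ?_ hC1.le)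
      linarith [Real.exp_pos (-(c * ((b : ℝ) - i)))]
    have h11 : ‖AA ((R b)⁻¹ * R (a + 2 * s)) - AA ((R b)⁻¹ * R k)‖ ≤
        C1 C c * Real.exp (-(c * s)) := by
      refine h8.trans (mul_le_mul_of_nonneg_left ?_ hC1.le)
      linarith [Real.exp_pos (-(c * ((k : ℝ) - b)))]
    have h12 : tt ((R b)⁻¹ * R a) ((R b)⁻¹ * R (a + 2 * s)) ≤ D3 * Real.exp (-(c * s)) := by
      have h13 := (le_abs_self _).trans h9
      have h14 : m * 2 ^ (finrank ℝ P - 1) * (‖AA ((R b)⁻¹ * R i) - AA ((R b)⁻¹ * R a)‖ +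
          ‖AA ((R b)⁻¹ * R (a + 2 * s)) - AA ((R b)⁻¹ * R k)‖) ≤
          m * 2 ^ (finrank ℝ P - 1) * (2 * C1 C c * Real.exp (-(c * s))) := by
        refine mul_le_mul_of_nonneg_left ?_ (by positivity)
        linarith
      rw [hD3]
      nlinarith
    rw [← exp_neg_dl] at h12
    have h15 : -dl ((R b)⁻¹ * R a) ((R b)⁻¹ * R (a + 2 * s)) ≤ Real.log D3 + -(c * s) := by
      rw [← Real.exp_le_exp, Real.exp_add, Real.exp_log (by linarith)]
      exact h12
    unfold dl at h15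
    rw [show ((R b)⁻¹ * R a)⁻¹ * ((R b)⁻¹ * R (a + 2 * s)) = (R a)⁻¹ * R (a + 2 * s) by group,
      ← ld_inv ((R b)⁻¹ * R a), show ((R b)⁻¹ * R a)⁻¹ = (R a)⁻¹ * R b by group] at h15
    linarith
  -- dyadic induction
  have hdy : ∀ r : ℕ, r ≤ I → ∀ a : ℕ, j ≤ a → a + 2 ^ r ≤ j + L →
      ld ((R a)⁻¹ * R (a + 2 ^ r)) ≤ 2 ^ r * (K - c * r / 2) - Real.log D3 := by
    intro r
    induction r with
    | zero =>
      intro _ a ha haL
      have h1 := ld_le_nu ((R a)⁻¹ * R (a + 2 ^ 0))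
      have h2 := h.1 a (by rw [pow_zero] at haL; omega)
      rw [pow_zero] at h1 ⊢
      have h3 : m * nu ((R a)⁻¹ * R (a + 1)) ≤ m * C := mul_le_mul_of_nonneg_left h2 hm0
      rw [hK]
      push_cast
      linarith
    | succ r ih =>
      intro hr a ha haL
      have e : 2 ^ (r + 1) = 2 * 2 ^ r := pow_succ' 2 r
      rw [e] at haL ⊢
      have h1 := hwin a (2 ^ r) ha haL Nat.one_le_two_pow
      have h2 := ih (by omega) a ha (by omega)
      have h3 := ih (by omega) (a + 2 ^ r) (by omega) (by omega)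
      rw [show a + 2 ^ r + 2 ^ r = a + 2 * 2 ^ r by ring] at h3
      push_cast at h1 ⊢
      rw [pow_succ]
      nlinarith
  have h1 := hdy I le_rfl j le_rfl le_rfl
  have h2 := ld_nonneg ((R j)⁻¹ * R (j + 2 ^ I))
  have h3 : (2 : ℝ) ^ I * (K - c * I / 2) < 0 :=
    mul_neg_of_pos_of_neg (by positivity) (by linarith)
  linarith

end Pool.Agent.Helper60.CQ
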