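import Pool.Agent.Helper60.CQ.Core

/-!
Project CQ (MP_b66f9f_gt), file WQ: vectors which are bounded at two transversal elements are bounded
at the base point; and a lower bound for the P-component of points of the quadric.
-/

set_option autoImplicit false
set_option linter.unusedSectionVars false

open Set Filter Topology Module

namespace Pool.Agent.Helper60.CQ

section
variable {P N : Type*} [NormedAddCommGroup P] [InnerProductSpace ℝ P] [FiniteDimensional ℝ P]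
  [NormedAddCommGroup N] [InnerProductSpace ℝ N] [FiniteDimensional ℝ N]

lemma alpha_le (g : IsoG P N) (z : P × N) : ‖z.1 - At g z.2‖ ≤ ‖g⁻¹ • z‖ := by
  have h1 := inv_fst g z
  have h2 := norm_le_aa g⁻¹ (z.1 - At g z.2)
  rw [aa_inv, ← h1] at h2
  exact h2.trans (norm_fst_le _)

lemma near_graph (h : IsoG P N) (z : P × N) :
    ‖z.2 - AA h z.1‖ ^ 2 ≤ -bf z z + 2 * (‖h⁻¹ • z‖ * ‖z.1‖) := by
  have h1 := alpha_le h z
  rw [norm_sub_sq_real, bf_self]
  have h2 := AA_le h z.1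
  have h3 : ‖AA h z.1‖ ^ 2 ≤ ‖z.1‖ ^ 2 := by gcongr
  have h4 : inner ℝ z.2 (AA h z.1) = ‖z.1‖ ^ 2 - inner ℝ (z.1 - At h z.2) z.1 := by
    rw [inner_sub_left, real_inner_self_eq_norm_sq, inner_At]
    ring
  have h5 := real_inner_le_norm (z.1 - At h z.2) z.1
  have h6 : ‖z.1 - At h z.2‖ * ‖z.1‖ ≤ ‖h⁻¹ • z‖ * ‖z.1‖ := by gcongr
  rw [h4]
  linarith

lemma transversal_le (g h : IsoG P N) {U : ℝ} (hU : dl g h ≤ U) (z : P × N) :
    ‖z.1‖ ≤ Real.exp U * 2 ^ (finrank ℝ P - 1) * (‖z.1 - At g z.2‖ + ‖z.2 - AA h z.1‖) := by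
  have h1 := tt_mul_le g h z.1
  rw [← exp_neg_dl] at h1
  have h2 : Real.exp (-U) ≤ Real.exp (-dl g h) := by
    rw [Real.exp_le_exp]
    linarith
  have h3 : ‖TT g h z.1‖ ≤ ‖z.1 - At g z.2‖ + ‖z.2 - AA h z.1‖ := by
    have e : TT g h z.1 = (z.1 - At g z.2) + At g (z.2 - AA h z.1) := by
      rw [TT_apply, map_sub]
      abel
    rw [e]
    refine (norm_add_le _ _).trans ?_
    have := At_le g (z.2 - AA h z.1)
    linarith
  have h4 : Real.exp (-U) * ‖z.1‖ ≤ 2 ^ (finrank ℝ P - 1) *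
      (‖z.1 - At g z.2‖ + ‖z.2 - AA h z.1‖) := by
    refine (mul_le_mul_of_nonneg_right h2 (norm_nonneg _)).trans (h1.trans ?_)
    gcongr
  calc ‖z.1‖ = Real.exp U * (Real.exp (-U) * ‖z.1‖) := by
        rw [← mul_assoc, ← Real.exp_add, add_neg_cancel, Real.exp_zero, one_mul]
    _ ≤ Real.exp U * (2 ^ (finrank ℝ P - 1) * (‖z.1 - At g z.2‖ + ‖z.2 - AA h z.1‖)) := by gcongr
    _ = _ := by ring

end

variable (P N : Type*) [NormedAddCommGroup P] [InnerProductSpace ℝ P] [FiniteDimensional ℝ P]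
  [NormedAddCommGroup N] [InnerProductSpace ℝ N] [FiniteDimensional ℝ N]

theorem WQ (U C : ℝ) (hC : 0 ≤ C) : ∃ C' : ℝ, 0 ≤ C' ∧ ∀ g h : IsoG P N, dl g h ≤ U →
    ∀ z : P × N, |bf z z| ≤ 4 → ‖g⁻¹ • z‖ ≤ C → ‖h⁻¹ • z‖ ≤ C → ‖z‖ ≤ C' := by
  set K := Real.exp U * 2 ^ (finrank ℝ P - 1) with hK
  have hK0 : 0 < K := by positivity
  refine ⟨2 * (K * C + 1 + K ^ 2 * (C + 1)) + 2, by positivity, fun g h hd z hz hg hh => ?_⟩
  have h1 := transversal_le g h hd z
  rw [← hK] at h1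
  have h2 := near_graph h z
  have h3 := (alpha_le g z).trans hg
  have hz' := abs_le.mp hz
  set X := ‖z.1‖ with hX
  set v := ‖z.2 - AA h z.1‖ with hv
  have hX0 : 0 ≤ X := norm_nonneg _
  have hv0 : 0 ≤ v := norm_nonneg _
  have h4 : v ^ 2 ≤ 4 + 2 * C * X := by
    have : ‖h⁻¹ • z‖ * X ≤ C * X := by gcongr
    linarith [hz'.1]
  have h5 : K * v ≤ v ^ 2 / (4 * (C + 1)) + K ^ 2 * (C + 1) := by
    have hC1 : 0 < C + 1 := by linarith
    have h6 : v ^ 2 / (4 * (C + 1)) + K ^ 2 * (C + 1) - K * v =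
        (v / 2 - K * (C + 1)) ^ 2 / (C + 1) := by
      field_simp
      ring
    have h7 : 0 ≤ (v / 2 - K * (C + 1)) ^ 2 / (C + 1) := by positivity
    linarith
  have h6 : v ^ 2 / (4 * (C + 1)) ≤ 1 + X / 2 := by
    rw [div_le_iff₀ (by linarith)]
    nlinarith
  have h7 : X ≤ K * (C + v) := h1.trans (by gcongr)
  have h8 : X ≤ 2 * (K * C + 1 + K ^ 2 * (C + 1)) := by nlinarith
  have h9 : ‖z.2‖ ≤ X + 2 := by
    have h10 := bf_self z
    have h11 : ‖z.2‖ ^ 2 ≤ (X + 2) ^ 2 := by nlinarith [hz'.1]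
    exact abs_le_of_sq_le_sq' h11 (by linarith) |>.2
  rw [Prod.norm_def]
  exact max_le (by linarith) (by linarith)

theorem AL (U C : ℝ) (hC : 0 ≤ C) : ∃ ε : ℝ, 0 < ε ∧ ∀ g h : IsoG P N, dl g h ≤ U →
    ∀ z : P × N, bf z z = 1 → ‖h⁻¹ • z‖ ≤ C → ε * ‖z‖ ≤ ‖z.1 - At g z.2‖ := by
  set K := Real.exp U * 2 ^ (finrank ℝ P - 1) with hK
  have hK0 : 0 < K := by positivity
  set X0 : ℝ := 8 * K ^ 2 * C + 1 with hX0
  have hX01 : 1 ≤ X0 := by
    have : 0 ≤ 8 * K ^ 2 * C := by positivity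
    linarith
  refine ⟨min (1 / (2 * K)) (1 / (2 * X0 ^ 2)), by positivity, fun g h hd z hz hh => ?_⟩
  have h1 := transversal_le g h hd z
  rw [← hK] at h1
  have h2 := near_graph h z
  have h10 := bf_self z
  rw [hz] at h10 h2
  set X := ‖z.1‖ with hX
  set v := ‖z.2 - AA h z.1‖ with hv
  set al := ‖z.1 - At g z.2‖ with hal
  have hXnn : 0 ≤ X := norm_nonneg _
  have hv0 : 0 ≤ v := norm_nonneg _
  have hX1 : 1 ≤ X := by nlinarith [sq_nonneg ‖z.2‖]
  have hzX : ‖z‖ = X := by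
    rw [Prod.norm_def]
    apply max_eq_left
    exact abs_le_of_sq_le_sq' (by linarith) hXnn |>.2
  rw [hzX]
  rcases le_total X0 X with hc | hc
  · have h4 : v ^ 2 ≤ 2 * C * X := by
      have : ‖h⁻¹ • z‖ * X ≤ C * X := by gcongr
      linarith
    have h5 : K * v ≤ X / 2 := by
      have h6 : (K * v) ^ 2 ≤ (X / 2) ^ 2 := by
        calc (K * v) ^ 2 = K ^ 2 * v ^ 2 := by ring
          _ ≤ K ^ 2 * (2 * C * X) := by gcongr
          _ ≤ (X / 2) ^ 2 := by nlinarith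
      exact abs_le_of_sq_le_sq' h6 (by positivity) |>.2
    have h6 : X / 2 ≤ K * al := by linarith
    have h7 : 1 / (2 * K) * X ≤ al := by
      rw [div_mul_eq_mul_div, one_mul, div_le_iff₀ (by positivity)]
      linarith
    exact (mul_le_mul_of_nonneg_right (min_le_left _ _) hXnn).trans h7
  · have h3 : X - ‖z.2‖ ≤ al := by
      have h4 : ‖z.1‖ ≤ ‖z.1 - At g z.2‖ + ‖At g z.2‖ := by
        have := norm_add_le (z.1 - At g z.2) (At g z.2)
        rwa [sub_add_cancel] at this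
      have h5 := At_le g z.2
      linarith
    have h4 : ‖z.2‖ ≤ X := by
      rw [← hzX]
      exact norm_snd_le z
    have h5 : 1 / (2 * X) ≤ X - ‖z.2‖ := by
      rw [div_le_iff₀ (by linarith)]
      nlinarith [norm_nonneg z.2]
    have h6 : 1 / (2 * X0 ^ 2) * X ≤ 1 / (2 * X) := by
      rw [div_mul_eq_mul_div, one_mul, div_le_div_iff₀ (by positivity) (by linarith)]
      nlinarith
    have h7 := mul_le_mul_of_nonneg_right (min_le_right (1 / (2 * K)) (1 / (2 * X0 ^ 2))) hXnn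
    linarith

end Pool.Agent.Helper60.CQ
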