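import Pool.Agent.Helper60.CQ.Dich
import Pool.Agent.Helper60.CQ.WQ
import Pool.Agent.Helper60.CQ.PC

/-!
Project CQ (MP_b66f9f_gt), file Walk: two elements of the group at the same level, with nearly equal
contractions and a common bounded negative vector, are close to each other.
-/

set_option autoImplicit false
set_option linter.unusedSectionVars false

open Set Filter Topology Module

namespace Pool.Agent.Helper60.CQ

/-- parity for three far elements -/
theorem Par (P N : Type*) [NormedAddCommGroup P] [InnerProductSpace ℝ P] [FiniteDimensional ℝ P]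
    [NormedAddCommGroup N] [InnerProductSpace ℝ N] [FiniteDimensional ℝ N] [Nontrivial P]
    (hodd : Odd (finrank ℝ P)) (hN : finrank ℝ N = finrank ℝ P + 1) (C U : ℝ) (hC : 0 ≤ C) :
    ∃ M : ℝ, 0 < M ∧ ∀ g : Fin 3 → IsoG P N, (∀ i, M ≤ mu (g i)) → ∀ z : P × N,
      bf z z ≤ -1 → ‖z‖ ≤ C → (∀ i, ‖(g i)⁻¹ • z‖ ≤ C) →
      ∃ i j : Fin 3, i < j ∧ U < dl (g i) (g j) := by
  obtain ⟨δ, hδ, hPC⟩ := PC P N hodd hN C (Real.exp (-U)) (Real.exp_pos _)
  set M : ℝ := max 1 (Real.log ((C + 1) / min δ 1)) with hM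
  have hδ1 : 0 < min δ 1 := lt_min hδ one_pos
  have hM0 : 0 < M := lt_of_lt_of_le one_pos (le_max_left _ _)
  have hMexp : (C + 1) * Real.exp (-M) ≤ min δ 1 := by
    have h1 : (C + 1) / min δ 1 ≤ Real.exp M := by
      rw [← Real.log_le_iff_le_exp (by positivity)]
      exact le_max_right _ _
    rw [div_le_iff₀ hδ1] at h1
    rw [Real.exp_neg, ← div_eq_mul_inv, div_le_iff₀ (Real.exp_pos _)]
    linarith
  refine ⟨M, hM0, fun g hg z hz hzC hgz => ?_⟩
  have hexp : ∀ i, Real.exp (-mu (g i)) ≤ Real.exp (-M) := fun i => by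
    rw [Real.exp_le_exp]
    linarith [hg i]
  have he1 : Real.exp (-M) ≤ min δ 1 := by
    have : 0 ≤ C * Real.exp (-M) := by positivity
    linarith
  obtain ⟨i, j, hij, hdet⟩ := hPC (fun i => AA (g i)) z.1 z.2 (fun i u => AA_le _ _) (by
      intro i u
      rw [AA_sq]
      have h1 := ai_le_exp (g i) u
      have h2 : ‖ai (g i) u‖ ^ 2 ≤ (Real.exp (-M) * ‖u‖) ^ 2 := by
        have := hexp i
        gcongr
        exact h1.trans (by gcongr)
      have h3 : (Real.exp (-M) * ‖u‖) ^ 2 ≤ δ * ‖u‖ ^ 2 := by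
        rw [mul_pow]
        refine mul_le_mul_of_nonneg_right ?_ (sq_nonneg _)
        have h4 : Real.exp (-M) ≤ δ := he1.trans (min_le_left _ _)
        have h5 : Real.exp (-M) ≤ 1 := he1.trans (min_le_right _ _)
        nlinarith [Real.exp_pos (-M)]
      linarith) ((norm_fst_le z).trans hzC) ((norm_snd_le z).trans hzC) (by
      rw [bf_self] at hz
      linarith) (by
      intro i
      show ‖z.1 - At (g i) z.2‖ ≤ δ
      have h1 := mu_lower (g i)⁻¹ (z.1 - At (g i) z.2)
      rw [mu_inv, aa_inv, ← inv_fst] at h1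
      have h2 := (norm_fst_le ((g i)⁻¹ • z)).trans (hgz i)
      have h3 : ‖z.1 - At (g i) z.2‖ ≤ C * Real.exp (-mu (g i)) := by
        rw [Real.exp_neg, ← div_eq_mul_inv, le_div_iff₀ (Real.exp_pos _)]
        linarith
      refine h3.trans ?_
      have h4 : C * Real.exp (-mu (g i)) ≤ C * Real.exp (-M) := by
        have := hexp i
        gcongr
      have h5 : C * Real.exp (-M) ≤ (C + 1) * Real.exp (-M) := by
        have := Real.exp_pos (-M)
        nlinarith
      exact h4.trans (h5.trans (hMexp.trans (min_le_left _ _))))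
  refine ⟨i, j, hij, ?_⟩
  have h1 : tt (g i) (g j) < Real.exp (-U) := hdet
  rw [← exp_neg_dl, Real.exp_lt_exp] at h1
  linarith

variable {P N : Type*} [NormedAddCommGroup P] [InnerProductSpace ℝ P] [FiniteDimensional ℝ P]
  [NormedAddCommGroup N] [InnerProductSpace ℝ N] [FiniteDimensional ℝ N] [Nontrivial P]
  {Γ : Subgroup (IsoG P N)}

theorem CC.walk (h : CC Γ) (hodd : Odd (finrank ℝ P)) (hN : finrank ℝ N = finrank ℝ P + 1)
    (κ : ℝ) : ∃ η D0 K0 : ℝ, 0 < η ∧ ∀ K, K0 ≤ K → ∀ g ∈ Γ, ∀ g' ∈ Γ,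
      K ≤ mu g → mu g ≤ K + κ → K ≤ mu g' → mu g' ≤ K + κ → ‖AA g - AA g'‖ ≤ η →
      ∀ w : P × N, -4 ≤ bf w w → bf w w ≤ -1 → ‖w‖ ≤ 3 → ‖g⁻¹ • w‖ ≤ 3 → ‖g'⁻¹ • w‖ ≤ 3 →
      mu (g⁻¹ * g') ≤ D0 := by
  classical
  obtain ⟨C, c, hC, hc, hch⟩ := h.chain
  obtain ⟨U, hU, hUT⟩ := UT P N hC hc
  obtain ⟨Kd, σ, hKd, hσ, hdich⟩ := h.dich
  obtain ⟨C', hC', hWQ⟩ := WQ P N U 3 (by norm_num)
  set m : ℝ := (finrank ℝ P : ℝ) with hm
  have hm0 : 0 ≤ m := Nat.cast_nonneg _
  set Lc : ℝ := m * 2 ^ (finrank ℝ P - 1) with hLc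
  have hLc0 : 0 ≤ Lc := by positivity
  set U2 : ℝ := U + 1 + 2 * m * C with hU2
  have hU20 : U ≤ U2 := by
    have : 0 ≤ 2 * m * C := by positivity
    linarith
  -- choice of U3
  set gap : ℝ := Real.exp (-U) - Real.exp (-(U + 1)) with hgap
  have hgap0 : 0 < gap := by
    rw [hgap, sub_pos, Real.exp_lt_exp]
    linarith
  obtain ⟨U3, hU3a, hU3b⟩ : ∃ U3 : ℝ, U2 ≤ U3 ∧ Lc * (Kd * Real.exp (-(σ * U3))) ≤ gap := by
    have h1 : Tendsto (fun x : ℝ => Lc * (Kd * Real.exp (-(σ * x)))) atTop (𝓝 (Lc * (Kd * 0))) := by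
      refine (Tendsto.const_mul _ (Tendsto.const_mul _ ?_))
      exact Real.tendsto_exp_neg_atTop_nhds_zero.comp (tendsto_id.const_mul_atTop hσ)
    rw [mul_zero, mul_zero] at h1
    have h2 := (h1.eventually (gt_mem_nhds hgap0)).and (eventually_ge_atTop U2)
    obtain ⟨x, hx1, hx2⟩ := h2.exists
    exact ⟨x, hx2, hx1.le⟩
  obtain ⟨M, hM, hPar⟩ := Par P N hodd hN (max C' 3) U3 (le_max_of_le_left hC')
  obtain ⟨B, hB, hnu⟩ := h.nubd M
  have hlog2 : 0 < Real.log 2 := Real.log_pos one_lt_two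
  refine ⟨Real.exp (-(2 * m * B)) / (Lc + 1), 2 * B + κ + U2 + m * Real.log 2, M, by positivity,
    fun K hK g hg g' hg' hg1 hg2 hg1' hg2' hη w hw1 hw2 hw3 hgw hgw' => ?_⟩
  obtain ⟨n, R, hR0, hRn, hRm, hReg⟩ := hch 1 Γ.one_mem g hg
  have hUTg : ∀ k, k ≤ n → dl (R k)⁻¹ ((R k)⁻¹ * g) ≤ U := by
    intro k hk
    have := hUT n R hReg 0 k n (Nat.zero_le _) hk le_rfl
    rwa [hR0, hRn, mul_one] at this
  have hex : ∃ k, mu ((R k)⁻¹ * g) < M ∨ mu ((R k)⁻¹ * g') < M :=
    ⟨n, Or.inl (by rw [hRn, inv_mul_cancel, mu_one]; exact hM)⟩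
  set kC := Nat.find hex with hkC
  have hkCn : kC ≤ n := Nat.find_min' hex (Or.inl (by rw [hRn, inv_mul_cancel, mu_one]; exact hM))
  have hkCspec := Nat.find_spec hex
  have hkC1 : 1 ≤ kC := by
    rw [Nat.one_le_iff_ne_zero]
    intro h0
    rw [← hkC, h0, hR0, inv_one, one_mul, one_mul] at hkCspec
    rcases hkCspec with h1 | h1 <;> linarith
  have hclaim : ∀ k, k < kC → dl (R k)⁻¹ ((R k)⁻¹ * g') ≤ U + 1 := by
    intro k
    induction k with
    | zero =>
      intro _
      rw [hR0, inv_one, one_mul]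
      have := dl_le_nu (1 : IsoG P N) g'
      rw [nu_one] at this
      linarith
    | succ k ih =>
      intro hk
      have hprev := ih (by omega)
      have hkn : k + 1 ≤ n := by omega
      have hRk := hRm (k + 1) hkn
      have hfar := Nat.find_min hex hk
      push Not at hfar
      obtain ⟨hfg, hfg'⟩ := hfar
      rcases lt_or_ge (mu (R (k + 1))) M with hA | hBb
      · -- phase A
        have h1 := hnu (R (k + 1)) hRk hA.le
        have e1 : dl (R (k + 1))⁻¹ ((R (k + 1))⁻¹ * g') = 2 * ld (R (k + 1)) - dl (R (k + 1)) g' := by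
          unfold dl
          rw [ld_inv, inv_inv, mul_inv_cancel_left]
          ring
        have e2 : dl (R (k + 1))⁻¹ ((R (k + 1))⁻¹ * g) = 2 * ld (R (k + 1)) - dl (R (k + 1)) g := by
          unfold dl
          rw [ld_inv, inv_inv, mul_inv_cancel_left]
          ring
        have h2 := hUTg (k + 1) hkn
        rw [e2] at h2
        rw [e1]
        have h3 := dl_le_nu (R (k + 1)) g
        have h4 := tt_sub_le (R (k + 1)) g' (R (k + 1)) g
        rw [sub_self, norm_zero, zero_add, norm_sub_rev] at h4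
        have h5 : tt (R (k + 1)) g' ≤ tt (R (k + 1)) g + Lc * ‖AA g - AA g'‖ := by
          have := (le_abs_self _).trans h4
          linarith
        have h6 : Lc * ‖AA g - AA g'‖ ≤ Real.exp (-(2 * m * B)) := by
          calc Lc * ‖AA g - AA g'‖ ≤ (Lc + 1) * (Real.exp (-(2 * m * B)) / (Lc + 1)) := by
                gcongr
                linarith
            _ = Real.exp (-(2 * m * B)) := by field_simp
        have h7 : Real.exp (-(2 * m * B)) ≤ tt (R (k + 1)) g := by
          rw [← exp_neg_dl, Real.exp_le_exp]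
          have : 2 * m * nu (R (k + 1)) ≤ 2 * m * B := by gcongr
          linarith
        have h8 : tt (R (k + 1)) g' ≤ Real.exp (1 + -dl (R (k + 1)) g) := by
          rw [Real.exp_add, exp_neg_dl]
          have h9 : (2 : ℝ) ≤ Real.exp 1 := by
            have := Real.add_one_le_exp (1 : ℝ)
            linarith
          have h10 := tt_pos (R (k + 1)) g
          nlinarith
        rw [← exp_neg_dl, Real.exp_le_exp] at h8
        linarith
      · -- phase B
        have hbase := dl_base (R (k + 1)) (R k) 1 g'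
        rw [mul_one, mul_one] at hbase
        have hst := hReg.1 k (by omega)
        rw [← nu_inv, show ((R k)⁻¹ * R (k + 1))⁻¹ = (R (k + 1))⁻¹ * R k by group] at hst
        have h02 : dl (R (k + 1))⁻¹ ((R (k + 1))⁻¹ * g') ≤ U2 := by
          have : 2 * m * nu ((R (k + 1))⁻¹ * R k) ≤ 2 * m * C := by gcongr
          linarith
        have h01 := hUTg (k + 1) hkn
        have hz : ‖(R (k + 1))⁻¹ • w‖ ≤ C' := by
          refine hWQ (R (k + 1))⁻¹ ((R (k + 1))⁻¹ * g) h01 _ ?_ ?_ ?_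
          · rw [bf_pres, abs_le]
            constructor <;> linarith
          · rw [inv_inv, smul_inv_smul]
            exact hw3
          · rw [mul_inv_rev, inv_inv, mul_smul, smul_inv_smul]
            exact hgw
        obtain ⟨i, j, hij, hlt⟩ := hPar ![(R (k + 1))⁻¹, (R (k + 1))⁻¹ * g, (R (k + 1))⁻¹ * g']
          (by
            intro i
            fin_cases i
            · show M ≤ mu (R (k + 1))⁻¹
              rw [mu_inv]
              exact hBb
            · exact hfg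
            · exact hfg')
          ((R (k + 1))⁻¹ • w) (by rw [bf_pres]; exact hw2) (hz.trans (le_max_left _ _))
          (by
            intro i
            fin_cases i
            · show ‖((R (k + 1))⁻¹)⁻¹ • (R (k + 1))⁻¹ • w‖ ≤ _
              rw [inv_inv, smul_inv_smul]
              exact hw3.trans (le_max_right _ _)
            · show ‖((R (k + 1))⁻¹ * g)⁻¹ • (R (k + 1))⁻¹ • w‖ ≤ _
              rw [mul_inv_rev, inv_inv, mul_smul, smul_inv_smul]
              exact hgw.trans (le_max_right _ _)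
            · show ‖((R (k + 1))⁻¹ * g')⁻¹ • (R (k + 1))⁻¹ • w‖ ≤ _
              rw [mul_inv_rev, inv_inv, mul_smul, smul_inv_smul]
              exact hgw'.trans (le_max_right _ _))
        have h12 : U3 < dl ((R (k + 1))⁻¹ * g) ((R (k + 1))⁻¹ * g') := by
          have hcases : (i = 0 ∧ j = 1) ∨ (i = 0 ∧ j = 2) ∨ (i = 1 ∧ j = 2) := by
            revert hij
            fin_cases i <;> fin_cases j <;> simp
          rcases hcases with ⟨rfl, rfl⟩ | ⟨rfl, rfl⟩ | ⟨rfl, rfl⟩
          · have : U3 < dl (R (k + 1))⁻¹ ((R (k + 1))⁻¹ * g) := hlt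
            linarith
          · have : U3 < dl (R (k + 1))⁻¹ ((R (k + 1))⁻¹ * g') := hlt
            linarith
          · exact hlt
        have hd := hdich ((R (k + 1))⁻¹ * g) (Γ.mul_mem (Γ.inv_mem hRk) hg) ((R (k + 1))⁻¹ * g')
          (Γ.mul_mem (Γ.inv_mem hRk) hg')
        have hd2 : Lc * ‖AA ((R (k + 1))⁻¹ * g) - AA ((R (k + 1))⁻¹ * g')‖ ≤ gap := by
          refine le_trans ?_ hU3b
          refine mul_le_mul_of_nonneg_left (hd.trans ?_) hLc0
          refine mul_le_mul_of_nonneg_left ?_ hKd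
          rw [Real.exp_le_exp]
          have := mul_le_mul_of_nonneg_left h12.le hσ.le
          linarith
        have h4 := tt_sub_le (R (k + 1))⁻¹ ((R (k + 1))⁻¹ * g) (R (k + 1))⁻¹ ((R (k + 1))⁻¹ * g')
        rw [sub_self, norm_zero, zero_add] at h4
        have h5 := (le_abs_self _).trans h4
        have h6 : Real.exp (-U) ≤ tt (R (k + 1))⁻¹ ((R (k + 1))⁻¹ * g) := by
          rw [← exp_neg_dl, Real.exp_le_exp]
          linarith
        have h7 : Real.exp (-(U + 1)) ≤ tt (R (k + 1))⁻¹ ((R (k + 1))⁻¹ * g') := by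
          rw [← hLc] at h5
          linarith
        rw [← exp_neg_dl, Real.exp_le_exp] at h7
        linarith
  -- phase C
  have hRk := hRm kC hkCn
  have hlast : dl (R kC)⁻¹ ((R kC)⁻¹ * g') ≤ U2 := by
    obtain ⟨l, hl⟩ : ∃ l, kC = l + 1 := ⟨kC - 1, by omega⟩
    have hprev := hclaim l (by omega)
    have hbase := dl_base (R kC) (R l) 1 g'
    rw [mul_one, mul_one] at hbase
    have hst := hReg.1 l (by omega)
    rw [← nu_inv, show ((R l)⁻¹ * R (l + 1))⁻¹ = (R (l + 1))⁻¹ * R l by group, ← hl] at hst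
    have : 2 * m * nu ((R kC)⁻¹ * R l) ≤ 2 * m * C := by gcongr
    linarith
  have hadd' := mu_add_le (R kC)⁻¹ ((R kC)⁻¹ * g')
  have hadd := mu_add_le (R kC)⁻¹ ((R kC)⁻¹ * g)
  rw [inv_inv, mul_inv_cancel_left, mu_inv] at hadd' hadd
  have hUk := hUTg kC hkCn
  have hrel : g⁻¹ * g' = ((R kC)⁻¹ * g)⁻¹ * ((R kC)⁻¹ * g') := by group
  rcases hkCspec with h1 | h1
  · have h2 := hnu _ (Γ.mul_mem (Γ.inv_mem hRk) hg) h1.le
    have h3 := mu_mul_le' (R kC) ((R kC)⁻¹ * g)
    rw [mul_inv_cancel_left] at h3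
    have h4 := mu_mul_le ((R kC)⁻¹ * g)⁻¹ ((R kC)⁻¹ * g')
    rw [← hrel, nu_inv] at h4
    linarith
  · have h2 := hnu _ (Γ.mul_mem (Γ.inv_mem hRk) hg') h1.le
    have h3 := mu_mul_le' (R kC) ((R kC)⁻¹ * g')
    rw [mul_inv_cancel_left] at h3
    have h4 := mu_mul_le' ((R kC)⁻¹ * g)⁻¹ ((R kC)⁻¹ * g')
    rw [← hrel, mu_inv] at h4
    linarith

end Pool.Agent.Helper60.CQ
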